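import Mathlib

/-! The exponent-free parts of the files Step, Cube and Glue of this folder (written by helper13),
copied into a namespace of their own so that the files behind S06686 stay untouched. -/

set_option autoImplicit false

namespace Pool.Agent.P.MP_f33f0c_an.AllP

open Real Finset

/-- The angle `2π / (4m)`. -/
noncomputable def al (m : ℕ) : ℝ := π / (2 * m)

/-- The multiplicative steps. -/
noncomputable def xi (m s : ℕ) : ℝ := 1 + cos (s * al m)

/-- The polygon constant. -/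
noncomputable def DD (m : ℕ) : ℝ := 1 / cos (al m / 2)

/-- The averaging operator. -/
noncomputable def V (m : ℕ) (f : ℝ → ℝ) (x : ℝ) : ℝ :=
  (1 / (4 * m : ℝ)) * ∑ s ∈ range (4 * m), f (DD m * x * xi m s)

theorem al_pos {m : ℕ} (hm : 0 < m) : 0 < al m := by
  unfold al
  have : (0 : ℝ) < m := by exact_mod_cast hm
  positivity

theorem al_le {m : ℕ} (hm : 0 < m) : al m ≤ π / 2 := by
  unfold al
  have : (1 : ℝ) ≤ m := by exact_mod_cast hm
  apply div_le_div_of_nonneg_left pi_pos.le (by norm_num)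
  linarith

theorem mul_al {m : ℕ} (hm : 0 < m) : (m : ℝ) * al m = π / 2 := by
  unfold al
  have : (m : ℝ) ≠ 0 := by exact_mod_cast hm.ne'
  field_simp

theorem cos_half_pos {m : ℕ} (hm : 0 < m) : 0 < cos (al m / 2) := by
  have h1 := al_pos hm
  have h2 := al_le hm
  exact cos_pos_of_mem_Ioo ⟨by linarith [pi_pos], by linarith [pi_pos]⟩

theorem one_le_DD {m : ℕ} (hm : 0 < m) : 1 ≤ DD m := by
  unfold DD
  rw [le_div_iff₀ (cos_half_pos hm), one_mul]
  exact cos_le_one _

theorem xi_nonneg (m s : ℕ) : 0 ≤ xi m s := by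
  unfold xi
  linarith [neg_one_le_cos (s * al m)]

theorem orbit_sum {E : Type} [AddCommMonoid E] {m : ℕ} (hm : 0 < m) (F : ℝ → E) (θ : ℝ) :
    ∑ s ∈ range (4 * m), F (θ + s * al m) = ∑ t ∈ range m,
      (F (θ + t * al m) + F (θ + t * al m + π / 2) + F (θ + t * al m + π) +
        F (θ + t * al m + π + π / 2)) := by
  have h := mul_al hm
  rw [show 4 * m = m + m + m + m by ring, sum_range_add, sum_range_add, sum_range_add]
  simp only [sum_add_distrib]
  congr 1
  · congr 1
    · congr 1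
      refine sum_congr rfl fun t _ => ?_
      congr 1
      push_cast
      linarith
    · refine sum_congr rfl fun t _ => ?_
      congr 1
      push_cast
      linarith
  · refine sum_congr rfl fun t _ => ?_
    congr 1
    push_cast
    linarith

theorem sum_cos {m : ℕ} (hm : 0 < m) (θ : ℝ) :
    ∑ s ∈ range (4 * m), cos (θ + s * al m) = 0 := by
  rw [orbit_sum hm cos θ]
  refine sum_eq_zero fun t _ => ?_
  simp only [cos_add_pi_div_two, cos_add_pi, sin_add_pi]
  ring

theorem sum_shift {m : ℕ} (hm : 0 < m) (h : ℝ → ℝ) (t : ℤ) :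
    ∑ s ∈ range (4 * m), h (cos ((t + s) * al m)) = ∑ s ∈ range (4 * m), h (cos (s * al m)) := by
  have one : ∀ u : ℝ, ∑ s ∈ range (4 * m), h (cos ((u + 1 + s) * al m)) =
      ∑ s ∈ range (4 * m), h (cos ((u + s) * al m)) := by
    intro u
    have e1 := sum_range_succ (fun s : ℕ => h (cos ((u + s) * al m))) (4 * m)
    have e2 := sum_range_succ' (fun s : ℕ => h (cos ((u + s) * al m))) (4 * m)
    have e3 : cos ((u + ((4 * m : ℕ) : ℝ)) * al m) = cos ((u + ((0 : ℕ) : ℝ)) * al m) := by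
      have := mul_al hm
      rw [← cos_add_two_pi ((u + ((0 : ℕ) : ℝ)) * al m)]
      congr 1
      push_cast
      linarith
    rw [e1, e3] at e2
    rw [add_right_cancel e2]
    refine sum_congr rfl fun s _ => ?_
    congr 2
    push_cast
    ring
  induction t using Int.induction_on with
  | zero => simp
  | succ n ih =>
    rw [← ih]
    have := one (n : ℝ)
    push_cast at this ⊢
    exact this
  | pred n ih =>
    rw [← ih]
    have := one (-(n : ℝ) - 1)
    push_cast at this ⊢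
    rw [← this]
    refine sum_congr rfl fun s _ => ?_
    congr 2
    ring

theorem polygon {m : ℕ} (hm : 0 < m) (θ : ℝ) : ∃ (t : ℤ) (w₁ w₂ : ℝ), 0 ≤ w₁ ∧ 0 ≤ w₂ ∧
    w₁ + w₂ ≤ DD m ∧ ∀ s : ℝ, cos (θ + s * al m) =
      w₁ * cos ((t + s) * al m) + w₂ * cos (((t + 1 : ℤ) + s) * al m) := by
  have ha := al_pos hm
  have ha2 := al_le hm
  set a := al m with hadef
  set t := ⌊θ / a⌋ with ht
  set r := θ - t * a with hr
  have hr0 : 0 ≤ r := by
    have := Int.floor_le (θ / a)
    rw [le_div_iff₀ ha] at this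
    linarith
  have hr1 : r ≤ a := by
    have := Int.lt_floor_add_one (θ / a)
    rw [div_lt_iff₀ ha] at this
    linarith
  have hs : 0 < sin a := sin_pos_of_pos_of_lt_pi ha (by linarith [pi_pos])
  refine ⟨t, sin (a - r) / sin a, sin r / sin a,
    div_nonneg (sin_nonneg_of_nonneg_of_le_pi (by linarith) (by linarith [pi_pos])) hs.le,
    div_nonneg (sin_nonneg_of_nonneg_of_le_pi hr0 (by linarith [pi_pos])) hs.le, ?_, ?_⟩
  · have hc := cos_half_pos hm
    rw [← hadef] at hc
    have hs2 : 0 < sin (a / 2) := sin_pos_of_pos_of_lt_pi (by linarith) (by linarith [pi_pos])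
    have e1 : sin a = 2 * sin (a / 2) * cos (a / 2) := by rw [← sin_two_mul]; congr 1; ring
    have e2 : sin (a - r) + sin r = 2 * sin (a / 2) * cos (a / 2 - r) := by
      have h1 := sin_add (a / 2) (a / 2 - r)
      have h2 := sin_sub (a / 2) (a / 2 - r)
      rw [show a / 2 + (a / 2 - r) = a - r by ring] at h1
      rw [show a / 2 - (a / 2 - r) = r by ring] at h2
      linarith
    rw [← add_div, e2, e1, DD, ← hadef, div_le_div_iff₀ (by positivity) hc]
    have := cos_le_one (a / 2 - r)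
    nlinarith [mul_pos hs2 hc]
  · intro s
    have e1 : θ + s * a = (t + s) * a + r := by rw [hr]; ring
    have e2 : (((t + 1 : ℤ) : ℝ) + s) * a = (t + s) * a + a := by push_cast; ring
    rw [e1, e2, cos_add _ r, cos_add _ a, sin_sub a r]
    field_simp
    ring

theorem step_le {m : ℕ} (hm : 0 < m) {f : ℝ → ℝ} (hc : ConvexOn ℝ Set.univ f) (hf : Monotone f)
    {A b : ℝ} (hb : 0 ≤ b) (hA : b ≤ A) (θ : ℝ) :
    (1 / (4 * m : ℝ)) * ∑ s ∈ range (4 * m), f (A + b * cos (θ + s * al m)) ≤ V m f A := by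
  have hm' : (0 : ℝ) < m := by exact_mod_cast hm
  obtain ⟨t, w₁, w₂, h1, h2, h3, h4⟩ := polygon hm θ
  have hD := one_le_DD hm
  unfold V
  refine mul_le_mul_of_nonneg_left ?_ (by positivity)
  rcases (hb.trans hA).eq_or_lt with h0 | h0
  · have : b = 0 := le_antisymm (h0 ▸ hA) hb
    simp [this, ← h0]
  set B := DD m * A with hB
  have hB0 : 0 < B := by positivity
  have hAB : A ≤ B := by rw [hB]; nlinarith
  set T := ∑ s ∈ range (4 * m), f (B * xi m s) with hT
  have hw : b * w₁ + b * w₂ ≤ B := by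
    rw [hB, ← mul_add, mul_comm]
    exact mul_le_mul h3 hA hb (by linarith)
  have hJ : (4 * m : ℝ) * f A ≤ T := by
    have := hc.map_sum_le (t := range (4 * m)) (w := fun _ => 1 / (4 * m : ℝ))
      (p := fun s => B * xi m s) (fun _ _ => by positivity)
      (by simp; field_simp) (fun _ _ => Set.mem_univ _)
    simp only [smul_eq_mul, ← mul_sum] at this
    have e : ∑ s ∈ range (4 * m), xi m s = 4 * m := by
      have := sum_cos hm 0
      simp only [zero_add] at this
      simp [xi, sum_add_distrib, this]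
    rw [e, ← hT, show 1 / (4 * m : ℝ) * (B * (4 * m)) = B by field_simp] at this
    have h5 := hf hAB
    calc (4 * m : ℝ) * f A ≤ (4 * m : ℝ) * (1 / (4 * m : ℝ) * T) := by gcongr; linarith
      _ = T := by field_simp
  have key : ∀ s ∈ range (4 * m), f (A + b * cos (θ + s * al m)) ≤
      (b * w₁ / B) * f (B * (1 + cos ((t + s) * al m))) +
      (b * w₂ / B) * f (B * (1 + cos (((t + 1 : ℤ) + s) * al m))) +
      (1 - (b * w₁ + b * w₂) / B) * f A := by
    intro s _
    have := hc.map_sum_le (t := (univ : Finset (Fin 3)))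
      (w := ![b * w₁ / B, b * w₂ / B, 1 - (b * w₁ + b * w₂) / B])
      (p := ![B * (1 + cos ((t + s) * al m)), B * (1 + cos (((t + 1 : ℤ) + s) * al m)), A])
      (by
        intro i _
        fin_cases i
        · simp; positivity
        · simp; positivity
        · simp; rw [div_le_one hB0]; exact hw)
      (by simp [Fin.sum_univ_three]; ring) (fun _ _ => Set.mem_univ _)
    simp only [Fin.sum_univ_three, smul_eq_mul, Matrix.cons_val_zero, Matrix.cons_val_one,
      Matrix.cons_val] at this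
    refine le_trans (hf ?_) this
    rw [h4 s]
    have e : b * w₁ / B * (B * (1 + cos ((t + s) * al m))) +
        b * w₂ / B * (B * (1 + cos (((t + 1 : ℤ) + s) * al m))) + (1 - (b * w₁ + b * w₂) / B) * A =
        A + b * (w₁ * cos ((t + s) * al m) + w₂ * cos (((t + 1 : ℤ) + s) * al m)) +
          (b * w₁ + b * w₂) * (1 - A / B) := by
      field_simp
      ring
    rw [e]
    have : 0 ≤ (b * w₁ + b * w₂) * (1 - A / B) :=
      mul_nonneg (by positivity) (by rw [sub_nonneg, div_le_one hB0]; exact hAB)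
    linarith
  refine (sum_le_sum key).trans ?_
  simp only [sum_add_distrib, ← mul_sum]
  rw [sum_shift hm (fun c => f (B * (1 + c))) t, sum_shift hm (fun c => f (B * (1 + c))) (t + 1)]
  simp only [sum_const, card_range, nsmul_eq_mul]
  have e : ∑ s ∈ range (4 * m), f (B * (1 + cos (s * al m))) = T := rfl
  rw [e]
  have h6 : 0 ≤ 1 - (b * w₁ + b * w₂) / B := by rw [sub_nonneg, div_le_one hB0]; exact hw
  have h7 := mul_le_mul_of_nonneg_left hJ h6
  push_cast
  calc _ ≤ b * w₁ / B * T + b * w₂ / B * T + (1 - (b * w₁ + b * w₂) / B) * T := by linarith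
    _ = T := by ring

theorem V_convex {m : ℕ} {f : ℝ → ℝ} (hc : ConvexOn ℝ Set.univ f) :
    ConvexOn ℝ Set.univ (V m f) := by
  refine ⟨convex_univ, fun x _ y _ a b ha hb hab => ?_⟩
  simp only [V, smul_eq_mul]
  have : ∀ s ∈ range (4 * m), f (DD m * (a * x + b * y) * xi m s) ≤
      a * f (DD m * x * xi m s) + b * f (DD m * y * xi m s) := by
    intro s _
    have := hc.2 (Set.mem_univ (DD m * x * xi m s)) (Set.mem_univ (DD m * y * xi m s)) ha hb hab
    simp only [smul_eq_mul] at this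
    rwa [show DD m * (a * x + b * y) * xi m s =
      a * (DD m * x * xi m s) + b * (DD m * y * xi m s) by ring]
  calc _ ≤ (1 / (4 * m : ℝ)) * ∑ s ∈ range (4 * m),
        (a * f (DD m * x * xi m s) + b * f (DD m * y * xi m s)) :=
        mul_le_mul_of_nonneg_left (sum_le_sum this) (by positivity)
    _ = _ := by
        simp only [sum_add_distrib, ← mul_sum]
        ring

theorem V_mono {m : ℕ} (hm : 0 < m) {f : ℝ → ℝ} (hf : Monotone f) : Monotone (V m f) := by
  intro x y hxy
  have hD := one_le_DD hm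
  refine mul_le_mul_of_nonneg_left (sum_le_sum fun s _ => hf ?_) (by positivity)
  have := xi_nonneg m s
  gcongr

theorem V_cont {m : ℕ} {f : ℝ → ℝ} (hf : Continuous f) : Continuous (V m f) := by
  unfold V
  fun_prop

/-- The exponentials. -/
noncomputable def ee (n : ℤ) (x : ℝ) : ℂ :=
  Complex.exp (2 * (Real.pi : ℂ) * Complex.I * (n : ℂ) * (x : ℂ))

theorem ee_eq (n : ℤ) (x : ℝ) : ee n x = Complex.exp (((2 * π * n * x : ℝ) : ℂ) * Complex.I) := by
  unfold ee
  congr 1
  push_cast
  ring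

theorem norm_ee (n : ℤ) (x : ℝ) : ‖ee n x‖ = 1 := by
  rw [ee_eq, Complex.norm_exp_ofReal_mul_I]

theorem ee_add_left (k l : ℤ) (x : ℝ) : ee (k + l) x = ee k x * ee l x := by
  unfold ee
  rw [← Complex.exp_add]
  congr 1
  push_cast
  ring

theorem ee_add_right (k : ℤ) (x y : ℝ) : ee k (x + y) = ee k x * ee k y := by
  unfold ee
  rw [← Complex.exp_add]
  congr 1
  push_cast
  ring

theorem ee_eq_one {k j : ℤ} {y : ℝ} (h : k * y = j) : ee k y = 1 := by
  unfold ee
  have h' : (k : ℂ) * (y : ℂ) = (j : ℂ) := by exact_mod_cast h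
  rw [mul_assoc, h', mul_comm]
  exact Complex.exp_int_mul_two_pi_mul_I j

theorem ee_periodic (k : ℤ) (x : ℝ) : ee k (x + 1) = ee k x := by
  rw [ee_add_right, ee_eq_one (j := k) (mul_one _), mul_one]

@[fun_prop] theorem continuous_ee (k : ℤ) : Continuous (ee k) := by
  unfold ee
  fun_prop

theorem conj_ee (k : ℤ) (x : ℝ) : (starRingEnd ℂ) (ee k x) = ee (-k) x := by
  rw [ee_eq, ee_eq, ← Complex.exp_conj, map_mul, Complex.conj_ofReal, Complex.conj_I]
  congr 1
  push_cast
  ring

theorem integral_ee (k : ℤ) : ∫ x in (0 : ℝ)..1, ee k x = if k = 0 then 1 else 0 := by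
  split_ifs with h
  · simp [h, ee]
  · have hc : 2 * (Real.pi : ℂ) * Complex.I * (k : ℂ) ≠ 0 := by
      simp [h, pi_ne_zero]
    have := integral_exp_mul_complex (a := 0) (b := 1) hc
    unfold ee
    rw [this]
    have h1 : ee k 1 = 1 := ee_eq_one (j := k) (mul_one _)
    unfold ee at h1
    rw [h1]
    simp

/-- Trigonometric polynomials. -/
noncomputable def poly (S : Finset ℤ) (a : ℤ → ℂ) (x : ℝ) : ℂ := ∑ k ∈ S, a k * ee k x

@[fun_prop] theorem continuous_poly (S : Finset ℤ) (a : ℤ → ℂ) : Continuous (poly S a) := by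
  unfold poly
  fun_prop

theorem poly_periodic (S : Finset ℤ) (a : ℤ → ℂ) (x : ℝ) : poly S a (x + 1) = poly S a x := by
  simp [poly, ee_periodic]

theorem parseval (S : Finset ℤ) (a : ℤ → ℂ) :
    ∫ x in (0 : ℝ)..1, ‖poly S a x‖ ^ 2 = ∑ k ∈ S, ‖a k‖ ^ 2 := by
  have h : ∀ x, ((‖poly S a x‖ ^ 2 : ℝ) : ℂ) =
      ∑ k ∈ S, ∑ l ∈ S, a k * (starRingEnd ℂ) (a l) * ee (k - l) x := by
    intro x
    rw [← Complex.normSq_eq_norm_sq, ← Complex.mul_conj, poly, map_sum, sum_mul_sum]
    refine sum_congr rfl fun k _ => sum_congr rfl fun l _ => ?_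
    rw [map_mul, conj_ee, sub_eq_add_neg, ee_add_left]
    ring
  apply Complex.ofReal_injective
  rw [← intervalIntegral.integral_ofReal]
  simp only [h]
  rw [intervalIntegral.integral_finsetSum (fun k _ => Continuous.intervalIntegrable
    (by fun_prop) _ _)]
  push_cast
  refine sum_congr rfl fun k hk => ?_
  rw [intervalIntegral.integral_finsetSum (fun l _ => Continuous.intervalIntegrable
    (by fun_prop) _ _)]
  simp only [intervalIntegral.integral_const_mul, integral_ee, sub_eq_zero, mul_ite, mul_one,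
    mul_zero, sum_ite_eq, hk, if_true, Complex.mul_conj']

theorem integral_avg {N : ℕ} (hN : 0 < N) {Φ : ℝ → ℝ} (hc : Continuous Φ)
    (hp : ∀ x, Φ (x + 1) = Φ x) (τ : ℕ → ℝ) :
    ∫ x in (0 : ℝ)..1, Φ x = ∫ x in (0 : ℝ)..1, (1 / (N : ℝ)) * ∑ s ∈ range N, Φ (x + τ s) := by
  have hN' : (N : ℝ) ≠ 0 := by exact_mod_cast hN.ne'
  rw [intervalIntegral.integral_const_mul, intervalIntegral.integral_finsetSum
    (fun k _ => Continuous.intervalIntegrable (by fun_prop) _ _)]
  have : ∀ s ∈ range N, ∫ x in (0 : ℝ)..1, Φ (x + τ s) = ∫ x in (0 : ℝ)..1, Φ x := by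
    intro s _
    rw [intervalIntegral.integral_comp_add_right Φ (τ s)]
    have := Function.Periodic.intervalIntegral_add_eq (f := Φ) (T := 1) hp (τ s) 0
    simpa [add_comm] using this
  rw [sum_congr rfl this]
  simp only [sum_const, card_range, nsmul_eq_mul]
  field_simp

/-- The lacunary Hilbert cube. -/
def cube (M : ℕ) : ℕ → ℤ → Finset ℤ
  | 0, _ => {0}
  | J + 1, n => cube M J (n * M) ∪ (cube M J (n * M)).image (· + n)

theorem dvd_of_mem_cube {M J : ℕ} : ∀ {n k : ℤ}, k ∈ cube M J n → n ∣ k := by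
  induction J with
  | zero =>
    intro n k h
    rw [mem_singleton.1 h]
    exact dvd_zero n
  | succ J ih =>
    intro n k h
    rcases mem_union.1 h with h | h
    · exact (dvd_mul_right n M).trans (ih h)
    · obtain ⟨l, hl, rfl⟩ := mem_image.1 h
      exact dvd_add ((dvd_mul_right n M).trans (ih hl)) dvd_rfl

theorem add_not_mem_cube {M J : ℕ} (hM : 2 ≤ M) {n k : ℤ} (hn : n ≠ 0)
    (hk : k ∈ cube M J (n * M)) : k + n ∉ cube M J (n * M) := by
  intro h
  have h1 : n * M ∣ n * 1 := by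
    rw [mul_one]
    exact (dvd_add_right (dvd_of_mem_cube hk)).1 (dvd_of_mem_cube h)
  have h2 := Int.le_of_dvd one_pos ((mul_dvd_mul_iff_left hn).1 h1)
  omega

theorem sum_cube_succ {E : Type} [AddCommMonoid E] {M J : ℕ} (hM : 2 ≤ M) {n : ℤ} (hn : n ≠ 0)
    (F : ℤ → E) : ∑ k ∈ cube M (J + 1) n, F k =
      ∑ k ∈ cube M J (n * M), F k + ∑ k ∈ cube M J (n * M), F (k + n) := by
  rw [cube, sum_union, sum_image (fun a _ b _ h => add_right_cancel h)]
  rw [disjoint_left]
  intro k hk h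
  obtain ⟨l, hl, rfl⟩ := mem_image.1 h
  exact add_not_mem_cube hM hn hl hk

theorem poly_cube_succ {M J : ℕ} (hM : 2 ≤ M) {n : ℤ} (hn : n ≠ 0) (a : ℤ → ℂ) (x : ℝ) :
    poly (cube M (J + 1) n) a x = poly (cube M J (n * M)) a x +
      poly (cube M J (n * M)) (fun k => a (k + n)) x * ee n x := by
  simp only [poly, sum_cube_succ hM hn, ee_add_left, sum_mul, mul_assoc]

theorem poly_shift {M J : ℕ} {n : ℤ} (hn : n ≠ 0) (a : ℤ → ℂ) (x : ℝ) (s : ℕ) :
    poly (cube M J n) a (x + s / n) = poly (cube M J n) a x := by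
  refine sum_congr rfl fun k hk => ?_
  obtain ⟨j, rfl⟩ := dvd_of_mem_cube hk
  have : (n : ℝ) ≠ 0 := by exact_mod_cast hn
  rw [ee_add_right, ee_eq_one (y := s / n) (j := j * s) (by push_cast; field_simp), mul_one]

theorem ee_shift {m : ℕ} (hm : 0 < m) {n : ℤ} (hn : n ≠ 0) (x : ℝ) (s : ℕ) :
    ee n (x + s / ((n * ((4 * m : ℕ) : ℤ) : ℤ) : ℝ)) =
      ee n x * Complex.exp (((s * al m : ℝ) : ℂ) * Complex.I) := by
  have h1 : (n : ℝ) ≠ 0 := by exact_mod_cast hn
  have h2 : (m : ℝ) ≠ 0 := by exact_mod_cast hm.ne'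
  rw [ee_add_right, ee_eq n (s / _)]
  congr 4
  unfold al
  push_cast
  field_simp
  ring

theorem norm_add_mul_sq (u v z : ℂ) (hz : ‖z‖ = 1) :
    ‖u + v * z‖ ^ 2 = ‖u‖ ^ 2 + ‖v‖ ^ 2 + (2 * (starRingEnd ℂ) u * v * z).re := by
  have h : z.re * z.re + z.im * z.im = 1 := by
    rw [← Complex.normSq_apply, Complex.normSq_eq_norm_sq, hz, one_pow]
  simp only [Complex.sq_norm, Complex.normSq_apply, Complex.add_re, Complex.add_im,
    Complex.mul_re, Complex.mul_im, Complex.conj_re, Complex.conj_im, Complex.re_ofNat,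
    Complex.im_ofNat]
  linear_combination (v.re * v.re + v.im * v.im) * h

theorem re_mul_exp (β : ℂ) (t : ℝ) :
    (β * Complex.exp ((t : ℂ) * Complex.I)).re = ‖β‖ * cos (Complex.arg β + t) := by
  conv_lhs => rw [← Complex.norm_mul_exp_arg_mul_I β]
  rw [mul_assoc, ← Complex.exp_add, ← add_mul, ← Complex.ofReal_add, Complex.re_ofReal_mul,
    Complex.exp_ofReal_mul_I_re]

theorem dominate {m : ℕ} (hm : 0 < m) (J : ℕ) : ∀ (ι : Type) [Fintype ι] (a : ι → ℤ → ℂ) (n : ℤ)
    (f : ℝ → ℝ), n ≠ 0 → ConvexOn ℝ Set.univ f → Monotone f → Continuous f →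
    ∫ x in (0 : ℝ)..1, f (∑ i, ‖poly (cube (4 * m) J n) (a i) x‖ ^ 2) ≤
      (V m)^[J] f (∑ i, ∑ k ∈ cube (4 * m) J n, ‖a i k‖ ^ 2) := by
  have hM : 2 ≤ 4 * m := by omega
  induction J with
  | zero =>
    intro ι _ a n f _ _ _ _
    simp [cube, poly, norm_ee]
  | succ J ih =>
    intro ι _ a n f hn h1 h2 h3
    have hn' : n * ((4 * m : ℕ) : ℤ) ≠ 0 := mul_ne_zero hn (by exact_mod_cast (by omega))
    have IH := ih (ι ⊕ ι) (Sum.elim a (fun i k => a i (k + n))) _ (V m f) hn' (V_convex h1)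
      (V_mono hm h2) (V_cont h3)
    simp only [Fintype.sum_sum_type, Sum.elim_inl, Sum.elim_inr] at IH
    rw [Function.iterate_succ_apply]
    simp only [sum_cube_succ hM hn, sum_add_distrib]
    refine le_trans ?_ IH
    rw [integral_avg (N := 4 * m) (by omega) (by fun_prop) (fun x => by simp [poly_periodic])
      (fun s => s / ((n * ((4 * m : ℕ) : ℤ) : ℤ) : ℝ))]
    refine intervalIntegral.integral_mono_on zero_le_one
      (Continuous.intervalIntegrable (by fun_prop) _ _)
      (Continuous.intervalIntegrable ((V_cont h3).comp (by fun_prop)) _ _) fun x _ => ?_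
    set u := fun i => poly (cube (4 * m) J (n * ((4 * m : ℕ) : ℤ))) (a i) x with hu
    set v := fun i => poly (cube (4 * m) J (n * ((4 * m : ℕ) : ℤ))) (fun k => a i (k + n)) x
      with hv
    set β := (∑ i, 2 * (starRingEnd ℂ) (u i) * v i) * ee n x with hβ
    have hb : ‖β‖ ≤ ∑ i, ‖u i‖ ^ 2 + ∑ i, ‖v i‖ ^ 2 := by
      rw [hβ, norm_mul, norm_ee, mul_one, ← sum_add_distrib]
      refine norm_sum_le_of_le _ fun i _ => ?_
      rw [norm_mul, norm_mul, Complex.norm_conj, Complex.norm_ofNat]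
      nlinarith [sq_nonneg (‖u i‖ - ‖v i‖)]
    have := step_le hm h1 h2 (norm_nonneg β) hb (Complex.arg β)
    refine le_trans (le_of_eq ?_) this
    rw [show (((4 * m : ℕ) : ℝ)) = 4 * (m : ℝ) by push_cast; rfl]
    congr 1
    refine sum_congr rfl fun s _ => ?_
    congr 1
    have e := fun i => poly_cube_succ (J := J) hM hn (a i)
      (x + s / ((n * ((4 * m : ℕ) : ℤ) : ℤ) : ℝ))
    simp only [poly_shift hn', ee_shift hm hn] at e
    have hz : ‖ee n x * Complex.exp (((s * al m : ℝ) : ℂ) * Complex.I)‖ = 1 := by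
      rw [norm_mul, norm_ee, Complex.norm_exp_ofReal_mul_I, one_mul]
    rw [← re_mul_exp, hβ, mul_assoc _ (ee n x), sum_mul, Complex.re_sum, ← sum_add_distrib,
      ← sum_add_distrib]
    refine sum_congr rfl fun i _ => ?_
    rw [e i]
    exact norm_add_mul_sq (u i) (v i) _ hz

theorem rudin_shapiro {M : ℕ} (hM : 2 ≤ M) (J : ℕ) : ∀ n : ℤ, n ≠ 0 → ∃ σ τ : ℤ → ℂ,
    (∀ k, σ k = 1 ∨ σ k = -1) ∧ (∀ k, τ k = 1 ∨ τ k = -1) ∧
    ∀ x, ‖poly (cube M J n) σ x‖ ^ 2 + ‖poly (cube M J n) τ x‖ ^ 2 = 2 * 2 ^ J := by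
  induction J with
  | zero =>
    intro n _
    exact ⟨fun _ => 1, fun _ => 1, fun _ => Or.inl rfl, fun _ => Or.inl rfl, fun x => by
      simp [cube, poly, norm_ee]; norm_num⟩
  | succ J ih =>
    intro n hn
    have hn' : n * (M : ℤ) ≠ 0 := mul_ne_zero hn (by exact_mod_cast (by omega))
    obtain ⟨σ, τ, h1, h2, h3⟩ := ih _ hn'
    refine ⟨fun k => if k ∈ cube M J (n * M) then σ k else τ (k - n),
      fun k => if k ∈ cube M J (n * M) then σ k else -τ (k - n), fun k => ?_, fun k => ?_,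
      fun x => ?_⟩
    · dsimp only
      split_ifs
      · exact h1 k
      · exact h2 _
    · dsimp only
      split_ifs
      · exact h1 k
      · rcases h2 (k - n) with h | h <;> simp [h]
    · rw [poly_cube_succ hM hn, poly_cube_succ hM hn]
      have a1 : ∀ g : ℤ → ℂ, poly (cube M J (n * M))
          (fun k => if k ∈ cube M J (n * M) then σ k else g k) x = poly (cube M J (n * M)) σ x :=
        fun g => sum_congr rfl fun k hk => by simp only [if_pos hk]
      have a2 : poly (cube M J (n * M))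
          (fun k => if k + n ∈ cube M J (n * M) then σ (k + n) else τ (k + n - n)) x =
          poly (cube M J (n * M)) τ x :=
        sum_congr rfl fun k hk => by
          simp only [if_neg (add_not_mem_cube hM hn hk), add_sub_cancel_right]
      have a3 : poly (cube M J (n * M))
          (fun k => if k + n ∈ cube M J (n * M) then σ (k + n) else -τ (k + n - n)) x =
          -poly (cube M J (n * M)) τ x := by
        rw [poly, poly, ← sum_neg_distrib]
        exact sum_congr rfl fun k hk => by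
          simp only [if_neg (add_not_mem_cube hM hn hk), add_sub_cancel_right, neg_mul]
      rw [a1, a1, a2, a3, norm_add_mul_sq _ _ _ (norm_ee n x), norm_add_mul_sq _ _ _ (norm_ee n x),
        norm_neg, mul_neg, neg_mul, Complex.neg_re, pow_succ (2 : ℝ) J]
      linarith [h3 x]

open MeasureTheory

theorem markov {h : ℝ → ℝ} (hc : Continuous h) (h0 : ∀ x, 0 ≤ h x) {ε : ℝ} (hε : 0 < ε)
    (P : ℝ → Prop) (hP : ∀ x, P x → ε ≤ h x) :
    volume {x : ℝ | x ∈ Set.Icc (0 : ℝ) 1 ∧ P x} ≤
      ENNReal.ofReal ((∫ x in (0 : ℝ)..1, h x) / ε) := by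
  have h1 := mul_meas_ge_le_integral_of_nonneg (μ := volume.restrict (Set.Icc (0 : ℝ) 1)) (f := h)
    (Filter.Eventually.of_forall h0) hc.integrableOn_Icc ε
  rw [intervalIntegral.integral_of_le zero_le_one, ← integral_Icc_eq_integral_Ioc]
  have h2 : volume {x : ℝ | x ∈ Set.Icc (0 : ℝ) 1 ∧ P x} ≤
      volume.restrict (Set.Icc (0 : ℝ) 1) {x | ε ≤ h x} := by
    rw [Measure.restrict_apply' measurableSet_Icc]
    exact measure_mono fun x hx => ⟨hP x hx.2, hx.1⟩
  refine h2.trans ?_
  rw [← ofReal_measureReal (measure_ne_top _ _)]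
  apply ENNReal.ofReal_le_ofReal
  rw [le_div_iff₀ hε, mul_comm]
  exact h1

theorem poly_image (Q : Finset ℤ) (o : ℤ) (a : ℤ → ℂ) (x : ℝ) :
    ‖poly (Q.image (· + o)) a x‖ = ‖poly Q (fun k => a (k + o)) x‖ := by
  have : poly (Q.image (· + o)) a x = poly Q (fun k => a (k + o)) x * ee o x := by
    rw [poly, sum_image (fun a _ b _ h => add_right_cancel h)]
    simp only [poly, ee_add_left, sum_mul, mul_assoc]
  rw [this, norm_mul, norm_ee, mul_one]

end Pool.Agent.P.MP_f33f0c_an.AllP
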