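import Mathlib
import Pool.Agent.P.MP_f33f0c_an.AllP0

/-! Anti-concentration for the averaging operator `V`, with an arbitrary exponent `q > 1`. -/

set_option autoImplicit false

namespace Pool.Agent.P.MP_f33f0c_an.AllP

open Real Finset

/-- Multiplicative characters `y ^ (q + i τ)`. -/
noncomputable def chiq (q τ y : ℝ) : ℂ :=
  ((y ^ q : ℝ) : ℂ) * Complex.exp (((τ * log y : ℝ) : ℂ) * Complex.I)

theorem chiq_mul {q : ℝ} (hq : 0 < q) (τ : ℝ) {x y : ℝ} (hx : 0 ≤ x) (hy : 0 ≤ y) :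
    chiq q τ (x * y) = chiq q τ x * chiq q τ y := by
  unfold chiq
  by_cases hx0 : x = 0
  · simp [hx0, zero_rpow hq.ne']
  by_cases hy0 : y = 0
  · simp [hy0, zero_rpow hq.ne']
  rw [log_mul hx0 hy0, mul_add, mul_rpow hx hy]
  push_cast
  rw [add_mul, Complex.exp_add]
  ring

theorem norm_chiq (q τ : ℝ) {y : ℝ} (hy : 0 ≤ y) : ‖chiq q τ y‖ = y ^ q := by
  rw [chiq, norm_mul, Complex.norm_exp_ofReal_mul_I, Complex.norm_real, mul_one,
    Real.norm_of_nonneg (rpow_nonneg hy q)]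

theorem norm_pair_q {q τ a b : ℝ} (hq : 0 ≤ q) (hτ : |τ| ≤ 1 / 2) (ha : 17 / 10 ≤ a) (ha' : a ≤ 2)
    (hb : 29 / 100 ≤ b) (hb' : b ≤ 1) :
    ‖chiq q τ a + chiq q τ b‖ ≤ a ^ q + b ^ q - (29 / 100) ^ q * τ ^ 2 / 100 := by
  have hτ2 : τ ^ 2 ≤ 1 / 4 := by nlinarith [sq_abs τ, abs_nonneg τ]
  have l1 : 2 / 5 ≤ log a := by
    have := one_sub_inv_le_log_of_pos (x := a) (by linarith)
    have h : a⁻¹ ≤ 10 / 17 := by rw [inv_le_comm₀ (by linarith) (by norm_num)]; linarith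
    linarith
  have l2 : log a ≤ 1 := by linarith [log_le_sub_one_of_pos (x := a) (by linarith)]
  have l3 : log b ≤ 0 := log_nonpos (by linarith) hb'
  have l4 : -(5 / 2) ≤ log b := by
    have := one_sub_inv_le_log_of_pos (x := b) (by linarith)
    have h : b⁻¹ ≤ 100 / 29 := by rw [inv_le_comm₀ (by linarith) (by norm_num)]; linarith
    linarith
  set Δ := log a - log b with hΔ
  have hcos : cos (τ * Δ) ≤ 1 - 4 / 125 * τ ^ 2 := by
    have h1 : |τ * Δ| ≤ π := by
      rw [abs_mul, abs_of_nonneg (by linarith : 0 ≤ Δ)]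
      have : |τ| * Δ ≤ 1 / 2 * (7 / 2) := mul_le_mul hτ (by linarith) (by linarith) (by norm_num)
      linarith [pi_gt_three]
    have h2 := cos_le_one_sub_mul_cos_sq h1
    have h3 : 1 / 5 ≤ 2 / π ^ 2 := by
      rw [le_div_iff₀ (by positivity)]
      nlinarith [pi_lt_d2, pi_pos]
    have h4 : 4 / 25 * τ ^ 2 ≤ (τ * Δ) ^ 2 := by
      rw [mul_pow]
      have : 4 / 25 ≤ Δ ^ 2 := by nlinarith
      nlinarith [sq_nonneg τ]
    nlinarith [sq_nonneg τ, sq_nonneg (τ * Δ)]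
  have hA : 1 ≤ a ^ q := one_le_rpow (by linarith) hq
  have hB : b ^ q ≤ 1 := rpow_le_one (by linarith) hb' hq
  have hc : (29 / 100 : ℝ) ^ q ≤ b ^ q := rpow_le_rpow (by norm_num) hb hq
  have hc0 : (0 : ℝ) < (29 / 100) ^ q := rpow_pos_of_pos (by norm_num) q
  have hsq : ‖chiq q τ a + chiq q τ b‖ ^ 2 =
      (a ^ q) ^ 2 + (b ^ q) ^ 2 + 2 * a ^ q * b ^ q * cos (τ * Δ) := by
    rw [Complex.sq_norm, Complex.normSq_apply, hΔ, mul_sub, cos_sub]
    simp only [chiq, Complex.add_re, Complex.add_im, Complex.re_ofReal_mul,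
      Complex.im_ofReal_mul, Complex.exp_ofReal_mul_I_re, Complex.exp_ofReal_mul_I_im]
    linear_combination (a ^ q) ^ 2 * sin_sq_add_cos_sq (τ * log a) +
      (b ^ q) ^ 2 * sin_sq_add_cos_sq (τ * log b)
  generalize a ^ q = A at *
  generalize b ^ q = B at *
  generalize (29 / 100 : ℝ) ^ q = c at *
  have hB0 : 0 < B := hc0.trans_le hc
  have he : c * τ ^ 2 ≤ 1 := by nlinarith [sq_nonneg τ]
  refine (pow_le_pow_iff_left₀ (norm_nonneg _) (by linarith) two_ne_zero).1 ?_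
  rw [hsq]
  have h5 : 2 * A * B * cos (τ * Δ) ≤ 2 * A * B * (1 - 4 / 125 * τ ^ 2) :=
    mul_le_mul_of_nonneg_left hcos (by positivity)
  have h6 : (A + B) * c ≤ 2 * A * B := by nlinarith
  have h7 := mul_le_mul_of_nonneg_right h6 (sq_nonneg τ)
  have h8 : 0 ≤ A * B * τ ^ 2 := by positivity
  nlinarith [sq_nonneg (c * τ ^ 2)]

theorem norm_four_q {q τ y z : ℝ} (hq : 0 ≤ q) (hτ : |τ| ≤ 1 / 2) (h : y ^ 2 + z ^ 2 = 1) :
    ‖chiq q τ (1 + y) + chiq q τ (1 - z) + chiq q τ (1 - y) + chiq q τ (1 + z)‖ ≤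
      (1 + y) ^ q + (1 - z) ^ q + (1 - y) ^ q + (1 + z) ^ q - (29 / 100) ^ q * τ ^ 2 / 100 := by
  have base : ∀ y z : ℝ, 0 ≤ y → y ≤ z → y ^ 2 + z ^ 2 = 1 →
      ‖(chiq q τ (1 + y) + chiq q τ (1 - y)) + (chiq q τ (1 + z) + chiq q τ (1 - z))‖ ≤
        ((1 + y) ^ q + (1 - y) ^ q) + ((1 + z) ^ q + (1 - z) ^ q) -
          (29 / 100) ^ q * τ ^ 2 / 100 := by
    intro y z hy hyz h
    have h1 := norm_pair_q (a := 1 + z) (b := 1 - y) hq hτ (by nlinarith) (by nlinarith)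
      (by nlinarith) (by linarith)
    have e : (chiq q τ (1 + y) + chiq q τ (1 - y)) + (chiq q τ (1 + z) + chiq q τ (1 - z)) =
        (chiq q τ (1 + z) + chiq q τ (1 - y)) + (chiq q τ (1 + y) + chiq q τ (1 - z)) := by ring
    rw [e]
    have h2 := norm_add_le (chiq q τ (1 + y)) (chiq q τ (1 - z))
    rw [norm_chiq _ _ (by linarith), norm_chiq _ _ (by nlinarith)] at h2
    have h3 := norm_add_le (chiq q τ (1 + z) + chiq q τ (1 - y))
      (chiq q τ (1 + y) + chiq q τ (1 - z))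
    linarith
  have sym : ∀ y : ℝ, chiq q τ (1 + y) + chiq q τ (1 - y) =
      chiq q τ (1 + |y|) + chiq q τ (1 - |y|) := by
    intro y
    rcases abs_cases y with h | h
    · rw [h.1]
    · rw [h.1, sub_neg_eq_add, ← sub_eq_add_neg, add_comm]
  have sym' : ∀ y : ℝ, (1 + y) ^ q + (1 - y) ^ q = (1 + |y|) ^ q + (1 - |y|) ^ q := by
    intro y
    rcases abs_cases y with h | h
    · rw [h.1]
    · rw [h.1, sub_neg_eq_add, ← sub_eq_add_neg, add_comm]
  have e : chiq q τ (1 + y) + chiq q τ (1 - z) + chiq q τ (1 - y) + chiq q τ (1 + z) =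
      (chiq q τ (1 + y) + chiq q τ (1 - y)) + (chiq q τ (1 + z) + chiq q τ (1 - z)) := by ring
  have e' : (1 + y) ^ q + (1 - z) ^ q + (1 - y) ^ q + (1 + z) ^ q =
      ((1 + y) ^ q + (1 - y) ^ q) + ((1 + z) ^ q + (1 - z) ^ q) := by ring
  rw [e, e', sym y, sym z, sym' y, sym' z]
  rcases le_total |y| |z| with h1 | h1
  · exact base _ _ (abs_nonneg _) h1 (by rw [sq_abs, sq_abs]; exact h)
  · rw [add_comm, add_comm ((1 + |y|) ^ q + (1 - |y|) ^ q)]
    exact base _ _ (abs_nonneg _) h1 (by rw [sq_abs, sq_abs]; linarith)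

/-- Mellin transform of the step distribution. -/
noncomputable def phiq (m : ℕ) (q τ : ℝ) : ℂ :=
  (1 / (4 * m : ℂ)) * ∑ s ∈ range (4 * m), chiq q τ (xi m s)

/-- The moment of order `q` of the step distribution. -/
noncomputable def mom (m : ℕ) (q : ℝ) : ℝ :=
  (1 / (4 * m : ℝ)) * ∑ s ∈ range (4 * m), xi m s ^ q

theorem one_le_mom {m : ℕ} (hm : 0 < m) {q : ℝ} (hq : 1 ≤ q) : 1 ≤ mom m q := by
  have hm' : (0 : ℝ) < m := by exact_mod_cast hm
  have h1 : ∑ s ∈ range (4 * m), (1 + q * cos (s * al m)) ≤ ∑ s ∈ range (4 * m), xi m s ^ q :=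
    sum_le_sum fun s _ => one_add_mul_self_le_rpow_one_add (neg_one_le_cos _) hq
  have h2 := sum_cos hm 0
  simp only [zero_add] at h2
  rw [sum_add_distrib, ← mul_sum, h2] at h1
  simp only [sum_const, card_range, nsmul_eq_mul] at h1
  push_cast at h1
  rw [mom, one_div, ← div_eq_inv_mul, le_div_iff₀ (by positivity)]
  linarith

theorem mom_le {m : ℕ} (hm : 0 < m) {q : ℝ} (hq : 0 ≤ q) : mom m q ≤ 2 ^ q := by
  have hm' : (0 : ℝ) < m := by exact_mod_cast hm
  have h1 : ∑ s ∈ range (4 * m), xi m s ^ q ≤ ∑ s ∈ range (4 * m), (2 : ℝ) ^ q :=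
    sum_le_sum fun s _ => rpow_le_rpow (xi_nonneg m s)
      (by unfold xi; linarith [cos_le_one (s * al m)]) hq
  simp only [sum_const, card_range, nsmul_eq_mul] at h1
  push_cast at h1
  rw [mom, one_div, ← div_eq_inv_mul, div_le_iff₀ (by positivity)]
  linarith

theorem norm_phiq_le {m : ℕ} (hm : 0 < m) {q τ : ℝ} (hq : 0 ≤ q) (hτ : |τ| ≤ 1 / 2) :
    ‖phiq m q τ‖ ≤ mom m q - (29 / 100) ^ q * τ ^ 2 / 400 := by
  have hm' : (0 : ℝ) < m := by exact_mod_cast hm
  have e := orbit_sum hm (fun x => chiq q τ (1 + cos x)) 0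
  have e' := orbit_sum hm (fun x => (1 + cos x) ^ q) 0
  simp only [zero_add] at e e'
  have e2 : ∑ s ∈ range (4 * m), chiq q τ (xi m s) =
      ∑ s ∈ range (4 * m), chiq q τ (1 + cos (s * al m)) := rfl
  have e3 : ∑ s ∈ range (4 * m), xi m s ^ q =
      ∑ s ∈ range (4 * m), (1 + cos (s * al m)) ^ q := rfl
  rw [phiq, mom, e2, e3, e, e', norm_mul]
  have h1 : ‖(1 / (4 * m : ℂ))‖ = 1 / (4 * m : ℝ) := by simp
  have h2 := norm_sum_le_of_le (range m) (f := fun t : ℕ => chiq q τ (1 + cos (t * al m)) +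
      chiq q τ (1 + cos (t * al m + π / 2)) + chiq q τ (1 + cos (t * al m + π)) +
      chiq q τ (1 + cos (t * al m + π + π / 2)))
      (n := fun t : ℕ => (1 + cos (t * al m)) ^ q + (1 + cos (t * al m + π / 2)) ^ q +
        (1 + cos (t * al m + π)) ^ q + (1 + cos (t * al m + π + π / 2)) ^ q -
        (29 / 100) ^ q * τ ^ 2 / 100) (by
    intro t _
    simp only [cos_add_pi_div_two, cos_add_pi, sin_add_pi, neg_neg, ← sub_eq_add_neg]
    exact norm_four_q hq hτ (cos_sq_add_sin_sq _))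
  rw [h1]
  rw [sum_sub_distrib] at h2
  simp only [sum_const, card_range, nsmul_eq_mul] at h2
  refine (mul_le_mul_of_nonneg_left h2 (by positivity)).trans (le_of_eq ?_)
  generalize ∑ x ∈ range m, ((1 + cos (x * al m)) ^ q + (1 + cos (x * al m + π / 2)) ^ q +
    (1 + cos (x * al m + π)) ^ q + (1 + cos (x * al m + π + π / 2)) ^ q) = W
  field_simp
  ring

theorem iter_le_q {m : ℕ} (hm : 0 < m) {q : ℝ} (hq : 0 < q) {ι : Type} (I : Finset ι) (τ : ι → ℝ)
    (J : ℕ) : ∀ (f : ℝ → ℝ) (c : ι → ℂ),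
      (∀ y, 0 ≤ y → f y ≤ (∑ i ∈ I, c i * chiq q (τ i) y).re) →
      ∀ y, 0 ≤ y → (V m)^[J] f y ≤
        (∑ i ∈ I, c i * (chiq q (τ i) (DD m) * phiq m q (τ i)) ^ J * chiq q (τ i) y).re := by
  induction J with
  | zero => intro f c h y hy; simpa using h y hy
  | succ J ih =>
    intro f c h y hy
    rw [Function.iterate_succ_apply]
    have := ih (V m f) (fun i => c i * (chiq q (τ i) (DD m) * phiq m q (τ i))) ?_ y hy
    · refine this.trans (le_of_eq ?_)
      congr 1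
      refine sum_congr rfl fun i _ => ?_
      ring
    · intro y hy
      have hD := one_le_DD hm
      have h1 : V m f y ≤ (1 / (4 * m : ℝ)) * ∑ s ∈ range (4 * m),
          (∑ i ∈ I, c i * chiq q (τ i) (DD m * y * xi m s)).re :=
        mul_le_mul_of_nonneg_left (sum_le_sum fun s _ => h _ (by
          have := xi_nonneg m s
          positivity)) (by positivity)
      refine h1.trans (le_of_eq ?_)
      rw [← Complex.re_sum, ← Complex.re_ofReal_mul, sum_comm, mul_sum]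
      congr 1
      refine sum_congr rfl fun i _ => ?_
      simp only [phiq, mul_sum, sum_mul]
      refine sum_congr rfl fun s _ => ?_
      rw [chiq_mul hq _ (by positivity) (xi_nonneg m s), chiq_mul hq _ (by linarith) hy]
      push_cast
      ring

theorem majorant_q {R : ℕ} (hR : 0 < R) {q μ y : ℝ} (hq : 1 ≤ q) (hμ : 0 < μ) (hy : 0 ≤ y) :
    max (y - μ) 0 ≤ ∑ p ∈ range R ×ˢ range R,
      (2 / (R : ℝ) ^ 2 + if p.1 = p.2 then (R : ℝ) ^ (1 - q) / R else 0) * μ ^ (1 - q) *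
      (y ^ q * cos (((p.1 : ℝ) - p.2) / (2 * R ^ 2) * (log y - log μ))) := by
  have hR' : (1 : ℝ) ≤ R := by exact_mod_cast hR
  set u := (log y - log μ) / (2 * R ^ 2) with hu
  set F := ∑ p ∈ range R ×ˢ range R, cos (((p.1 : ℝ) - p.2) * u) with hF
  set η := (R : ℝ) ^ (1 - q) with hη
  have hη0 : 0 < η := rpow_pos_of_pos (by linarith) _
  have e : ∑ p ∈ range R ×ˢ range R,
      (2 / (R : ℝ) ^ 2 + if p.1 = p.2 then η / R else 0) * μ ^ (1 - q) *
      (y ^ q * cos (((p.1 : ℝ) - p.2) / (2 * R ^ 2) * (log y - log μ))) =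
      y ^ q * μ ^ (1 - q) * (2 / R ^ 2 * F + η) := by
    have e1 : η = ∑ p ∈ range R ×ˢ range R, (if p.1 = p.2 then η / R else 0) := by
      rw [sum_product]
      simp only [sum_ite_eq]
      rw [sum_congr rfl (fun x hx => if_pos hx)]
      simp only [sum_const, card_range, nsmul_eq_mul]
      field_simp
    conv_rhs => rw [e1]
    rw [hF, mul_sum, ← sum_add_distrib, mul_sum]
    refine sum_congr rfl fun p _ => ?_
    rw [show ((p.1 : ℝ) - p.2) / (2 * R ^ 2) * (log y - log μ) = ((p.1 : ℝ) - p.2) * u by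
      rw [hu]; ring]
    split_ifs with h
    · simp only [h, sub_self, zero_mul, cos_zero]
      ring
    · ring
  have F0 : 0 ≤ F := by
    have : F = (∑ r ∈ range R, cos (r * u)) ^ 2 + (∑ r ∈ range R, sin (r * u)) ^ 2 := by
      rw [hF, sq, sq, sum_mul_sum, sum_mul_sum, sum_product, ← sum_add_distrib]
      refine sum_congr rfl fun r _ => ?_
      rw [← sum_add_distrib]
      refine sum_congr rfl fun r' _ => ?_
      rw [sub_mul, cos_sub]
    rw [this]
    positivity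
  rw [e]
  refine max_le ?_ (by positivity)
  rcases le_total y μ with h | h
  · have : 0 ≤ y ^ q * μ ^ (1 - q) * (2 / R ^ 2 * F + η) := by positivity
    linarith
  have hy0 : 0 < y := hμ.trans_le h
  have hw : y ^ q * μ ^ (1 - q) = y * (y / μ) ^ (q - 1) := by
    rw [div_rpow hy hμ.le, rpow_sub_one hy0.ne', show 1 - q = -(q - 1) by ring, rpow_neg hμ.le]
    field_simp
  rw [hw]
  have hw0 : 0 ≤ (y / μ) ^ (q - 1) := by positivity
  rcases le_total (μ * R) y with h1 | h1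
  · have h2 : (R : ℝ) ^ (q - 1) ≤ (y / μ) ^ (q - 1) :=
      rpow_le_rpow (by linarith) (by rw [le_div_iff₀ hμ]; linarith) (by linarith)
    have h3 : (R : ℝ) ^ (q - 1) * η = 1 := by
      rw [hη, ← rpow_add (by linarith)]
      simp
    have h4 : 1 ≤ (y / μ) ^ (q - 1) * (2 / R ^ 2 * F + η) := by
      have : 0 ≤ (y / μ) ^ (q - 1) * (2 / R ^ 2 * F) := by positivity
      nlinarith [mul_le_mul_of_nonneg_right h2 hη0.le]
    nlinarith [mul_le_mul_of_nonneg_left h4 hy]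
  · have t0 : 0 ≤ log y - log μ := sub_nonneg.2 (log_le_log hμ h)
    have t1 : log y - log μ ≤ R := by
      rw [← log_div hy0.ne' hμ.ne']
      have := log_le_sub_one_of_pos (div_pos hy0 hμ)
      have h2 : y / μ ≤ R := by rw [div_le_iff₀ hμ]; linarith
      linarith
    have u0 : 0 ≤ u := by positivity
    have u1 : R * u ≤ 1 := by
      rw [hu, ← mul_div_assoc, div_le_one (by positivity)]
      nlinarith
    have hF2 : (R : ℝ) ^ 2 / 2 ≤ F := by
      have : ∀ p ∈ range R ×ˢ range R, (1 / 2 : ℝ) ≤ cos (((p.1 : ℝ) - p.2) * u) := by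
        intro p hp
        obtain ⟨h1, h2⟩ := mem_product.1 hp
        have h3 : (p.1 : ℝ) ≤ R := by exact_mod_cast (mem_range.1 h1).le
        have h4 : (p.2 : ℝ) ≤ R := by exact_mod_cast (mem_range.1 h2).le
        have h5 : (0 : ℝ) ≤ p.1 := Nat.cast_nonneg _
        have h6 : (0 : ℝ) ≤ p.2 := Nat.cast_nonneg _
        have h7 : (((p.1 : ℝ) - p.2) * u) ^ 2 ≤ 1 := by
          apply (sq_le_one_iff_abs_le_one _).2
          rw [abs_le]
          constructor <;> nlinarith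
        linarith [one_sub_sq_div_two_le_cos (x := ((p.1 : ℝ) - p.2) * u)]
      have := sum_le_sum this
      simp only [sum_const, card_product, card_range, nsmul_eq_mul] at this
      push_cast at this
      linarith
    have h2 : 1 ≤ 2 / (R : ℝ) ^ 2 * F := by
      rw [div_mul_eq_mul_div, le_div_iff₀ (by positivity)]
      linarith
    have h3 : 1 ≤ (y / μ) ^ (q - 1) :=
      one_le_rpow (by rw [le_div_iff₀ hμ]; linarith) (by linarith)
    have h4 : 1 ≤ (y / μ) ^ (q - 1) * (2 / R ^ 2 * F + η) := by nlinarith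
    nlinarith [mul_le_mul_of_nonneg_left h4 hy]

theorem anticonc_q {m R : ℕ} (hm : 0 < m) (hR : 0 < R) (J : ℕ) {q μ x : ℝ} (hq : 1 ≤ q)
    (hμ : 0 < μ) (hx : 0 ≤ x) : (V m)^[J] (fun y => max (y - μ) 0) x ≤
      x ^ q * μ ^ (1 - q) * (DD m ^ q) ^ J * mom m q ^ J * (2 / R + (R : ℝ) ^ (1 - q) +
        2 * (1 - (29 / 100) ^ q / (1600 * R ^ 4 * 2 ^ q)) ^ J) := by
  have hR' : (1 : ℝ) ≤ R := by exact_mod_cast hR
  have hD := one_le_DD hm
  have hM1 := one_le_mom hm hq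
  have hM2 := mom_le hm (by linarith : 0 ≤ q)
  have hc0 : (0 : ℝ) < (29 / 100) ^ q := rpow_pos_of_pos (by norm_num) q
  have hc1 : (29 / 100 : ℝ) ^ q ≤ 1 := rpow_le_one (by norm_num) (by norm_num) (by linarith)
  have hη0 : 0 < (R : ℝ) ^ (1 - q) := rpow_pos_of_pos (by linarith) _
  set η := (R : ℝ) ^ (1 - q) with hη
  set ρ : ℝ := 1 - (29 / 100) ^ q / (1600 * R ^ 4 * 2 ^ q) with hρ
  have hρ0 : 0 ≤ ρ := by
    have : (29 / 100 : ℝ) ^ q / (1600 * R ^ 4 * 2 ^ q) ≤ 1 := by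
      rw [div_le_one (by positivity)]
      have h1 : (1 : ℝ) ≤ R ^ 4 := one_le_pow₀ hR'
      nlinarith
    linarith
  have h := iter_le_q hm (by linarith : 0 < q) (range R ×ˢ range R)
    (fun p => ((p.1 : ℝ) - p.2) / (2 * R ^ 2)) J (fun y => max (y - μ) 0)
    (fun p => (((2 / (R : ℝ) ^ 2 + if p.1 = p.2 then η / R else 0) * μ ^ (1 - q) : ℝ) : ℂ) *
      Complex.exp (((-(((p.1 : ℝ) - p.2) / (2 * R ^ 2) * log μ) : ℝ) : ℂ) * Complex.I)) ?_ x hx
  · refine h.trans ((Complex.re_le_norm _).trans ?_)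
    refine (norm_sum_le_of_le _ (n := fun p => x ^ q * μ ^ (1 - q) * (DD m ^ q) ^ J *
      mom m q ^ J * ((if p.1 = p.2 then 2 / (R : ℝ) ^ 2 + η / R else 0) + 2 / R ^ 2 * ρ ^ J))
      ?_).trans (le_of_eq ?_)
    · intro p hp
      obtain ⟨h1, h2⟩ := mem_product.1 hp
      have h3 : (p.1 : ℝ) ≤ R := by exact_mod_cast (mem_range.1 h1).le
      have h4 : (p.2 : ℝ) ≤ R := by exact_mod_cast (mem_range.1 h2).le
      have h5 : (0 : ℝ) ≤ p.1 := Nat.cast_nonneg _
      have h6 : (0 : ℝ) ≤ p.2 := Nat.cast_nonneg _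
      have hτ : |((p.1 : ℝ) - p.2) / (2 * R ^ 2)| ≤ 1 / 2 := by
        rw [abs_div, abs_of_pos (by positivity : (0 : ℝ) < 2 * R ^ 2),
          div_le_iff₀ (by positivity), abs_le]
        constructor <;> nlinarith
      have hφ := norm_phiq_le hm (by linarith : 0 ≤ q) hτ
      rw [norm_mul, norm_mul, norm_mul, norm_pow, norm_mul, norm_chiq _ _ hx,
        norm_chiq _ _ (by linarith), Complex.norm_exp_ofReal_mul_I, Complex.norm_real, mul_pow]
      split_ifs with h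
      · have : ‖phiq m q (((p.1 : ℝ) - p.2) / (2 * R ^ 2))‖ ^ J ≤ mom m q ^ J :=
          pow_le_pow_left₀ (norm_nonneg _) (by
            have : 0 ≤ (29 / 100 : ℝ) ^ q * (((p.1 : ℝ) - p.2) / (2 * R ^ 2)) ^ 2 / 400 := by
              positivity
            linarith) J
        rw [Real.norm_of_nonneg (by positivity)]
        calc _ = x ^ q * μ ^ (1 - q) * (DD m ^ q) ^ J *
              ‖phiq m q (((p.1 : ℝ) - p.2) / (2 * R ^ 2))‖ ^ J *
              (2 / (R : ℝ) ^ 2 + η / R + 0) := by ring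
          _ ≤ _ := by gcongr; positivity
      · have h7 : (1 : ℝ) ≤ ((p.1 : ℝ) - p.2) ^ 2 := by
          have : (1 : ℤ) ≤ ((p.1 : ℤ) - p.2) ^ 2 := by
            have : (p.1 : ℤ) - p.2 ≠ 0 := by omega
            exact Int.add_one_le_of_lt (a := 0) (by positivity)
          exact_mod_cast this
        have h8 : 1 / (4 * (R : ℝ) ^ 4) ≤ (((p.1 : ℝ) - p.2) / (2 * R ^ 2)) ^ 2 := by
          rw [div_pow, div_le_div_iff₀ (by positivity) (by positivity)]
          nlinarith [pow_pos (lt_of_lt_of_le one_pos hR') 4]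
        have h9 : mom m q * ((29 / 100) ^ q / (1600 * R ^ 4 * 2 ^ q)) ≤
            (29 / 100) ^ q * (((p.1 : ℝ) - p.2) / (2 * R ^ 2)) ^ 2 / 400 := by
          calc _ ≤ 2 ^ q * ((29 / 100 : ℝ) ^ q / (1600 * R ^ 4 * 2 ^ q)) := by gcongr
            _ = (29 / 100) ^ q * (1 / (4 * (R : ℝ) ^ 4)) / 400 := by field_simp; ring
            _ ≤ _ := by gcongr
        have : ‖phiq m q (((p.1 : ℝ) - p.2) / (2 * R ^ 2))‖ ^ J ≤ mom m q ^ J * ρ ^ J := by
          rw [← mul_pow]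
          exact pow_le_pow_left₀ (norm_nonneg _) (by rw [hρ]; linarith) J
        rw [Real.norm_of_nonneg (by positivity)]
        calc _ = x ^ q * μ ^ (1 - q) * (DD m ^ q) ^ J * (2 / R ^ 2) *
              ‖phiq m q (((p.1 : ℝ) - p.2) / (2 * R ^ 2))‖ ^ J := by ring
          _ ≤ x ^ q * μ ^ (1 - q) * (DD m ^ q) ^ J * (2 / R ^ 2) * (mom m q ^ J * ρ ^ J) := by
              gcongr
          _ = _ := by ring
    · rw [← mul_sum, sum_add_distrib, sum_product]
      simp only [sum_ite_eq]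
      rw [sum_congr rfl (fun x hx => if_pos hx)]
      simp only [sum_const, card_product, card_range, nsmul_eq_mul]
      push_cast
      field_simp
  · intro y hy
    refine (majorant_q hR hq hμ hy).trans (le_of_eq ?_)
    rw [Complex.re_sum]
    refine sum_congr rfl fun p _ => ?_
    rw [mul_assoc (_ : ℂ), Complex.re_ofReal_mul]
    congr 1
    rw [chiq, mul_left_comm, ← Complex.exp_add, ← add_mul, ← Complex.ofReal_add,
      Complex.re_ofReal_mul, Complex.exp_ofReal_mul_I_re]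
    congr 2
    ring

end Pool.Agent.P.MP_f33f0c_an.AllP
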