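import Mathlib
import Pool.Agent.P.MP_f33f0c_an.AllP1

/-! Blocks and gluing for an arbitrary exponent `p > 2`. -/

set_option autoImplicit false

namespace Pool.Agent.P.MP_f33f0c_an.AllP

open Real Finset MeasureTheory

theorem cont_rpow {h : ℝ → ℝ} (hc : Continuous h) {q : ℝ} (hq : 0 ≤ q) :
    Continuous fun x => h x ^ q :=
  hc.rpow_const fun _ => Or.inr hq

theorem sq_rpow {a q : ℝ} (ha : 0 ≤ a) : (a ^ 2) ^ q = a ^ (2 * q) := by
  rw [rpow_mul ha, rpow_two]

theorem rpow_integral_le {h : ℝ → ℝ} (hc : Continuous h) (h0 : ∀ x, 0 ≤ h x) {q : ℝ}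
    (hq : 1 ≤ q) : (∫ x in (0 : ℝ)..1, h x) ^ q ≤ ∫ x in (0 : ℝ)..1, h x ^ q := by
  set c := ∫ x in (0 : ℝ)..1, h x with hcdef
  have hc0 : 0 ≤ c := intervalIntegral.integral_nonneg zero_le_one fun x _ => h0 x
  rcases hc0.eq_or_lt with h1 | h1
  · rw [← h1, zero_rpow (by linarith)]
    exact intervalIntegral.integral_nonneg zero_le_one fun x _ => rpow_nonneg (h0 x) q
  have hcq : 0 < c ^ q := rpow_pos_of_pos h1 q
  have h2 : ∀ x ∈ Set.Icc (0 : ℝ) 1, c ^ q * (1 - q) + c ^ q * q / c * h x ≤ h x ^ q := by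
    intro x _
    have h3 := one_add_mul_self_le_rpow_one_add (s := h x / c - 1)
      (by linarith [div_nonneg (h0 x) hc0]) hq
    rw [add_sub_cancel, div_rpow (h0 x) hc0, le_div_iff₀ hcq] at h3
    refine le_trans (le_of_eq ?_) h3
    field_simp
    ring
  have h3 := intervalIntegral.integral_mono_on (μ := volume) zero_le_one
    (Continuous.intervalIntegrable (by fun_prop) _ _)
    (Continuous.intervalIntegrable (cont_rpow hc (by linarith)) _ _) h2
  rw [intervalIntegral.integral_add (Continuous.intervalIntegrable (by fun_prop) _ _)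
    (Continuous.intervalIntegrable (by fun_prop) _ _),
    intervalIntegral.integral_const_mul (c ^ q * q / c), ← hcdef] at h3
  simp only [intervalIntegral.integral_const, sub_zero, smul_eq_mul, one_mul] at h3
  refine le_trans (le_of_eq ?_) h3
  field_simp
  ring

theorem shift_lower {q η : ℝ} (hq : 1 ≤ q) (hη : 0 < η) : ∃ δ : ℝ, 0 < δ ∧ ∀ m : ℕ, 0 < m →
    al m < δ → ∀ θ : ℝ, (1 - η) * mom m q ≤
      (1 / (4 * m : ℝ)) * ∑ s ∈ range (4 * m), (1 + cos (θ + s * al m)) ^ q := by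
  have hu : UniformContinuousOn (fun y : ℝ => y ^ q) (Set.Icc 0 2) :=
    isCompact_Icc.uniformContinuousOn_of_continuous
      (cont_rpow continuous_id (by linarith)).continuousOn
  obtain ⟨δ, hδ, h⟩ := Metric.uniformContinuousOn_iff.1 hu η hη
  refine ⟨δ, hδ, fun m hm hal θ => ?_⟩
  have hm' : (0 : ℝ) < m := by exact_mod_cast hm
  have ha := al_pos hm
  set t := ⌊θ / al m⌋ with ht
  have hr0 : 0 ≤ θ - t * al m := by
    have := Int.floor_le (θ / al m)
    rw [le_div_iff₀ ha] at this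
    linarith
  have hr1 : θ - t * al m ≤ al m := by
    have := Int.lt_floor_add_one (θ / al m)
    rw [div_lt_iff₀ ha] at this
    linarith
  have mem : ∀ z : ℝ, 1 + cos z ∈ Set.Icc (0 : ℝ) 2 := fun z =>
    ⟨by linarith [neg_one_le_cos z], by linarith [cos_le_one z]⟩
  have key : ∀ s ∈ range (4 * m), (1 + cos ((t + s) * al m)) ^ q - η ≤
      (1 + cos (θ + s * al m)) ^ q := by
    intro s _
    have h1 := h _ (mem ((t + s) * al m)) _ (mem (θ + s * al m)) (by
      rw [Real.dist_eq, add_sub_add_left_eq_sub]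
      refine (abs_cos_sub_cos_le _ _).trans_lt ?_
      rw [show (t + s) * al m - (θ + s * al m) = -(θ - t * al m) by ring, abs_neg,
        abs_of_nonneg hr0]
      linarith)
    rw [Real.dist_eq] at h1
    linarith [(abs_lt.1 h1).2]
  have h2 := sum_le_sum key
  rw [sum_sub_distrib, sum_shift hm (fun c => (1 + c) ^ q) t] at h2
  simp only [sum_const, card_range, nsmul_eq_mul] at h2
  push_cast at h2
  have h3 := one_le_mom hm hq
  have e : mom m q = (1 / (4 * m : ℝ)) * ∑ s ∈ range (4 * m), (1 + cos (s * al m)) ^ q := rfl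
  have h4 := mul_le_mul_of_nonneg_left h2 (by positivity : (0 : ℝ) ≤ 1 / (4 * m : ℝ))
  rw [mul_sub, ← e, show 1 / (4 * m : ℝ) * (4 * m * η) = η by field_simp] at h4
  nlinarith

theorem strong_lower_q {m : ℕ} (hm : 0 < m) {q A : ℝ} (hq : 0 < q) (hA : 0 ≤ A)
    (h : ∀ θ : ℝ, A ≤ (1 / (4 * m : ℝ)) * ∑ s ∈ range (4 * m), (1 + cos (θ + s * al m)) ^ q)
    (J : ℕ) : ∀ n : ℤ, n ≠ 0 → (2 ^ q * A) ^ J ≤
      ∫ x in (0 : ℝ)..1, (‖poly (cube (4 * m) J n) (fun _ => 1) x‖ ^ 2) ^ q := by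
  have hM : 2 ≤ 4 * m := by omega
  induction J with
  | zero =>
    intro n _
    simp [cube, poly, norm_ee]
  | succ J ih =>
    intro n hn
    have hn' : n * ((4 * m : ℕ) : ℤ) ≠ 0 := mul_ne_zero hn (by exact_mod_cast (by omega))
    have hc : ∀ (S : Finset ℤ) (a : ℤ → ℂ), Continuous fun x => (‖poly S a x‖ ^ 2) ^ q :=
      fun S a => cont_rpow (by fun_prop) hq.le
    rw [pow_succ', integral_avg (N := 4 * m) (by omega) (hc _ _)
      (fun x => by simp [poly_periodic]) (fun s => s / ((n * ((4 * m : ℕ) : ℤ) : ℤ) : ℝ))]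
    refine (mul_le_mul_of_nonneg_left (ih _ hn') (by positivity)).trans ?_
    rw [← intervalIntegral.integral_const_mul]
    refine intervalIntegral.integral_mono_on zero_le_one
      (Continuous.intervalIntegrable (continuous_const.mul (hc _ _)) _ _)
      (Continuous.intervalIntegrable (continuous_const.mul (continuous_finsetSum _ fun s _ =>
        (hc _ _).comp (by fun_prop))) _ _) fun x _ => ?_
    set u := poly (cube (4 * m) J (n * ((4 * m : ℕ) : ℤ))) (fun _ => 1) x with hu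
    have e : ∀ s ∈ range (4 * m), (‖poly (cube (4 * m) (J + 1) n) (fun _ => 1)
        (x + s / ((n * ((4 * m : ℕ) : ℤ) : ℤ) : ℝ))‖ ^ 2) ^ q =
        2 ^ q * (‖u‖ ^ 2) ^ q * (1 + cos (Complex.arg (ee n x) + s * al m)) ^ q := by
      intro s _
      rw [poly_cube_succ hM hn, poly_shift hn', ee_shift hm hn, ← hu]
      have hz : ‖ee n x * Complex.exp (((s * al m : ℝ) : ℂ) * Complex.I)‖ = 1 := by
        rw [norm_mul, norm_ee, Complex.norm_exp_ofReal_mul_I, one_mul]
      have h1 := norm_add_mul_sq 1 1 _ hz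
      have h2 := re_mul_exp (ee n x) (s * al m)
      rw [norm_ee, one_mul] at h2
      simp only [map_one, mul_one, one_mul, norm_one, one_pow] at h1
      rw [show (2 : ℂ) = ((2 : ℝ) : ℂ) by simp, Complex.re_ofReal_mul, h2] at h1
      have h3 : 0 ≤ 1 + cos (Complex.arg (ee n x) + s * al m) := by
        linarith [neg_one_le_cos (Complex.arg (ee n x) + s * al m)]
      rw [← mul_one_add, norm_mul, mul_pow, h1, ← mul_rpow (by positivity) (by positivity),
        ← mul_rpow (by positivity) h3]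
      congr 1
      ring
    rw [sum_congr rfl e, ← mul_sum]
    have h4 := mul_le_mul_of_nonneg_left (h (Complex.arg (ee n x)))
      (by positivity : 0 ≤ 2 ^ q * (‖u‖ ^ 2) ^ q)
    push_cast
    linarith

theorem exists_m_q (J : ℕ) (q : ℝ) {δ : ℝ} (hδ : 0 < δ) :
    ∃ m : ℕ, 0 < m ∧ al m < δ ∧ (DD m ^ q) ^ J ≤ 2 := by
  have h1 : Filter.Tendsto (fun m : ℕ => al m) Filter.atTop (nhds 0) := by
    have := tendsto_const_div_atTop_nhds_zero_nat (π / 2)
    refine this.congr fun m => ?_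
    unfold al
    ring
  have h2 : ContinuousAt (fun y : ℝ => ((1 / cos (y / 2)) ^ q) ^ J) 0 := by
    refine ContinuousAt.pow (ContinuousAt.rpow_const (ContinuousAt.div continuousAt_const
      (by fun_prop) (by simp)) (Or.inl (by simp))) _
  have h3 := h2.tendsto.comp h1
  simp only [zero_div, cos_zero, div_one, one_rpow, one_pow] at h3
  obtain ⟨m, hm⟩ := (((h3.eventually (ge_mem_nhds one_lt_two)).and
    (Filter.eventually_gt_atTop 0)).and (h1.eventually (gt_mem_nhds hδ))).exists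
  exact ⟨m, hm.1.2, hm.2, hm.1.1⟩

theorem exists_RJ_q {q δ : ℝ} (hq : 1 < q) (hδ : 0 < δ) : ∃ R J : ℕ, 0 < R ∧
    2 / R + (R : ℝ) ^ (1 - q) +
      2 * (1 - (29 / 100 : ℝ) ^ q / (1600 * R ^ 4 * 2 ^ q)) ^ J ≤ δ := by
  have h1 : Filter.Tendsto (fun R : ℕ => (R : ℝ) ^ (-(q - 1))) Filter.atTop (nhds 0) :=
    (tendsto_rpow_neg_atTop (by linarith)).comp tendsto_natCast_atTop_atTop
  have h2 := tendsto_const_div_atTop_nhds_zero_nat (2 : ℝ)
  obtain ⟨R, ⟨a1, a2⟩, a3⟩ := (((h1.eventually (gt_mem_nhds (by positivity : 0 < δ / 4))).and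
    (h2.eventually (gt_mem_nhds (by positivity : 0 < δ / 4)))).and
    (Filter.eventually_gt_atTop 0)).exists
  have hR0 : (0 : ℝ) < R := by exact_mod_cast a3
  have hρ : (1 : ℝ) - (29 / 100 : ℝ) ^ q / (1600 * R ^ 4 * 2 ^ q) < 1 := by
    have : (0 : ℝ) < (29 / 100 : ℝ) ^ q / (1600 * R ^ 4 * 2 ^ q) := by positivity
    linarith
  obtain ⟨J, hJ⟩ := exists_pow_lt_of_lt_one (by positivity : 0 < δ / 4) hρ
  refine ⟨R, J, a3, ?_⟩
  rw [neg_sub] at a1
  linarith

theorem block_q {q ε K : ℝ} (hq : 1 < q) (hε : 0 < ε) (hK : 0 < K) {n : ℤ} (hn : n ≠ 0) (o : ℤ) :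
    ∃ (T : Finset ℤ) (μ : ℤ → ℂ), (∀ k ∈ T, n ∣ k - o) ∧ (∀ k, k ∉ T → μ k = 0) ∧
    (∀ (S : Finset ℤ) (c : ℤ → ℂ) (t : ℝ), 0 < t →
      volume {x : ℝ | x ∈ Set.Icc (0 : ℝ) 1 ∧ t < ‖poly S (fun k => μ k * c k) x‖} ≤
        ENNReal.ofReal (ε * (∑ k ∈ S, ‖c k‖ ^ 2) ^ q / (t ^ 2) ^ q)) ∧
    ∃ c : ℤ → ℂ, (∀ x, ‖poly T c x‖ ≤ 1) ∧
      K ≤ ∫ x in (0 : ℝ)..1, (‖poly T (fun k => μ k * c k) x‖ ^ 2) ^ q := by
  have h2q : (0 : ℝ) < 2 ^ q := by positivity
  obtain ⟨R, J, hR, hRJ⟩ := exists_RJ_q (δ := ε / (4 * K * 2 ^ q * 2 ^ q)) hq (by positivity)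
  obtain ⟨δ, hδ, hsh⟩ := shift_lower (η := 1 / (2 * (J + 1))) hq.le (by positivity)
  obtain ⟨m, hm, hal, hD⟩ := exists_m_q J q hδ
  obtain ⟨σ, τ, hσ, -, hRS⟩ := rudin_shapiro (M := 4 * m) (by omega) J n hn
  have hM := one_le_mom hm hq.le
  set Q := cube (4 * m) J n with hQ
  set κ : ℝ := √((2 * K * 2 ^ q / mom m q ^ J) ^ q⁻¹) with hκ
  have hκ0 : 0 ≤ κ := sqrt_nonneg _
  have hκq : (κ ^ 2) ^ q = 2 * K * 2 ^ q / mom m q ^ J := by
    rw [hκ, sq_sqrt (by positivity), rpow_inv_rpow (by positivity) (by linarith)]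
  set ν : ℝ := (√(2 * 2 ^ J))⁻¹ with hν
  have hν0 : 0 ≤ ν := by positivity
  have hν2 : ν ^ 2 = (2 * 2 ^ J)⁻¹ := by rw [hν, inv_pow, sq_sqrt (by positivity)]
  have hσn : ∀ k, ‖σ k‖ = 1 := fun k => by rcases hσ k with h | h <;> simp [h]
  have hσ2 : ∀ k, σ k * σ k = 1 := fun k => by rcases hσ k with h | h <;> simp [h]
  set T := Q.image (· + o) with hT
  refine ⟨T, fun k => if k ∈ T then κ * σ (k - o) else 0, ?_, fun k hk => if_neg hk, ?_,
    fun k => ν * σ (k - o), ?_, ?_⟩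
  · intro k hk
    obtain ⟨l, hl, rfl⟩ := mem_image.1 hk
    rw [add_sub_cancel_right]
    exact dvd_of_mem_cube hl
  · intro S c t ht
    set b : ℤ → ℂ := fun k => if k ∈ S then κ * σ (k - o) * c k else 0 with hb
    have e1 : ∀ x, poly S (fun k => (if k ∈ T then κ * σ (k - o) else 0) * c k) x =
        poly T b x := by
      intro x
      simp only [poly, hb, ite_mul, zero_mul, sum_ite_mem, inter_comm]
    have e2 : ∑ k ∈ Q, ‖b (k + o)‖ ^ 2 ≤ κ ^ 2 * ∑ k ∈ S, ‖c k‖ ^ 2 := by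
      rw [← sum_image (g := (· + o)) (f := fun k => ‖b k‖ ^ 2)
        (fun a _ b _ h => add_right_cancel h), ← hT, mul_sum]
      calc ∑ k ∈ T, ‖b k‖ ^ 2 = ∑ k ∈ T, if k ∈ S then κ ^ 2 * ‖c k‖ ^ 2 else 0 := by
            refine sum_congr rfl fun k _ => ?_
            simp only [hb]
            split_ifs
            · rw [norm_mul, norm_mul, hσn, Complex.norm_real, Real.norm_of_nonneg hκ0]
              ring
            · simp
        _ ≤ _ := by
            rw [sum_ite_mem]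
            exact sum_le_sum_of_subset_of_nonneg inter_subset_right fun _ _ _ => by positivity
    have hf1 : ConvexOn ℝ Set.univ (fun y : ℝ => max (y - t ^ 2 / 2) 0) :=
      ((convexOn_id convex_univ).sub (concaveOn_const _ convex_univ)).sup
        (convexOn_const 0 convex_univ)
    have hf2 : Monotone (fun y : ℝ => max (y - t ^ 2 / 2) 0) := fun y z h => by
      dsimp only
      gcongr
    have d := dominate hm J Unit (fun _ k => b (k + o)) n _ hn hf1 hf2 (by fun_prop)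
    simp only [univ_unique, sum_singleton, ← hQ] at d
    have a := anticonc_q hm hR J hq.le (μ := t ^ 2 / 2) (x := ∑ k ∈ Q, ‖b (k + o)‖ ^ 2)
      (by positivity) (by positivity)
    refine (markov (h := fun x => max (‖poly Q (fun k => b (k + o)) x‖ ^ 2 - t ^ 2 / 2) 0)
      (by fun_prop) (fun x => le_max_right _ _) (ε := t ^ 2 / 2) (by positivity) _ ?_).trans
      (ENNReal.ofReal_le_ofReal ?_)
    · intro x hx
      rw [e1, hT, poly_image] at hx
      refine le_max_of_le_left ?_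
      nlinarith
    · rw [div_le_iff₀ (by positivity)]
      refine (d.trans a).trans ?_
      set X := ∑ k ∈ S, ‖c k‖ ^ 2 with hX
      have hX0 : 0 ≤ X := by positivity
      have hD1 := one_le_DD hm
      have hρ0 : 0 ≤ 1 - (29 / 100 : ℝ) ^ q / (1600 * R ^ 4 * 2 ^ q) := by
        have hR' : (1 : ℝ) ≤ R := by exact_mod_cast hR
        have h1 : (1 : ℝ) ≤ R ^ 4 := one_le_pow₀ hR'
        have h2 : (29 / 100 : ℝ) ^ q ≤ 2 ^ q := rpow_le_rpow (by norm_num) (by norm_num)
          (by linarith)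
        rw [sub_nonneg, div_le_one (by positivity)]
        nlinarith
      have e3 : (t ^ 2 / 2) ^ (1 - q) = t ^ 2 / 2 * (2 ^ q / (t ^ 2) ^ q) := by
        rw [rpow_sub (by positivity), rpow_one, div_rpow (by positivity) (by norm_num)]
        field_simp
      calc _ ≤ (κ ^ 2 * X) ^ q * (t ^ 2 / 2) ^ (1 - q) * 2 * mom m q ^ J *
            (ε / (4 * K * 2 ^ q * 2 ^ q)) := by gcongr
        _ = _ := by
            rw [mul_rpow (by positivity) hX0, hκq, e3]
            field_simp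
            ring
  · intro x
    have e : poly T (fun k => ν * σ (k - o)) x = ν * poly T (fun k => σ (k - o)) x := by
      simp only [poly, mul_sum, mul_assoc]
    rw [e, norm_mul, hT, poly_image, Complex.norm_real, Real.norm_of_nonneg hν0]
    simp only [add_sub_cancel_right]
    have h1 : ‖poly Q σ x‖ ^ 2 ≤ 2 * 2 ^ J := by
      linarith [hRS x, sq_nonneg ‖poly Q τ x‖]
    refine (pow_le_one_iff_of_nonneg (by positivity) two_ne_zero).1 ?_
    rw [mul_pow, hν2, ← div_eq_inv_mul, div_le_one (by positivity)]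
    exact h1
  · have : ∀ x, (‖poly T (fun k => (if k ∈ T then κ * σ (k - o) else 0) * (ν * σ (k - o))) x‖
        ^ 2) ^ q = (κ ^ 2) ^ q * (ν ^ 2) ^ q * (‖poly Q (fun _ => 1) x‖ ^ 2) ^ q := by
      intro x
      have e : poly T (fun k => (if k ∈ T then κ * σ (k - o) else 0) * (ν * σ (k - o))) x =
          κ * ν * poly T (fun _ => 1) x := by
        rw [poly, poly, mul_sum]
        refine sum_congr rfl fun k hk => ?_
        rw [if_pos hk]
        linear_combination (κ * ν * ee k x) * hσ2 (k - o)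
      rw [e, norm_mul, norm_mul, hT, poly_image, mul_pow, mul_pow, Complex.norm_real,
        Complex.norm_real, Real.norm_of_nonneg hκ0, Real.norm_of_nonneg hν0,
        mul_rpow (by positivity) (by positivity), mul_rpow (by positivity) (by positivity)]
    simp only [this]
    rw [intervalIntegral.integral_const_mul]
    have hη : (0 : ℝ) ≤ 1 - 1 / (2 * (J + 1)) := by
      rw [sub_nonneg, div_le_one (by positivity)]
      linarith [Nat.cast_nonneg (α := ℝ) J]
    have h1 := strong_lower_q hm (by linarith : 0 < q) (by positivity) (hsh m hm hal) J n hn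
    have h2 : (1 / 2 : ℝ) ≤ (1 - 1 / (2 * (J + 1))) ^ J := by
      have := one_add_mul_le_pow (a := -(1 / (2 * ((J : ℝ) + 1)))) (by linarith) J
      rw [← sub_eq_add_neg] at this
      refine le_trans ?_ this
      have h3 : (J : ℝ) * (1 / (2 * (J + 1))) ≤ 1 / 2 := by
        rw [mul_one_div, div_le_div_iff₀ (by positivity) (by norm_num)]
        linarith
      linarith
    have e4 : (ν ^ 2) ^ q = (2 ^ q * (2 ^ q) ^ J)⁻¹ := by
      rw [hν2, inv_rpow (by positivity), mul_rpow (by norm_num) (by positivity),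
        ← rpow_pow_comm (by norm_num)]
    refine le_trans ?_ (mul_le_mul_of_nonneg_left h1 (by positivity))
    rw [hκq, e4, mul_pow, mul_pow]
    calc K = 2 * K * 2 ^ q / mom m q ^ J * (2 ^ q * (2 ^ q) ^ J)⁻¹ *
          ((2 ^ q) ^ J * (1 / 2 * mom m q ^ J)) := by field_simp
      _ ≤ _ := by gcongr

theorem main_q {q : ℝ} (hq : 1 < q) : ∃ m : ℤ → ℂ,
    (∀ (S : Finset ℤ) (c : ℤ → ℂ) (t : ℝ), 0 < t →
      volume {x : ℝ | x ∈ Set.Icc (0 : ℝ) 1 ∧ t < ‖poly S (fun k => m k * c k) x‖} ≤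
        ENNReal.ofReal ((∫ x in (0 : ℝ)..1, ‖poly S c x‖ ^ 2) ^ q / (t ^ 2) ^ q)) ∧
    ∀ C : ℝ, ∃ (S : Finset ℤ) (c : ℤ → ℂ), (∀ x, ‖poly S c x‖ ≤ 1) ∧
      C < ∫ x in (0 : ℝ)..1, (‖poly S (fun k => m k * c k) x‖ ^ 2) ^ q := by
  have hb := fun i : ℕ => block_q (ε := 1 / 2 / 2 ^ i * ((1 / 2 / 2 ^ i) ^ 2) ^ q) (K := i + 1)
    hq (by positivity) (by positivity) (n := 2 ^ (i + 1)) (by positivity) (2 ^ i)
  choose T μ h1 h2 h3 h4 using hb
  have lt : ∀ i j k, i < j → k ∈ T i → k ∉ T j := by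
    intro i j k hij hi hj
    have a1 : (2 : ℤ) ^ (i + 1) ∣ k - 2 ^ j := (pow_dvd_pow 2 (by omega)).trans (h1 j k hj)
    have a2 : (2 : ℤ) ^ (i + 1) ∣ 2 ^ j := pow_dvd_pow 2 hij
    have a3 : (2 : ℤ) ^ (i + 1) ∣ 2 ^ i := by
      have := dvd_sub (dvd_add a1 a2) (h1 i k hi)
      rwa [show k - 2 ^ j + 2 ^ j - (k - 2 ^ i) = (2 : ℤ) ^ i by ring] at this
    have := Int.le_of_dvd (by positivity) a3
    have h : (0 : ℤ) < 2 ^ i := by positivity
    rw [pow_succ] at this
    linarith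
  have uniq : ∀ i j k, k ∈ T i → k ∈ T j → i = j := by
    intro i j k hi hj
    rcases lt_trichotomy i j with h | h | h
    · exact absurd hj (lt i j k h hi)
    · exact h
    · exact absurd hi (lt j i k h hj)
  obtain ⟨idx, hidx⟩ : ∃ idx : ℤ → ℕ, ∀ k i, k ∈ T i → idx k = i := by
    classical
    refine ⟨fun k => if h : ∃ i, k ∈ T i then h.choose else 0, fun k i hk => ?_⟩
    have h : ∃ i, k ∈ T i := ⟨i, hk⟩
    simp only [dif_pos h]
    exact uniq _ _ k h.choose_spec hk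
  refine ⟨fun k => μ (idx k) k, fun S c t ht => ?_, fun C => ?_⟩
  · set I := S.image idx with hI
    have e : ∀ x, poly S (fun k => μ (idx k) k * c k) x =
        ∑ i ∈ I, poly S (fun k => μ i k * c k) x := by
      intro x
      simp only [poly]
      rw [sum_comm]
      refine sum_congr rfl fun k hk => ?_
      rw [sum_eq_single (idx k)]
      · intro i _ hi
        rw [h2 i k (fun h => hi (hidx k i h).symm), zero_mul, zero_mul]
      · intro h
        exact absurd (mem_image_of_mem idx hk) h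
    have geo : ∀ a : ℝ, 0 ≤ a → ∑ i ∈ I, a / 2 / 2 ^ i ≤ a := fun a ha =>
      sum_le_hasSum I (fun _ _ => by positivity) (hasSum_geometric_two' a)
    have sub : {x : ℝ | x ∈ Set.Icc (0 : ℝ) 1 ∧ t < ‖poly S (fun k => μ (idx k) k * c k) x‖} ⊆
        ⋃ i ∈ I, {x : ℝ | x ∈ Set.Icc (0 : ℝ) 1 ∧
          t / 2 / 2 ^ i < ‖poly S (fun k => μ i k * c k) x‖} := by
      intro x hx
      by_contra hne
      simp only [Set.mem_iUnion, Set.mem_ofPred_eq, not_exists, not_and, not_lt] at hne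
      have := (norm_sum_le_of_le I fun i hi => hne i hi hx.1).trans (geo t ht.le)
      rw [← e] at this
      exact absurd hx.2 (not_lt.2 this)
    rw [parseval]
    set X := ∑ k ∈ S, ‖c k‖ ^ 2 with hX
    refine (measure_mono sub).trans ((measure_biUnion_finset_le _ _).trans ?_)
    refine (sum_le_sum fun i _ => h3 i S c _ (by positivity)).trans ?_
    rw [← ENNReal.ofReal_sum_of_nonneg (fun _ _ => by positivity)]
    apply ENNReal.ofReal_le_ofReal
    have e2 : ∀ i ∈ I, 1 / 2 / 2 ^ i * ((1 / 2 / 2 ^ i) ^ 2) ^ q * X ^ q /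
        ((t / 2 / 2 ^ i) ^ 2) ^ q = X ^ q / (t ^ 2) ^ q / 2 / 2 ^ i := by
      intro i _
      rw [show (t / 2 / 2 ^ i) ^ 2 = t ^ 2 * (1 / 2 / 2 ^ i) ^ 2 by ring,
        mul_rpow (by positivity) (by positivity)]
      have : (0 : ℝ) < ((1 / 2 / 2 ^ i) ^ 2) ^ q := by positivity
      generalize ((1 / 2 / 2 ^ i : ℝ) ^ 2) ^ q = w at *
      field_simp
    rw [sum_congr rfl e2]
    exact geo _ (by positivity)
  · obtain ⟨i, hi⟩ := exists_nat_ge C
    obtain ⟨c, b1, b2⟩ := h4 i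
    refine ⟨T i, c, b1, ?_⟩
    have e : ∀ x, poly (T i) (fun k => μ (idx k) k * c k) x =
        poly (T i) (fun k => μ i k * c k) x :=
      fun x => sum_congr rfl fun k hk => by simp only [hidx k i hk]
    simp only [e]
    linarith

end Pool.Agent.P.MP_f33f0c_an.AllP
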