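import Mathlib

/-! One-step convex domination and anti-concentration for the averaging operator `V`. -/

set_option autoImplicit false

namespace Pool.Agent.P.MP_f33f0c_an

open Real Finset

/-- The angle `2π / (4m)`. -/
noncomputable def al (m : ℕ) : ℝ := π / (2 * m)

/-- The multiplicative steps. -/
noncomputable def xi (m s : ℕ) : ℝ := 1 + cos (s * al m)

/-- The polygon constant. -/
noncomputable def DD (m : ℕ) : ℝ := 1 / cos (al m / 2)

/-- The averaging operator. -/
noncomputable def V (m : ℕ) (f : ℝ → ℝ) (x : ℝ) : ℝ :=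
  (1 / (4 * m : ℝ)) * ∑ s ∈ range (4 * m), f (DD m * x * xi m s)

theorem al_pos {m : ℕ} (hm : 0 < m) : 0 < al m := by
  unfold al
  have : (0 : ℝ) < m := by exact_mod_cast hm
  positivity

theorem al_le {m : ℕ} (hm : 0 < m) : al m ≤ π / 2 := by
  unfold al
  have : (1 : ℝ) ≤ m := by exact_mod_cast hm
  apply div_le_div_of_nonneg_left pi_pos.le (by norm_num)
  linarith

theorem mul_al {m : ℕ} (hm : 0 < m) : (m : ℝ) * al m = π / 2 := by
  unfold al
  have : (m : ℝ) ≠ 0 := by exact_mod_cast hm.ne'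
  field_simp

theorem cos_half_pos {m : ℕ} (hm : 0 < m) : 0 < cos (al m / 2) := by
  have h1 := al_pos hm
  have h2 := al_le hm
  exact cos_pos_of_mem_Ioo ⟨by linarith [pi_pos], by linarith [pi_pos]⟩

theorem one_le_DD {m : ℕ} (hm : 0 < m) : 1 ≤ DD m := by
  unfold DD
  rw [le_div_iff₀ (cos_half_pos hm), one_mul]
  exact cos_le_one _

theorem xi_nonneg (m s : ℕ) : 0 ≤ xi m s := by
  unfold xi
  linarith [neg_one_le_cos (s * al m)]

theorem orbit_sum {E : Type} [AddCommMonoid E] {m : ℕ} (hm : 0 < m) (F : ℝ → E) (θ : ℝ) :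
    ∑ s ∈ range (4 * m), F (θ + s * al m) = ∑ t ∈ range m,
      (F (θ + t * al m) + F (θ + t * al m + π / 2) + F (θ + t * al m + π) +
        F (θ + t * al m + π + π / 2)) := by
  have h := mul_al hm
  rw [show 4 * m = m + m + m + m by ring, sum_range_add, sum_range_add, sum_range_add]
  simp only [sum_add_distrib]
  congr 1
  · congr 1
    · congr 1
      refine sum_congr rfl fun t _ => ?_
      congr 1
      push_cast
      linarith
    · refine sum_congr rfl fun t _ => ?_
      congr 1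
      push_cast
      linarith
  · refine sum_congr rfl fun t _ => ?_
    congr 1
    push_cast
    linarith

theorem sum_cos {m : ℕ} (hm : 0 < m) (θ : ℝ) :
    ∑ s ∈ range (4 * m), cos (θ + s * al m) = 0 := by
  rw [orbit_sum hm cos θ]
  refine sum_eq_zero fun t _ => ?_
  simp only [cos_add_pi_div_two, cos_add_pi, sin_add_pi]
  ring

theorem sum_sq {m : ℕ} (hm : 0 < m) (θ : ℝ) :
    ∑ s ∈ range (4 * m), (1 + cos (θ + s * al m)) ^ 2 = 6 * (m : ℝ) := by
  rw [orbit_sum hm (fun x => (1 + cos x) ^ 2) θ]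
  have : ∀ t ∈ range m, ((1 + cos (θ + t * al m)) ^ 2 + (1 + cos (θ + t * al m + π / 2)) ^ 2 +
      (1 + cos (θ + t * al m + π)) ^ 2 + (1 + cos (θ + t * al m + π + π / 2)) ^ 2) = 6 := by
    intro t _
    simp only [cos_add_pi_div_two, cos_add_pi, sin_add_pi]
    nlinarith [sin_sq_add_cos_sq (θ + t * al m)]
  rw [sum_congr rfl this]
  simp [mul_comm]

theorem sum_shift {m : ℕ} (hm : 0 < m) (h : ℝ → ℝ) (t : ℤ) :
    ∑ s ∈ range (4 * m), h (cos ((t + s) * al m)) = ∑ s ∈ range (4 * m), h (cos (s * al m)) := by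
  have one : ∀ u : ℝ, ∑ s ∈ range (4 * m), h (cos ((u + 1 + s) * al m)) =
      ∑ s ∈ range (4 * m), h (cos ((u + s) * al m)) := by
    intro u
    have e1 := sum_range_succ (fun s : ℕ => h (cos ((u + s) * al m))) (4 * m)
    have e2 := sum_range_succ' (fun s : ℕ => h (cos ((u + s) * al m))) (4 * m)
    have e3 : cos ((u + ((4 * m : ℕ) : ℝ)) * al m) = cos ((u + ((0 : ℕ) : ℝ)) * al m) := by
      have := mul_al hm
      rw [← cos_add_two_pi ((u + ((0 : ℕ) : ℝ)) * al m)]
      congr 1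
      push_cast
      linarith
    rw [e1, e3] at e2
    rw [add_right_cancel e2]
    refine sum_congr rfl fun s _ => ?_
    congr 2
    push_cast
    ring
  induction t using Int.induction_on with
  | zero => simp
  | succ n ih =>
    rw [← ih]
    have := one (n : ℝ)
    push_cast at this ⊢
    exact this
  | pred n ih =>
    rw [← ih]
    have := one (-(n : ℝ) - 1)
    push_cast at this ⊢
    rw [← this]
    refine sum_congr rfl fun s _ => ?_
    congr 2
    ring

theorem polygon {m : ℕ} (hm : 0 < m) (θ : ℝ) : ∃ (t : ℤ) (w₁ w₂ : ℝ), 0 ≤ w₁ ∧ 0 ≤ w₂ ∧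
    w₁ + w₂ ≤ DD m ∧ ∀ s : ℝ, cos (θ + s * al m) =
      w₁ * cos ((t + s) * al m) + w₂ * cos (((t + 1 : ℤ) + s) * al m) := by
  have ha := al_pos hm
  have ha2 := al_le hm
  set a := al m with hadef
  set t := ⌊θ / a⌋ with ht
  set r := θ - t * a with hr
  have hr0 : 0 ≤ r := by
    have := Int.floor_le (θ / a)
    rw [le_div_iff₀ ha] at this
    linarith
  have hr1 : r ≤ a := by
    have := Int.lt_floor_add_one (θ / a)
    rw [div_lt_iff₀ ha] at this
    linarith
  have hs : 0 < sin a := sin_pos_of_pos_of_lt_pi ha (by linarith [pi_pos])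
  refine ⟨t, sin (a - r) / sin a, sin r / sin a,
    div_nonneg (sin_nonneg_of_nonneg_of_le_pi (by linarith) (by linarith [pi_pos])) hs.le,
    div_nonneg (sin_nonneg_of_nonneg_of_le_pi hr0 (by linarith [pi_pos])) hs.le, ?_, ?_⟩
  · have hc := cos_half_pos hm
    rw [← hadef] at hc
    have hs2 : 0 < sin (a / 2) := sin_pos_of_pos_of_lt_pi (by linarith) (by linarith [pi_pos])
    have e1 : sin a = 2 * sin (a / 2) * cos (a / 2) := by rw [← sin_two_mul]; congr 1; ring
    have e2 : sin (a - r) + sin r = 2 * sin (a / 2) * cos (a / 2 - r) := by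
      have h1 := sin_add (a / 2) (a / 2 - r)
      have h2 := sin_sub (a / 2) (a / 2 - r)
      rw [show a / 2 + (a / 2 - r) = a - r by ring] at h1
      rw [show a / 2 - (a / 2 - r) = r by ring] at h2
      linarith
    rw [← add_div, e2, e1, DD, ← hadef, div_le_div_iff₀ (by positivity) hc]
    have := cos_le_one (a / 2 - r)
    nlinarith [mul_pos hs2 hc]
  · intro s
    have e1 : θ + s * a = (t + s) * a + r := by rw [hr]; ring
    have e2 : (((t + 1 : ℤ) : ℝ) + s) * a = (t + s) * a + a := by push_cast; ring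
    rw [e1, e2, cos_add _ r, cos_add _ a, sin_sub a r]
    field_simp
    ring

theorem step_le {m : ℕ} (hm : 0 < m) {f : ℝ → ℝ} (hc : ConvexOn ℝ Set.univ f) (hf : Monotone f)
    {A b : ℝ} (hb : 0 ≤ b) (hA : b ≤ A) (θ : ℝ) :
    (1 / (4 * m : ℝ)) * ∑ s ∈ range (4 * m), f (A + b * cos (θ + s * al m)) ≤ V m f A := by
  have hm' : (0 : ℝ) < m := by exact_mod_cast hm
  obtain ⟨t, w₁, w₂, h1, h2, h3, h4⟩ := polygon hm θ
  have hD := one_le_DD hm
  unfold V
  refine mul_le_mul_of_nonneg_left ?_ (by positivity)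
  rcases (hb.trans hA).eq_or_lt with h0 | h0
  · have : b = 0 := le_antisymm (h0 ▸ hA) hb
    simp [this, ← h0]
  set B := DD m * A with hB
  have hB0 : 0 < B := by positivity
  have hAB : A ≤ B := by rw [hB]; nlinarith
  set T := ∑ s ∈ range (4 * m), f (B * xi m s) with hT
  have hw : b * w₁ + b * w₂ ≤ B := by
    rw [hB, ← mul_add, mul_comm]
    exact mul_le_mul h3 hA hb (by linarith)
  have hJ : (4 * m : ℝ) * f A ≤ T := by
    have := hc.map_sum_le (t := range (4 * m)) (w := fun _ => 1 / (4 * m : ℝ))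
      (p := fun s => B * xi m s) (fun _ _ => by positivity)
      (by simp; field_simp) (fun _ _ => Set.mem_univ _)
    simp only [smul_eq_mul, ← mul_sum] at this
    have e : ∑ s ∈ range (4 * m), xi m s = 4 * m := by
      have := sum_cos hm 0
      simp only [zero_add] at this
      simp [xi, sum_add_distrib, this]
    rw [e, ← hT, show 1 / (4 * m : ℝ) * (B * (4 * m)) = B by field_simp] at this
    have h5 := hf hAB
    calc (4 * m : ℝ) * f A ≤ (4 * m : ℝ) * (1 / (4 * m : ℝ) * T) := by gcongr; linarith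
      _ = T := by field_simp
  have key : ∀ s ∈ range (4 * m), f (A + b * cos (θ + s * al m)) ≤
      (b * w₁ / B) * f (B * (1 + cos ((t + s) * al m))) +
      (b * w₂ / B) * f (B * (1 + cos (((t + 1 : ℤ) + s) * al m))) +
      (1 - (b * w₁ + b * w₂) / B) * f A := by
    intro s _
    have := hc.map_sum_le (t := (univ : Finset (Fin 3)))
      (w := ![b * w₁ / B, b * w₂ / B, 1 - (b * w₁ + b * w₂) / B])
      (p := ![B * (1 + cos ((t + s) * al m)), B * (1 + cos (((t + 1 : ℤ) + s) * al m)), A])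
      (by
        intro i _
        fin_cases i
        · simp; positivity
        · simp; positivity
        · simp; rw [div_le_one hB0]; exact hw)
      (by simp [Fin.sum_univ_three]; ring) (fun _ _ => Set.mem_univ _)
    simp only [Fin.sum_univ_three, smul_eq_mul, Matrix.cons_val_zero, Matrix.cons_val_one,
      Matrix.cons_val] at this
    refine le_trans (hf ?_) this
    rw [h4 s]
    have e : b * w₁ / B * (B * (1 + cos ((t + s) * al m))) +
        b * w₂ / B * (B * (1 + cos (((t + 1 : ℤ) + s) * al m))) + (1 - (b * w₁ + b * w₂) / B) * A =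
        A + b * (w₁ * cos ((t + s) * al m) + w₂ * cos (((t + 1 : ℤ) + s) * al m)) +
          (b * w₁ + b * w₂) * (1 - A / B) := by
      field_simp
      ring
    rw [e]
    have : 0 ≤ (b * w₁ + b * w₂) * (1 - A / B) :=
      mul_nonneg (by positivity) (by rw [sub_nonneg, div_le_one hB0]; exact hAB)
    linarith
  refine (sum_le_sum key).trans ?_
  simp only [sum_add_distrib, ← mul_sum]
  rw [sum_shift hm (fun c => f (B * (1 + c))) t, sum_shift hm (fun c => f (B * (1 + c))) (t + 1)]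
  simp only [sum_const, card_range, nsmul_eq_mul]
  have e : ∑ s ∈ range (4 * m), f (B * (1 + cos (s * al m))) = T := rfl
  rw [e]
  have h6 : 0 ≤ 1 - (b * w₁ + b * w₂) / B := by rw [sub_nonneg, div_le_one hB0]; exact hw
  have h7 := mul_le_mul_of_nonneg_left hJ h6
  push_cast
  calc _ ≤ b * w₁ / B * T + b * w₂ / B * T + (1 - (b * w₁ + b * w₂) / B) * T := by linarith
    _ = T := by ring

theorem V_convex {m : ℕ} {f : ℝ → ℝ} (hc : ConvexOn ℝ Set.univ f) :
    ConvexOn ℝ Set.univ (V m f) := by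
  refine ⟨convex_univ, fun x _ y _ a b ha hb hab => ?_⟩
  simp only [V, smul_eq_mul]
  have : ∀ s ∈ range (4 * m), f (DD m * (a * x + b * y) * xi m s) ≤
      a * f (DD m * x * xi m s) + b * f (DD m * y * xi m s) := by
    intro s _
    have := hc.2 (Set.mem_univ (DD m * x * xi m s)) (Set.mem_univ (DD m * y * xi m s)) ha hb hab
    simp only [smul_eq_mul] at this
    rwa [show DD m * (a * x + b * y) * xi m s =
      a * (DD m * x * xi m s) + b * (DD m * y * xi m s) by ring]
  calc _ ≤ (1 / (4 * m : ℝ)) * ∑ s ∈ range (4 * m),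
        (a * f (DD m * x * xi m s) + b * f (DD m * y * xi m s)) :=
        mul_le_mul_of_nonneg_left (sum_le_sum this) (by positivity)
    _ = _ := by
        simp only [sum_add_distrib, ← mul_sum]
        ring

theorem V_mono {m : ℕ} (hm : 0 < m) {f : ℝ → ℝ} (hf : Monotone f) : Monotone (V m f) := by
  intro x y hxy
  have hD := one_le_DD hm
  refine mul_le_mul_of_nonneg_left (sum_le_sum fun s _ => hf ?_) (by positivity)
  have := xi_nonneg m s
  gcongr

theorem V_cont {m : ℕ} {f : ℝ → ℝ} (hf : Continuous f) : Continuous (V m f) := by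
  unfold V
  fun_prop

/-- Multiplicative characters `y ^ (2 + i τ)`. -/
noncomputable def chi (τ y : ℝ) : ℂ := (y : ℂ) ^ 2 * Complex.exp (((τ * log y : ℝ) : ℂ) * Complex.I)

theorem chi_mul (τ x y : ℝ) : chi τ (x * y) = chi τ x * chi τ y := by
  unfold chi
  by_cases hx : x = 0
  · simp [hx]
  by_cases hy : y = 0
  · simp [hy]
  rw [log_mul hx hy, mul_add]
  push_cast
  rw [add_mul, Complex.exp_add]
  ring

theorem norm_chi (τ y : ℝ) : ‖chi τ y‖ = y ^ 2 := by
  rw [chi, norm_mul, Complex.norm_exp_ofReal_mul_I]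
  simp

theorem norm_pair {τ p q : ℝ} (hτ : |τ| ≤ 1 / 2) (hp : 17 / 10 ≤ p) (hp' : p ≤ 2)
    (hq : 29 / 100 ≤ q) (hq' : q ≤ 1) : ‖chi τ p + chi τ q‖ ≤ p ^ 2 + q ^ 2 - τ ^ 2 / 1000 := by
  have hτ2 : τ ^ 2 ≤ 1 / 4 := by nlinarith [sq_abs τ, abs_nonneg τ]
  have l1 : 2 / 5 ≤ log p := by
    have := one_sub_inv_le_log_of_pos (x := p) (by linarith)
    have h : p⁻¹ ≤ 10 / 17 := by rw [inv_le_comm₀ (by linarith) (by norm_num)]; linarith
    linarith
  have l2 : log p ≤ 1 := by linarith [log_le_sub_one_of_pos (x := p) (by linarith)]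
  have l3 : log q ≤ 0 := log_nonpos (by linarith) hq'
  have l4 : -(5 / 2) ≤ log q := by
    have := one_sub_inv_le_log_of_pos (x := q) (by linarith)
    have h : q⁻¹ ≤ 100 / 29 := by rw [inv_le_comm₀ (by linarith) (by norm_num)]; linarith
    linarith
  set Δ := log p - log q with hΔ
  have hcos : cos (τ * Δ) ≤ 1 - 4 / 125 * τ ^ 2 := by
    have h1 : |τ * Δ| ≤ π := by
      rw [abs_mul, abs_of_nonneg (by linarith : 0 ≤ Δ)]
      have : |τ| * Δ ≤ 1 / 2 * (7 / 2) := mul_le_mul hτ (by linarith) (by linarith) (by norm_num)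
      linarith [pi_gt_three]
    have h2 := cos_le_one_sub_mul_cos_sq h1
    have h3 : 1 / 5 ≤ 2 / π ^ 2 := by
      rw [le_div_iff₀ (by positivity)]
      nlinarith [pi_lt_d2, pi_pos]
    have h4 : 4 / 25 * τ ^ 2 ≤ (τ * Δ) ^ 2 := by
      rw [mul_pow]
      have : 4 / 25 ≤ Δ ^ 2 := by nlinarith
      nlinarith [sq_nonneg τ]
    nlinarith [sq_nonneg τ, sq_nonneg (τ * Δ)]
  have hsq : ‖chi τ p + chi τ q‖ ^ 2 = p ^ 4 + q ^ 4 + 2 * p ^ 2 * q ^ 2 * cos (τ * Δ) := by
    rw [Complex.sq_norm, Complex.normSq_apply, hΔ, mul_sub, cos_sub]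
    simp only [chi, Complex.add_re, Complex.add_im, ← Complex.ofReal_pow, Complex.re_ofReal_mul,
      Complex.im_ofReal_mul, Complex.exp_ofReal_mul_I_re, Complex.exp_ofReal_mul_I_im]
    linear_combination p ^ 4 * sin_sq_add_cos_sq (τ * log p) +
      q ^ 4 * sin_sq_add_cos_sq (τ * log q)
  have hp2 : 289 / 100 ≤ p ^ 2 := by nlinarith
  have hp3 : p ^ 2 ≤ 4 := by nlinarith
  have hq2 : 841 / 10000 ≤ q ^ 2 := by nlinarith
  have hq3 : q ^ 2 ≤ 1 := by nlinarith
  have hpq : 24 / 100 ≤ p ^ 2 * q ^ 2 := by nlinarith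
  refine (pow_le_pow_iff_left₀ (norm_nonneg _) (by nlinarith) two_ne_zero).1 ?_
  rw [hsq]
  have h5 : 2 * p ^ 2 * q ^ 2 * cos (τ * Δ) ≤ 2 * p ^ 2 * q ^ 2 * (1 - 4 / 125 * τ ^ 2) :=
    mul_le_mul_of_nonneg_left hcos (by positivity)
  nlinarith [sq_nonneg τ, mul_le_mul_of_nonneg_left hpq (sq_nonneg τ),
    mul_le_mul_of_nonneg_left hp3 (sq_nonneg τ), mul_le_mul_of_nonneg_left hq3 (sq_nonneg τ),
    sq_nonneg (τ ^ 2)]

theorem norm_four {τ y z : ℝ} (hτ : |τ| ≤ 1 / 2) (h : y ^ 2 + z ^ 2 = 1) :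
    ‖chi τ (1 + y) + chi τ (1 - z) + chi τ (1 - y) + chi τ (1 + z)‖ ≤ 6 - τ ^ 2 / 1000 := by
  have base : ∀ y z : ℝ, 0 ≤ y → y ≤ z → y ^ 2 + z ^ 2 = 1 →
      ‖(chi τ (1 + y) + chi τ (1 - y)) + (chi τ (1 + z) + chi τ (1 - z))‖ ≤
        6 - τ ^ 2 / 1000 := by
    intro y z hy hyz h
    have h1 := norm_pair (p := 1 + z) (q := 1 - y) hτ (by nlinarith) (by nlinarith)
      (by nlinarith) (by linarith)
    have e : (chi τ (1 + y) + chi τ (1 - y)) + (chi τ (1 + z) + chi τ (1 - z)) =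
        (chi τ (1 + z) + chi τ (1 - y)) + (chi τ (1 + y) + chi τ (1 - z)) := by ring
    rw [e]
    have h2 := norm_add_le (chi τ (1 + y)) (chi τ (1 - z))
    rw [norm_chi, norm_chi] at h2
    have h3 := norm_add_le (chi τ (1 + z) + chi τ (1 - y)) (chi τ (1 + y) + chi τ (1 - z))
    nlinarith
  have sym : ∀ y : ℝ, chi τ (1 + y) + chi τ (1 - y) = chi τ (1 + |y|) + chi τ (1 - |y|) := by
    intro y
    rcases abs_cases y with h | h
    · rw [h.1]
    · rw [h.1, sub_neg_eq_add, ← sub_eq_add_neg, add_comm]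
  have e : chi τ (1 + y) + chi τ (1 - z) + chi τ (1 - y) + chi τ (1 + z) =
      (chi τ (1 + y) + chi τ (1 - y)) + (chi τ (1 + z) + chi τ (1 - z)) := by ring
  rw [e, sym y, sym z]
  rcases le_total |y| |z| with h1 | h1
  · exact base _ _ (abs_nonneg _) h1 (by rw [sq_abs, sq_abs]; exact h)
  · rw [add_comm]
    exact base _ _ (abs_nonneg _) h1 (by rw [sq_abs, sq_abs]; linarith)

/-- Mellin transform of the step distribution. -/
noncomputable def phi (m : ℕ) (τ : ℝ) : ℂ :=
  (1 / (4 * m : ℂ)) * ∑ s ∈ range (4 * m), chi τ (xi m s)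

theorem norm_phi_le {m : ℕ} (hm : 0 < m) {τ : ℝ} (hτ : |τ| ≤ 1 / 2) :
    ‖phi m τ‖ ≤ 3 / 2 - τ ^ 2 / 4000 := by
  have hm' : (0 : ℝ) < m := by exact_mod_cast hm
  have e := orbit_sum hm (fun x => chi τ (1 + cos x)) 0
  simp only [zero_add] at e
  have e2 : ∑ s ∈ range (4 * m), chi τ (xi m s) =
      ∑ s ∈ range (4 * m), chi τ (1 + cos (s * al m)) := rfl
  rw [phi, e2, e, norm_mul]
  have h1 : ‖(1 / (4 * m : ℂ))‖ = 1 / (4 * m : ℝ) := by simp
  have h2 := norm_sum_le_of_le (range m) (f := fun t : ℕ => chi τ (1 + cos (t * al m)) +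
      chi τ (1 + cos (t * al m + π / 2)) + chi τ (1 + cos (t * al m + π)) +
      chi τ (1 + cos (t * al m + π + π / 2))) (n := fun _ => 6 - τ ^ 2 / 1000) (by
    intro t _
    simp only [cos_add_pi_div_two, cos_add_pi, sin_add_pi, neg_neg, ← sub_eq_add_neg]
    exact norm_four hτ (cos_sq_add_sin_sq _))
  rw [h1]
  simp only [sum_const, card_range, nsmul_eq_mul] at h2
  calc _ ≤ 1 / (4 * m : ℝ) * (m * (6 - τ ^ 2 / 1000)) :=
        mul_le_mul_of_nonneg_left h2 (by positivity)
    _ = _ := by field_simp; ring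

theorem iter_le {m : ℕ} (hm : 0 < m) {ι : Type} (I : Finset ι) (τ : ι → ℝ) (J : ℕ) :
    ∀ (f : ℝ → ℝ) (c : ι → ℂ), (∀ y, 0 ≤ y → f y ≤ (∑ i ∈ I, c i * chi (τ i) y).re) →
      ∀ y, 0 ≤ y → (V m)^[J] f y ≤
        (∑ i ∈ I, c i * (chi (τ i) (DD m) * phi m (τ i)) ^ J * chi (τ i) y).re := by
  induction J with
  | zero => intro f c h y hy; simpa using h y hy
  | succ J ih =>
    intro f c h y hy
    rw [Function.iterate_succ_apply]
    have := ih (V m f) (fun i => c i * (chi (τ i) (DD m) * phi m (τ i))) ?_ y hy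
    · convert this using 3
      ring
    · intro y hy
      have hD := one_le_DD hm
      have h1 : V m f y ≤ (1 / (4 * m : ℝ)) * ∑ s ∈ range (4 * m),
          (∑ i ∈ I, c i * chi (τ i) (DD m * y * xi m s)).re :=
        mul_le_mul_of_nonneg_left (sum_le_sum fun s _ => h _ (by
          have := xi_nonneg m s
          positivity)) (by positivity)
      refine h1.trans (le_of_eq ?_)
      rw [← Complex.re_sum, ← Complex.re_ofReal_mul, sum_comm, mul_sum]
      congr 1
      refine sum_congr rfl fun i _ => ?_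
      simp only [chi_mul, phi, mul_sum, sum_mul]
      refine sum_congr rfl fun s _ => ?_
      push_cast
      ring

theorem majorant {R : ℕ} (hR : 0 < R) {μ : ℝ} (hμ : 0 < μ) (y : ℝ) :
    max (y - μ) 0 ≤ ∑ p ∈ range R ×ˢ range R, (if p.1 = p.2 then 3 else 2) / (μ * R ^ 2) *
      (y ^ 2 * cos (((p.1 : ℝ) - p.2) / (2 * R ^ 2) * (log y - log μ))) := by
  have hR' : (1 : ℝ) ≤ R := by exact_mod_cast hR
  set u := (log y - log μ) / (2 * R ^ 2) with hu
  set F := ∑ p ∈ range R ×ˢ range R, cos (((p.1 : ℝ) - p.2) * u) with hF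
  have e : ∑ p ∈ range R ×ˢ range R, (if p.1 = p.2 then 3 else 2) / (μ * R ^ 2) *
      (y ^ 2 * cos (((p.1 : ℝ) - p.2) / (2 * R ^ 2) * (log y - log μ))) =
      y ^ 2 / (μ * R ^ 2) * (2 * F + R) := by
    have e1 : (R : ℝ) = ∑ p ∈ range R ×ˢ range R, (if p.1 = p.2 then (1 : ℝ) else 0) := by
      rw [sum_product]
      simp only [sum_ite_eq]
      rw [sum_congr rfl (fun x hx => if_pos hx)]
      simp
    conv_rhs => rw [e1]
    rw [hF, mul_sum, ← sum_add_distrib, mul_sum]
    rw [← e1]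
    refine sum_congr rfl fun p _ => ?_
    rw [show ((p.1 : ℝ) - p.2) / (2 * R ^ 2) * (log y - log μ) = ((p.1 : ℝ) - p.2) * u by
      rw [hu]; ring]
    split_ifs with h
    · simp [h]
      ring
    · ring
  have F0 : 0 ≤ F := by
    have : F = (∑ r ∈ range R, cos (r * u)) ^ 2 + (∑ r ∈ range R, sin (r * u)) ^ 2 := by
      rw [hF, sq, sq, sum_mul_sum, sum_mul_sum, sum_product, ← sum_add_distrib]
      refine sum_congr rfl fun r _ => ?_
      rw [← sum_add_distrib]
      refine sum_congr rfl fun r' _ => ?_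
      rw [sub_mul, cos_sub]
    rw [this]
    positivity
  rw [e]
  refine max_le ?_ (by positivity)
  rcases le_total y μ with h | h
  · have : 0 ≤ y ^ 2 / (μ * R ^ 2) * (2 * F + R) := by positivity
    linarith
  have hy0 : 0 < y := hμ.trans_le h
  rw [div_mul_eq_mul_div, le_div_iff₀ (by positivity)]
  rcases le_total (μ * R) y with h1 | h1
  · have : μ * R * (y * R) ≤ y * (y * R) := mul_le_mul_of_nonneg_right h1 (by positivity)
    nlinarith [mul_nonneg (sq_nonneg y) F0, mul_pos hμ hμ, sq_nonneg (μ * R)]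
  · have t0 : 0 ≤ log y - log μ := sub_nonneg.2 (log_le_log hμ h)
    have t1 : log y - log μ ≤ R := by
      rw [← log_div hy0.ne' hμ.ne']
      have := log_le_sub_one_of_pos (div_pos hy0 hμ)
      have h2 : y / μ ≤ R := by rw [div_le_iff₀ hμ]; linarith
      linarith
    have u0 : 0 ≤ u := by positivity
    have u1 : R * u ≤ 1 := by
      rw [hu, ← mul_div_assoc, div_le_one (by positivity)]
      nlinarith
    have hF2 : (R : ℝ) ^ 2 / 2 ≤ F := by
      have : ∀ p ∈ range R ×ˢ range R, (1 / 2 : ℝ) ≤ cos (((p.1 : ℝ) - p.2) * u) := by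
        intro p hp
        obtain ⟨h1, h2⟩ := mem_product.1 hp
        have h3 : (p.1 : ℝ) ≤ R := by exact_mod_cast (mem_range.1 h1).le
        have h4 : (p.2 : ℝ) ≤ R := by exact_mod_cast (mem_range.1 h2).le
        have h5 : (0 : ℝ) ≤ p.1 := Nat.cast_nonneg _
        have h6 : (0 : ℝ) ≤ p.2 := Nat.cast_nonneg _
        have h7 : (((p.1 : ℝ) - p.2) * u) ^ 2 ≤ 1 := by
          apply (sq_le_one_iff_abs_le_one _).2
          rw [abs_le]
          constructor <;> nlinarith
        linarith [one_sub_sq_div_two_le_cos (x := ((p.1 : ℝ) - p.2) * u)]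
      have := sum_le_sum this
      simp only [sum_const, card_product, card_range, nsmul_eq_mul] at this
      push_cast at this
      linarith
    have : μ * (y * R ^ 2) ≤ y * (y * R ^ 2) := mul_le_mul_of_nonneg_right h (by positivity)
    nlinarith [mul_le_mul_of_nonneg_left hF2 (sq_nonneg y), sq_nonneg (μ * R),
      mul_nonneg (sq_nonneg y) (le_trans zero_le_one hR')]

theorem anticonc {m R : ℕ} (hm : 0 < m) (hR : 0 < R) (J : ℕ) {μ x : ℝ} (hμ : 0 < μ)
    (hx : 0 ≤ x) : (V m)^[J] (fun y => max (y - μ) 0) x ≤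
      x ^ 2 / μ * (DD m ^ 2) ^ J * (3 / R * (3 / 2) ^ J + 2 * (3 / 2 - 1 / (16000 * R ^ 4)) ^ J) := by
  have hR' : (1 : ℝ) ≤ R := by exact_mod_cast hR
  have h := iter_le hm (range R ×ˢ range R) (fun p => ((p.1 : ℝ) - p.2) / (2 * R ^ 2)) J
    (fun y => max (y - μ) 0)
    (fun p => (((if p.1 = p.2 then 3 else 2) / (μ * R ^ 2) : ℝ) : ℂ) *
      Complex.exp (((-(((p.1 : ℝ) - p.2) / (2 * R ^ 2) * log μ) : ℝ) : ℂ) * Complex.I)) ?_ x hx
  · refine h.trans ((Complex.re_le_norm _).trans ?_)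
    have hq : (0 : ℝ) ≤ 3 / 2 - 1 / (16000 * R ^ 4) := by
      have : (1 : ℝ) / (16000 * R ^ 4) ≤ 1 := by
        rw [div_le_one (by positivity)]
        nlinarith [one_le_pow₀ (n := 4) hR']
      linarith
    refine (norm_sum_le_of_le _ (n := fun p => x ^ 2 / (μ * R ^ 2) * (DD m ^ 2) ^ J *
      ((if p.1 = p.2 then 3 * (3 / 2) ^ J else 0) + 2 * (3 / 2 - 1 / (16000 * R ^ 4)) ^ J))
      ?_).trans (le_of_eq ?_)
    · intro p hp
      obtain ⟨h1, h2⟩ := mem_product.1 hp
      have h3 : (p.1 : ℝ) ≤ R := by exact_mod_cast (mem_range.1 h1).le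
      have h4 : (p.2 : ℝ) ≤ R := by exact_mod_cast (mem_range.1 h2).le
      have h5 : (0 : ℝ) ≤ p.1 := Nat.cast_nonneg _
      have h6 : (0 : ℝ) ≤ p.2 := Nat.cast_nonneg _
      have hτ : |((p.1 : ℝ) - p.2) / (2 * R ^ 2)| ≤ 1 / 2 := by
        rw [abs_div, abs_of_pos (by positivity : (0 : ℝ) < 2 * R ^ 2),
          div_le_iff₀ (by positivity), abs_le]
        constructor <;> nlinarith
      have hφ := norm_phi_le hm hτ
      rw [norm_mul, norm_mul, norm_mul, norm_pow, norm_mul, norm_chi, norm_chi,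
        Complex.norm_exp_ofReal_mul_I, Complex.norm_real, mul_pow]
      split_ifs with h
      · have : ‖phi m (((p.1 : ℝ) - p.2) / (2 * R ^ 2))‖ ^ J ≤ (3 / 2) ^ J :=
          pow_le_pow_left₀ (norm_nonneg _) (by linarith [sq_nonneg (((p.1 : ℝ) - p.2) / (2 * R ^ 2))]) J
        rw [Real.norm_of_nonneg (by positivity)]
        calc _ = x ^ 2 / (μ * R ^ 2) * (DD m ^ 2) ^ J *
              (3 * ‖phi m (((p.1 : ℝ) - p.2) / (2 * R ^ 2))‖ ^ J + 0) := by ring
          _ ≤ _ := by gcongr; positivity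
      · have h7 : (1 : ℝ) ≤ ((p.1 : ℝ) - p.2) ^ 2 := by
          have : (1 : ℤ) ≤ ((p.1 : ℤ) - p.2) ^ 2 := by
            have : (p.1 : ℤ) - p.2 ≠ 0 := by omega
            exact Int.add_one_le_of_lt (a := 0) (by positivity)
          exact_mod_cast this
        have h8 : 1 / (16000 * (R : ℝ) ^ 4) ≤ (((p.1 : ℝ) - p.2) / (2 * R ^ 2)) ^ 2 / 4000 := by
          rw [div_pow, div_div, div_le_div_iff₀ (by positivity) (by positivity)]
          nlinarith [pow_pos (lt_of_lt_of_le one_pos hR') 4]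
        have : ‖phi m (((p.1 : ℝ) - p.2) / (2 * R ^ 2))‖ ^ J ≤
            (3 / 2 - 1 / (16000 * R ^ 4)) ^ J :=
          pow_le_pow_left₀ (norm_nonneg _) (by linarith) J
        rw [Real.norm_of_nonneg (by positivity)]
        calc _ = x ^ 2 / (μ * R ^ 2) * (DD m ^ 2) ^ J *
              (0 + 2 * ‖phi m (((p.1 : ℝ) - p.2) / (2 * R ^ 2))‖ ^ J) := by ring
          _ ≤ _ := by gcongr
    · rw [← mul_sum, sum_add_distrib, sum_product]
      simp only [sum_ite_eq]
      rw [sum_congr rfl (fun x hx => if_pos hx)]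
      simp only [sum_const, card_product, card_range, nsmul_eq_mul]
      push_cast
      field_simp
  · intro y _
    refine (majorant hR hμ y).trans (le_of_eq ?_)
    rw [Complex.re_sum]
    refine sum_congr rfl fun p _ => ?_
    rw [mul_assoc, Complex.re_ofReal_mul]
    congr 1
    rw [chi, mul_left_comm, ← Complex.exp_add, ← add_mul, ← Complex.ofReal_add,
      ← Complex.ofReal_pow, Complex.re_ofReal_mul, Complex.exp_ofReal_mul_I_re]
    congr 2
    ring

end Pool.Agent.P.MP_f33f0c_an
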