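import Mathlib
import Pool.Agent.P.MP_f33f0c_an.Step

/-! Trigonometric polynomials with spectrum in a lacunary Hilbert cube. -/

set_option autoImplicit false

namespace Pool.Agent.P.MP_f33f0c_an

open Real Finset

/-- The exponentials. -/
noncomputable def ee (n : ℤ) (x : ℝ) : ℂ :=
  Complex.exp (2 * (Real.pi : ℂ) * Complex.I * (n : ℂ) * (x : ℂ))

theorem ee_eq (n : ℤ) (x : ℝ) : ee n x = Complex.exp (((2 * π * n * x : ℝ) : ℂ) * Complex.I) := by
  unfold ee
  congr 1
  push_cast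
  ring

theorem norm_ee (n : ℤ) (x : ℝ) : ‖ee n x‖ = 1 := by
  rw [ee_eq, Complex.norm_exp_ofReal_mul_I]

theorem ee_add_left (k l : ℤ) (x : ℝ) : ee (k + l) x = ee k x * ee l x := by
  unfold ee
  rw [← Complex.exp_add]
  congr 1
  push_cast
  ring

theorem ee_add_right (k : ℤ) (x y : ℝ) : ee k (x + y) = ee k x * ee k y := by
  unfold ee
  rw [← Complex.exp_add]
  congr 1
  push_cast
  ring

theorem ee_eq_one {k j : ℤ} {y : ℝ} (h : k * y = j) : ee k y = 1 := by
  unfold ee
  have h' : (k : ℂ) * (y : ℂ) = (j : ℂ) := by exact_mod_cast h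
  rw [mul_assoc, h', mul_comm]
  exact Complex.exp_int_mul_two_pi_mul_I j

theorem ee_periodic (k : ℤ) (x : ℝ) : ee k (x + 1) = ee k x := by
  rw [ee_add_right, ee_eq_one (j := k) (mul_one _), mul_one]

@[fun_prop] theorem continuous_ee (k : ℤ) : Continuous (ee k) := by
  unfold ee
  fun_prop

theorem conj_ee (k : ℤ) (x : ℝ) : (starRingEnd ℂ) (ee k x) = ee (-k) x := by
  rw [ee_eq, ee_eq, ← Complex.exp_conj, map_mul, Complex.conj_ofReal, Complex.conj_I]
  congr 1
  push_cast
  ring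

theorem integral_ee (k : ℤ) : ∫ x in (0 : ℝ)..1, ee k x = if k = 0 then 1 else 0 := by
  split_ifs with h
  · simp [h, ee]
  · have hc : 2 * (Real.pi : ℂ) * Complex.I * (k : ℂ) ≠ 0 := by
      simp [h, pi_ne_zero]
    have := integral_exp_mul_complex (a := 0) (b := 1) hc
    unfold ee
    rw [this]
    have h1 : ee k 1 = 1 := ee_eq_one (j := k) (mul_one _)
    unfold ee at h1
    rw [h1]
    simp

/-- Trigonometric polynomials. -/
noncomputable def poly (S : Finset ℤ) (a : ℤ → ℂ) (x : ℝ) : ℂ := ∑ k ∈ S, a k * ee k x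

@[fun_prop] theorem continuous_poly (S : Finset ℤ) (a : ℤ → ℂ) : Continuous (poly S a) := by
  unfold poly
  fun_prop

theorem poly_periodic (S : Finset ℤ) (a : ℤ → ℂ) (x : ℝ) : poly S a (x + 1) = poly S a x := by
  simp [poly, ee_periodic]

theorem parseval (S : Finset ℤ) (a : ℤ → ℂ) :
    ∫ x in (0 : ℝ)..1, ‖poly S a x‖ ^ 2 = ∑ k ∈ S, ‖a k‖ ^ 2 := by
  have h : ∀ x, ((‖poly S a x‖ ^ 2 : ℝ) : ℂ) =
      ∑ k ∈ S, ∑ l ∈ S, a k * (starRingEnd ℂ) (a l) * ee (k - l) x := by
    intro x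
    rw [← Complex.normSq_eq_norm_sq, ← Complex.mul_conj, poly, map_sum, sum_mul_sum]
    refine sum_congr rfl fun k _ => sum_congr rfl fun l _ => ?_
    rw [map_mul, conj_ee, sub_eq_add_neg, ee_add_left]
    ring
  apply Complex.ofReal_injective
  rw [← intervalIntegral.integral_ofReal]
  simp only [h]
  rw [intervalIntegral.integral_finsetSum (fun k _ => Continuous.intervalIntegrable
    (by fun_prop) _ _)]
  push_cast
  refine sum_congr rfl fun k hk => ?_
  rw [intervalIntegral.integral_finsetSum (fun l _ => Continuous.intervalIntegrable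
    (by fun_prop) _ _)]
  simp only [intervalIntegral.integral_const_mul, integral_ee, sub_eq_zero, mul_ite, mul_one,
    mul_zero, sum_ite_eq, hk, if_true, Complex.mul_conj']

theorem sq_integral_le {h : ℝ → ℝ} (hc : Continuous h) :
    (∫ x in (0 : ℝ)..1, h x) ^ 2 ≤ ∫ x in (0 : ℝ)..1, h x ^ 2 := by
  set c := ∫ x in (0 : ℝ)..1, h x with hcdef
  have h0 : 0 ≤ ∫ x in (0 : ℝ)..1, (h x ^ 2 - 2 * c * h x + c ^ 2) :=
    intervalIntegral.integral_nonneg zero_le_one fun x _ => by nlinarith [sq_nonneg (h x - c)]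
  rw [intervalIntegral.integral_add (Continuous.intervalIntegrable (by fun_prop) _ _)
    (Continuous.intervalIntegrable (by fun_prop) _ _),
    intervalIntegral.integral_sub (Continuous.intervalIntegrable (by fun_prop) _ _)
    (Continuous.intervalIntegrable (by fun_prop) _ _), intervalIntegral.integral_const_mul] at h0
  simp only [intervalIntegral.integral_const, sub_zero, smul_eq_mul, one_mul, ← hcdef] at h0
  nlinarith

theorem integral_avg {N : ℕ} (hN : 0 < N) {Φ : ℝ → ℝ} (hc : Continuous Φ)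
    (hp : ∀ x, Φ (x + 1) = Φ x) (τ : ℕ → ℝ) :
    ∫ x in (0 : ℝ)..1, Φ x = ∫ x in (0 : ℝ)..1, (1 / (N : ℝ)) * ∑ s ∈ range N, Φ (x + τ s) := by
  have hN' : (N : ℝ) ≠ 0 := by exact_mod_cast hN.ne'
  rw [intervalIntegral.integral_const_mul, intervalIntegral.integral_finsetSum
    (fun k _ => Continuous.intervalIntegrable (by fun_prop) _ _)]
  have : ∀ s ∈ range N, ∫ x in (0 : ℝ)..1, Φ (x + τ s) = ∫ x in (0 : ℝ)..1, Φ x := by
    intro s _
    rw [intervalIntegral.integral_comp_add_right Φ (τ s)]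
    have := Function.Periodic.intervalIntegral_add_eq (f := Φ) (T := 1) hp (τ s) 0
    simpa [add_comm] using this
  rw [sum_congr rfl this]
  simp only [sum_const, card_range, nsmul_eq_mul]
  field_simp

/-- The lacunary Hilbert cube. -/
def cube (M : ℕ) : ℕ → ℤ → Finset ℤ
  | 0, _ => {0}
  | J + 1, n => cube M J (n * M) ∪ (cube M J (n * M)).image (· + n)

theorem dvd_of_mem_cube {M J : ℕ} : ∀ {n k : ℤ}, k ∈ cube M J n → n ∣ k := by
  induction J with
  | zero =>
    intro n k h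
    rw [mem_singleton.1 h]
    exact dvd_zero n
  | succ J ih =>
    intro n k h
    rcases mem_union.1 h with h | h
    · exact (dvd_mul_right n M).trans (ih h)
    · obtain ⟨l, hl, rfl⟩ := mem_image.1 h
      exact dvd_add ((dvd_mul_right n M).trans (ih hl)) dvd_rfl

theorem add_not_mem_cube {M J : ℕ} (hM : 2 ≤ M) {n k : ℤ} (hn : n ≠ 0)
    (hk : k ∈ cube M J (n * M)) : k + n ∉ cube M J (n * M) := by
  intro h
  have h1 : n * M ∣ n * 1 := by
    rw [mul_one]
    exact (dvd_add_right (dvd_of_mem_cube hk)).1 (dvd_of_mem_cube h)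
  have h2 := Int.le_of_dvd one_pos ((mul_dvd_mul_iff_left hn).1 h1)
  omega

theorem sum_cube_succ {E : Type} [AddCommMonoid E] {M J : ℕ} (hM : 2 ≤ M) {n : ℤ} (hn : n ≠ 0)
    (F : ℤ → E) : ∑ k ∈ cube M (J + 1) n, F k =
      ∑ k ∈ cube M J (n * M), F k + ∑ k ∈ cube M J (n * M), F (k + n) := by
  rw [cube, sum_union, sum_image (fun a _ b _ h => add_right_cancel h)]
  rw [disjoint_left]
  intro k hk h
  obtain ⟨l, hl, rfl⟩ := mem_image.1 h
  exact add_not_mem_cube hM hn hl hk

theorem poly_cube_succ {M J : ℕ} (hM : 2 ≤ M) {n : ℤ} (hn : n ≠ 0) (a : ℤ → ℂ) (x : ℝ) :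
    poly (cube M (J + 1) n) a x = poly (cube M J (n * M)) a x +
      poly (cube M J (n * M)) (fun k => a (k + n)) x * ee n x := by
  simp only [poly, sum_cube_succ hM hn, ee_add_left, sum_mul, mul_assoc]

theorem poly_shift {M J : ℕ} {n : ℤ} (hn : n ≠ 0) (a : ℤ → ℂ) (x : ℝ) (s : ℕ) :
    poly (cube M J n) a (x + s / n) = poly (cube M J n) a x := by
  refine sum_congr rfl fun k hk => ?_
  obtain ⟨j, rfl⟩ := dvd_of_mem_cube hk
  have : (n : ℝ) ≠ 0 := by exact_mod_cast hn
  rw [ee_add_right, ee_eq_one (y := s / n) (j := j * s) (by push_cast; field_simp), mul_one]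

theorem ee_shift {m : ℕ} (hm : 0 < m) {n : ℤ} (hn : n ≠ 0) (x : ℝ) (s : ℕ) :
    ee n (x + s / ((n * ((4 * m : ℕ) : ℤ) : ℤ) : ℝ)) =
      ee n x * Complex.exp (((s * al m : ℝ) : ℂ) * Complex.I) := by
  have h1 : (n : ℝ) ≠ 0 := by exact_mod_cast hn
  have h2 : (m : ℝ) ≠ 0 := by exact_mod_cast hm.ne'
  rw [ee_add_right, ee_eq n (s / _)]
  congr 4
  unfold al
  push_cast
  field_simp
  ring

theorem norm_add_mul_sq (u v z : ℂ) (hz : ‖z‖ = 1) :
    ‖u + v * z‖ ^ 2 = ‖u‖ ^ 2 + ‖v‖ ^ 2 + (2 * (starRingEnd ℂ) u * v * z).re := by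
  have h : z.re * z.re + z.im * z.im = 1 := by
    rw [← Complex.normSq_apply, Complex.normSq_eq_norm_sq, hz, one_pow]
  simp only [Complex.sq_norm, Complex.normSq_apply, Complex.add_re, Complex.add_im,
    Complex.mul_re, Complex.mul_im, Complex.conj_re, Complex.conj_im, Complex.re_ofNat,
    Complex.im_ofNat]
  linear_combination (v.re * v.re + v.im * v.im) * h

theorem re_mul_exp (β : ℂ) (t : ℝ) :
    (β * Complex.exp ((t : ℂ) * Complex.I)).re = ‖β‖ * cos (Complex.arg β + t) := by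
  conv_lhs => rw [← Complex.norm_mul_exp_arg_mul_I β]
  rw [mul_assoc, ← Complex.exp_add, ← add_mul, ← Complex.ofReal_add, Complex.re_ofReal_mul,
    Complex.exp_ofReal_mul_I_re]

theorem dominate {m : ℕ} (hm : 0 < m) (J : ℕ) : ∀ (ι : Type) [Fintype ι] (a : ι → ℤ → ℂ) (n : ℤ)
    (f : ℝ → ℝ), n ≠ 0 → ConvexOn ℝ Set.univ f → Monotone f → Continuous f →
    ∫ x in (0 : ℝ)..1, f (∑ i, ‖poly (cube (4 * m) J n) (a i) x‖ ^ 2) ≤
      (V m)^[J] f (∑ i, ∑ k ∈ cube (4 * m) J n, ‖a i k‖ ^ 2) := by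
  have hM : 2 ≤ 4 * m := by omega
  induction J with
  | zero =>
    intro ι _ a n f _ _ _ _
    simp [cube, poly, norm_ee]
  | succ J ih =>
    intro ι _ a n f hn h1 h2 h3
    have hn' : n * ((4 * m : ℕ) : ℤ) ≠ 0 := mul_ne_zero hn (by exact_mod_cast (by omega))
    have IH := ih (ι ⊕ ι) (Sum.elim a (fun i k => a i (k + n))) _ (V m f) hn' (V_convex h1)
      (V_mono hm h2) (V_cont h3)
    simp only [Fintype.sum_sum_type, Sum.elim_inl, Sum.elim_inr] at IH
    rw [Function.iterate_succ_apply]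
    simp only [sum_cube_succ hM hn, sum_add_distrib]
    refine le_trans ?_ IH
    rw [integral_avg (N := 4 * m) (by omega) (by fun_prop) (fun x => by simp [poly_periodic])
      (fun s => s / ((n * ((4 * m : ℕ) : ℤ) : ℤ) : ℝ))]
    refine intervalIntegral.integral_mono_on zero_le_one
      (Continuous.intervalIntegrable (by fun_prop) _ _)
      (Continuous.intervalIntegrable ((V_cont h3).comp (by fun_prop)) _ _) fun x _ => ?_
    set u := fun i => poly (cube (4 * m) J (n * ((4 * m : ℕ) : ℤ))) (a i) x with hu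
    set v := fun i => poly (cube (4 * m) J (n * ((4 * m : ℕ) : ℤ))) (fun k => a i (k + n)) x
      with hv
    set β := (∑ i, 2 * (starRingEnd ℂ) (u i) * v i) * ee n x with hβ
    have hb : ‖β‖ ≤ ∑ i, ‖u i‖ ^ 2 + ∑ i, ‖v i‖ ^ 2 := by
      rw [hβ, norm_mul, norm_ee, mul_one, ← sum_add_distrib]
      refine norm_sum_le_of_le _ fun i _ => ?_
      rw [norm_mul, norm_mul, Complex.norm_conj, Complex.norm_ofNat]
      nlinarith [sq_nonneg (‖u i‖ - ‖v i‖)]
    have := step_le hm h1 h2 (norm_nonneg β) hb (Complex.arg β)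
    refine le_trans (le_of_eq ?_) this
    rw [show (((4 * m : ℕ) : ℝ)) = 4 * (m : ℝ) by push_cast; rfl]
    congr 1
    refine sum_congr rfl fun s _ => ?_
    congr 1
    have e := fun i => poly_cube_succ (J := J) hM hn (a i)
      (x + s / ((n * ((4 * m : ℕ) : ℤ) : ℤ) : ℝ))
    simp only [poly_shift hn', ee_shift hm hn] at e
    have hz : ‖ee n x * Complex.exp (((s * al m : ℝ) : ℂ) * Complex.I)‖ = 1 := by
      rw [norm_mul, norm_ee, Complex.norm_exp_ofReal_mul_I, one_mul]
    rw [← re_mul_exp, hβ, mul_assoc _ (ee n x), sum_mul, Complex.re_sum, ← sum_add_distrib,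
      ← sum_add_distrib]
    refine sum_congr rfl fun i _ => ?_
    rw [e i]
    exact norm_add_mul_sq (u i) (v i) _ hz

theorem strong_lower {m : ℕ} (hm : 0 < m) (J : ℕ) : ∀ n : ℤ, n ≠ 0 →
    ∫ x in (0 : ℝ)..1, ‖poly (cube (4 * m) J n) (fun _ => 1) x‖ ^ 4 = 6 ^ J := by
  have hM : 2 ≤ 4 * m := by omega
  have hm' : (m : ℝ) ≠ 0 := by exact_mod_cast hm.ne'
  induction J with
  | zero =>
    intro n _
    simp [cube, poly, norm_ee]
  | succ J ih =>
    intro n hn
    have hn' : n * ((4 * m : ℕ) : ℤ) ≠ 0 := mul_ne_zero hn (by exact_mod_cast (by omega))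
    rw [pow_succ', ← ih _ hn', ← intervalIntegral.integral_const_mul,
      integral_avg (N := 4 * m) (by omega) (by fun_prop) (fun x => by simp [poly_periodic])
      (fun s => s / ((n * ((4 * m : ℕ) : ℤ) : ℤ) : ℝ))]
    refine intervalIntegral.integral_congr fun x _ => ?_
    set u := poly (cube (4 * m) J (n * ((4 * m : ℕ) : ℤ))) (fun _ => 1) x with hu
    have e : ∀ s ∈ range (4 * m), ‖poly (cube (4 * m) (J + 1) n) (fun _ => 1)
        (x + s / ((n * ((4 * m : ℕ) : ℤ) : ℤ) : ℝ))‖ ^ 4 =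
        4 * ‖u‖ ^ 4 * (1 + cos (Complex.arg (ee n x) + s * al m)) ^ 2 := by
      intro s _
      rw [poly_cube_succ hM hn, poly_shift hn', ee_shift hm hn, ← hu]
      have hz : ‖ee n x * Complex.exp (((s * al m : ℝ) : ℂ) * Complex.I)‖ = 1 := by
        rw [norm_mul, norm_ee, Complex.norm_exp_ofReal_mul_I, one_mul]
      have h1 := norm_add_mul_sq 1 1 _ hz
      have h2 := re_mul_exp (ee n x) (s * al m)
      rw [norm_ee, one_mul] at h2
      simp only [map_one, mul_one, one_mul, norm_one, one_pow] at h1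
      rw [show (2 : ℂ) = ((2 : ℝ) : ℂ) by simp, Complex.re_ofReal_mul, h2] at h1
      rw [← mul_one_add, norm_mul, mul_pow, show 4 = 2 * 2 by rfl, pow_mul (‖1 + _‖), h1]
      ring
    rw [sum_congr rfl e, ← mul_sum, sum_sq hm]
    push_cast
    field_simp

theorem rudin_shapiro {M : ℕ} (hM : 2 ≤ M) (J : ℕ) : ∀ n : ℤ, n ≠ 0 → ∃ σ τ : ℤ → ℂ,
    (∀ k, σ k = 1 ∨ σ k = -1) ∧ (∀ k, τ k = 1 ∨ τ k = -1) ∧
    ∀ x, ‖poly (cube M J n) σ x‖ ^ 2 + ‖poly (cube M J n) τ x‖ ^ 2 = 2 * 2 ^ J := by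
  induction J with
  | zero =>
    intro n _
    exact ⟨fun _ => 1, fun _ => 1, fun _ => Or.inl rfl, fun _ => Or.inl rfl, fun x => by
      simp [cube, poly, norm_ee]; norm_num⟩
  | succ J ih =>
    intro n hn
    have hn' : n * (M : ℤ) ≠ 0 := mul_ne_zero hn (by exact_mod_cast (by omega))
    obtain ⟨σ, τ, h1, h2, h3⟩ := ih _ hn'
    refine ⟨fun k => if k ∈ cube M J (n * M) then σ k else τ (k - n),
      fun k => if k ∈ cube M J (n * M) then σ k else -τ (k - n), fun k => ?_, fun k => ?_,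
      fun x => ?_⟩
    · dsimp only
      split_ifs
      · exact h1 k
      · exact h2 _
    · dsimp only
      split_ifs
      · exact h1 k
      · rcases h2 (k - n) with h | h <;> simp [h]
    · rw [poly_cube_succ hM hn, poly_cube_succ hM hn]
      have a1 : ∀ g : ℤ → ℂ, poly (cube M J (n * M))
          (fun k => if k ∈ cube M J (n * M) then σ k else g k) x = poly (cube M J (n * M)) σ x :=
        fun g => sum_congr rfl fun k hk => by simp only [if_pos hk]
      have a2 : poly (cube M J (n * M))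
          (fun k => if k + n ∈ cube M J (n * M) then σ (k + n) else τ (k + n - n)) x =
          poly (cube M J (n * M)) τ x :=
        sum_congr rfl fun k hk => by
          simp only [if_neg (add_not_mem_cube hM hn hk), add_sub_cancel_right]
      have a3 : poly (cube M J (n * M))
          (fun k => if k + n ∈ cube M J (n * M) then σ (k + n) else -τ (k + n - n)) x =
          -poly (cube M J (n * M)) τ x := by
        rw [poly, poly, ← sum_neg_distrib]
        exact sum_congr rfl fun k hk => by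
          simp only [if_neg (add_not_mem_cube hM hn hk), add_sub_cancel_right, neg_mul]
      rw [a1, a1, a2, a3, norm_add_mul_sq _ _ _ (norm_ee n x), norm_add_mul_sq _ _ _ (norm_ee n x),
        norm_neg, mul_neg, neg_mul, Complex.neg_re, pow_succ (2 : ℝ) J]
      linarith [h3 x]

end Pool.Agent.P.MP_f33f0c_an
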