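import Mathlib
import Pool.Agent.P.MP_f33f0c_an.Cube

/-! Blocks and gluing: a multiplier of weak type `(4,4)` that is not of strong type `(4,4)`. -/

set_option autoImplicit false

namespace Pool.Agent.P.MP_f33f0c_an

open Real Finset MeasureTheory

theorem markov {h : ℝ → ℝ} (hc : Continuous h) (h0 : ∀ x, 0 ≤ h x) {ε : ℝ} (hε : 0 < ε)
    (P : ℝ → Prop) (hP : ∀ x, P x → ε ≤ h x) :
    volume {x : ℝ | x ∈ Set.Icc (0 : ℝ) 1 ∧ P x} ≤
      ENNReal.ofReal ((∫ x in (0 : ℝ)..1, h x) / ε) := by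
  have h1 := mul_meas_ge_le_integral_of_nonneg (μ := volume.restrict (Set.Icc (0 : ℝ) 1)) (f := h)
    (Filter.Eventually.of_forall h0) hc.integrableOn_Icc ε
  rw [intervalIntegral.integral_of_le zero_le_one, ← integral_Icc_eq_integral_Ioc]
  have h2 : volume {x : ℝ | x ∈ Set.Icc (0 : ℝ) 1 ∧ P x} ≤
      volume.restrict (Set.Icc (0 : ℝ) 1) {x | ε ≤ h x} := by
    rw [Measure.restrict_apply' measurableSet_Icc]
    exact measure_mono fun x hx => ⟨hP x hx.2, hx.1⟩
  refine h2.trans ?_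
  rw [← ofReal_measureReal (measure_ne_top _ _)]
  apply ENNReal.ofReal_le_ofReal
  rw [le_div_iff₀ hε, mul_comm]
  exact h1

theorem exists_DD (J : ℕ) : ∃ m : ℕ, 0 < m ∧ (DD m ^ 2) ^ J ≤ 2 := by
  have h1 : Filter.Tendsto (fun m : ℕ => al m) Filter.atTop (nhds 0) := by
    have := tendsto_const_div_atTop_nhds_zero_nat (π / 2)
    refine this.congr fun m => ?_
    unfold al
    ring
  have h2 : ContinuousAt (fun y : ℝ => ((1 / cos (y / 2)) ^ 2) ^ J) 0 := by
    refine ContinuousAt.pow (ContinuousAt.pow (ContinuousAt.div continuousAt_const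
      (by fun_prop) (by simp)) _) _
  have h3 := h2.tendsto.comp h1
  simp only [zero_div, cos_zero, div_one, one_pow] at h3
  obtain ⟨m, hm⟩ := ((h3.eventually (ge_mem_nhds one_lt_two)).and
    (Filter.eventually_gt_atTop 0)).exists
  exact ⟨m, hm.2, hm.1⟩

theorem exists_RJ {δ : ℝ} (hδ : 0 < δ) : ∃ R J : ℕ, 0 < R ∧
    3 / R * (3 / 2 : ℝ) ^ J + 2 * (3 / 2 - 1 / (16000 * R ^ 4)) ^ J ≤ δ * (3 / 2) ^ J := by
  obtain ⟨R, hR⟩ := exists_nat_gt (6 / δ)
  have hR0 : (0 : ℝ) < R := lt_trans (by positivity) hR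
  have hR1 : (1 : ℝ) ≤ R := by
    have : 0 < R := by exact_mod_cast hR0
    exact_mod_cast this
  have hq : (1 : ℝ) - 1 / (24000 * R ^ 4) < 1 := by
    have : (0 : ℝ) < 1 / (24000 * R ^ 4) := by positivity
    linarith
  obtain ⟨J, hJ⟩ := exists_pow_lt_of_lt_one (by positivity : 0 < δ / 4) hq
  refine ⟨R, J, by exact_mod_cast hR0, ?_⟩
  have e : (3 / 2 - 1 / (16000 * R ^ 4) : ℝ) = (1 - 1 / (24000 * R ^ 4)) * (3 / 2) := by
    field_simp
    ring
  have h3 : (3 : ℝ) / R ≤ δ / 2 := by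
    rw [div_lt_iff₀ hδ] at hR
    rw [div_le_iff₀ hR0]
    linarith
  rw [e, mul_pow, ← mul_assoc, ← add_mul]
  exact mul_le_mul_of_nonneg_right (by linarith) (by positivity)

theorem poly_image (Q : Finset ℤ) (o : ℤ) (a : ℤ → ℂ) (x : ℝ) :
    ‖poly (Q.image (· + o)) a x‖ = ‖poly Q (fun k => a (k + o)) x‖ := by
  have : poly (Q.image (· + o)) a x = poly Q (fun k => a (k + o)) x * ee o x := by
    rw [poly, sum_image (fun a _ b _ h => add_right_cancel h)]
    simp only [poly, ee_add_left, sum_mul, mul_assoc]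
  rw [this, norm_mul, norm_ee, mul_one]

theorem block {ε K : ℝ} (hε : 0 < ε) (hK : 0 < K) {n : ℤ} (hn : n ≠ 0) (o : ℤ) :
    ∃ (T : Finset ℤ) (μ : ℤ → ℂ), (∀ k ∈ T, n ∣ k - o) ∧ (∀ k, k ∉ T → μ k = 0) ∧
    (∀ (S : Finset ℤ) (c : ℤ → ℂ) (t : ℝ), 0 < t →
      volume {x : ℝ | x ∈ Set.Icc (0 : ℝ) 1 ∧ t < ‖poly S (fun k => μ k * c k) x‖} ≤
        ENNReal.ofReal (ε * (∑ k ∈ S, ‖c k‖ ^ 2) ^ 2 / t ^ 4)) ∧
    ∃ (c : ℤ → ℂ) (B : ℝ), 0 < B ∧ ∫ x in (0 : ℝ)..1, ‖poly T c x‖ ^ 4 ≤ B ∧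
      K * B ≤ ∫ x in (0 : ℝ)..1, ‖poly T (fun k => μ k * c k) x‖ ^ 4 := by
  obtain ⟨R, J, hR, hRJ⟩ := exists_RJ (δ := ε / (32 * K)) (by positivity)
  obtain ⟨m, hm, hD⟩ := exists_DD J
  obtain ⟨σ, τ, hσ, -, hRS⟩ := rudin_shapiro (M := 4 * m) (by omega) J n hn
  set Q := cube (4 * m) J n with hQ
  set κ : ℝ := √(√(4 * K / (3 / 2) ^ J)) with hκ
  have hκ0 : 0 ≤ κ := sqrt_nonneg _
  have hκ4 : κ ^ 4 = 4 * K / (3 / 2) ^ J := by
    rw [show 4 = 2 * 2 by rfl, pow_mul, hκ, sq_sqrt (sqrt_nonneg _), sq_sqrt (by positivity)]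
  have hσn : ∀ k, ‖σ k‖ = 1 := fun k => by rcases hσ k with h | h <;> simp [h]
  have hσ2 : ∀ k, σ k * σ k = 1 := fun k => by rcases hσ k with h | h <;> simp [h]
  set T := Q.image (· + o) with hT
  refine ⟨T, fun k => if k ∈ T then κ * σ (k - o) else 0, ?_, fun k hk => if_neg hk, ?_,
    fun k => σ (k - o), 4 * 4 ^ J, by positivity, ?_, ?_⟩
  · intro k hk
    obtain ⟨l, hl, rfl⟩ := mem_image.1 hk
    rw [add_sub_cancel_right]
    exact dvd_of_mem_cube hl
  · intro S c t ht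
    set b : ℤ → ℂ := fun k => if k ∈ S then κ * σ (k - o) * c k else 0 with hb
    have e1 : ∀ x, poly S (fun k => (if k ∈ T then κ * σ (k - o) else 0) * c k) x =
        poly T b x := by
      intro x
      simp only [poly, hb, ite_mul, zero_mul, sum_ite_mem, inter_comm]
    have e2 : ∑ k ∈ Q, ‖b (k + o)‖ ^ 2 ≤ κ ^ 2 * ∑ k ∈ S, ‖c k‖ ^ 2 := by
      rw [← sum_image (g := (· + o)) (f := fun k => ‖b k‖ ^ 2)
        (fun a _ b _ h => add_right_cancel h), ← hT, mul_sum]
      calc ∑ k ∈ T, ‖b k‖ ^ 2 = ∑ k ∈ T, if k ∈ S then κ ^ 2 * ‖c k‖ ^ 2 else 0 := by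
            refine sum_congr rfl fun k _ => ?_
            simp only [hb]
            split_ifs
            · rw [norm_mul, norm_mul, hσn, Complex.norm_real, Real.norm_of_nonneg hκ0]
              ring
            · simp
        _ ≤ _ := by
            rw [sum_ite_mem]
            exact sum_le_sum_of_subset_of_nonneg inter_subset_right fun _ _ _ => by positivity
    have hf1 : ConvexOn ℝ Set.univ (fun y : ℝ => max (y - t ^ 2 / 2) 0) :=
      ((convexOn_id convex_univ).sub (concaveOn_const _ convex_univ)).sup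
        (convexOn_const 0 convex_univ)
    have hf2 : Monotone (fun y : ℝ => max (y - t ^ 2 / 2) 0) := fun y z h => by
      dsimp only
      gcongr
    have d := dominate hm J Unit (fun _ k => b (k + o)) n _ hn hf1 hf2 (by fun_prop)
    simp only [univ_unique, sum_singleton, ← hQ] at d
    have a := anticonc hm hR J (μ := t ^ 2 / 2) (x := ∑ k ∈ Q, ‖b (k + o)‖ ^ 2) (by positivity)
      (by positivity)
    refine (markov (h := fun x => max (‖poly Q (fun k => b (k + o)) x‖ ^ 2 - t ^ 2 / 2) 0)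
      (by fun_prop) (fun x => le_max_right _ _) (ε := t ^ 2 / 2) (by positivity) _ ?_).trans
      (ENNReal.ofReal_le_ofReal ?_)
    · intro x hx
      rw [e1, hT, poly_image] at hx
      refine le_max_of_le_left ?_
      nlinarith
    · rw [div_le_iff₀ (by positivity)]
      refine (d.trans a).trans ?_
      set X := ∑ k ∈ S, ‖c k‖ ^ 2 with hX
      have hq : (0 : ℝ) ≤ 3 / 2 - 1 / (16000 * R ^ 4) := by
        have hR' : (1 : ℝ) ≤ R := by exact_mod_cast hR
        have : (1 : ℝ) / (16000 * R ^ 4) ≤ 1 := by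
          rw [div_le_one (by positivity)]
          nlinarith [one_le_pow₀ (n := 4) hR']
        linarith
      calc _ ≤ (κ ^ 2 * X) ^ 2 / (t ^ 2 / 2) * 2 * (ε / (32 * K) * (3 / 2) ^ J) := by
            gcongr
        _ = κ ^ 4 * (3 / 2) ^ J * (X ^ 2 / t ^ 2 * ε / (8 * K)) := by
            field_simp
            ring
        _ = _ := by
            rw [hκ4]
            field_simp
            ring
  · have : ∀ x ∈ Set.Icc (0 : ℝ) 1, ‖poly T (fun k => σ (k - o)) x‖ ^ 4 ≤ 4 * 4 ^ J := by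
      intro x _
      rw [hT, poly_image]
      simp only [add_sub_cancel_right]
      have h1 : ‖poly Q σ x‖ ^ 2 ≤ 2 * 2 ^ J := by
        linarith [hRS x, sq_nonneg ‖poly Q τ x‖]
      calc ‖poly Q σ x‖ ^ 4 = (‖poly Q σ x‖ ^ 2) ^ 2 := by ring
        _ ≤ (2 * 2 ^ J) ^ 2 := by gcongr
        _ = _ := by rw [mul_pow, ← pow_mul, mul_comm J, pow_mul]; norm_num
    simpa using intervalIntegral.integral_mono_on (μ := volume) zero_le_one
      (Continuous.intervalIntegrable (by fun_prop) _ _)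
      (Continuous.intervalIntegrable continuous_const _ _) this
  · have : ∀ x, ‖poly T (fun k => (if k ∈ T then κ * σ (k - o) else 0) * σ (k - o)) x‖ ^ 4 =
        κ ^ 4 * ‖poly Q (fun _ => 1) x‖ ^ 4 := by
      intro x
      have e : poly T (fun k => (if k ∈ T then κ * σ (k - o) else 0) * σ (k - o)) x =
          κ * poly T (fun _ => 1) x := by
        rw [poly, poly, mul_sum]
        refine sum_congr rfl fun k hk => ?_
        rw [if_pos hk, mul_assoc (κ : ℂ), hσ2, mul_assoc]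
      rw [e, norm_mul, hT, poly_image, mul_pow, Complex.norm_real, Real.norm_of_nonneg hκ0]
    simp only [this]
    rw [intervalIntegral.integral_const_mul, hQ, strong_lower hm J n hn, hκ4,
      show (6 : ℝ) = 3 / 2 * 4 by norm_num, mul_pow]
    apply le_of_eq
    field_simp

theorem main : ∃ m : ℤ → ℂ, (∀ (S : Finset ℤ) (c : ℤ → ℂ) (t : ℝ), 0 < t →
      volume {x : ℝ | x ∈ Set.Icc (0 : ℝ) 1 ∧ t < ‖poly S (fun k => m k * c k) x‖} ≤
        ENNReal.ofReal (1 * (∫ x in (0 : ℝ)..1, ‖poly S c x‖ ^ 4) / t ^ 4)) ∧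
    ∀ C : ℝ, ∃ (S : Finset ℤ) (c : ℤ → ℂ), C * ∫ x in (0 : ℝ)..1, ‖poly S c x‖ ^ 4 <
      ∫ x in (0 : ℝ)..1, ‖poly S (fun k => m k * c k) x‖ ^ 4 := by
  have hb := fun i : ℕ => block (ε := 1 / 32 ^ (i + 1)) (K := i + 1) (by positivity)
    (by positivity) (n := 2 ^ (i + 1)) (by positivity) (2 ^ i)
  choose T μ h1 h2 h3 h4 using hb
  have lt : ∀ i j k, i < j → k ∈ T i → k ∉ T j := by
    intro i j k hij hi hj
    have a1 : (2 : ℤ) ^ (i + 1) ∣ k - 2 ^ j := (pow_dvd_pow 2 (by omega)).trans (h1 j k hj)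
    have a2 : (2 : ℤ) ^ (i + 1) ∣ 2 ^ j := pow_dvd_pow 2 hij
    have a3 : (2 : ℤ) ^ (i + 1) ∣ 2 ^ i := by
      have := dvd_sub (dvd_add a1 a2) (h1 i k hi)
      rwa [show k - 2 ^ j + 2 ^ j - (k - 2 ^ i) = (2 : ℤ) ^ i by ring] at this
    have := Int.le_of_dvd (by positivity) a3
    have h : (0 : ℤ) < 2 ^ i := by positivity
    rw [pow_succ] at this
    linarith
  have uniq : ∀ i j k, k ∈ T i → k ∈ T j → i = j := by
    intro i j k hi hj
    rcases lt_trichotomy i j with h | h | h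
    · exact absurd hj (lt i j k h hi)
    · exact h
    · exact absurd hi (lt j i k h hj)
  obtain ⟨idx, hidx⟩ : ∃ idx : ℤ → ℕ, ∀ k i, k ∈ T i → idx k = i := by
    classical
    refine ⟨fun k => if h : ∃ i, k ∈ T i then h.choose else 0, fun k i hk => ?_⟩
    have h : ∃ i, k ∈ T i := ⟨i, hk⟩
    simp only [dif_pos h]
    exact uniq _ _ k h.choose_spec hk
  refine ⟨fun k => μ (idx k) k, fun S c t ht => ?_, fun C => ?_⟩
  · set I := S.image idx with hI
    have e : ∀ x, poly S (fun k => μ (idx k) k * c k) x =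
        ∑ i ∈ I, poly S (fun k => μ i k * c k) x := by
      intro x
      simp only [poly]
      rw [sum_comm]
      refine sum_congr rfl fun k hk => ?_
      rw [sum_eq_single (idx k)]
      · intro i _ hi
        rw [h2 i k (fun h => hi (hidx k i h).symm), zero_mul, zero_mul]
      · intro h
        exact absurd (mem_image_of_mem idx hk) h
    have geo : ∀ a : ℝ, 0 ≤ a → ∑ i ∈ I, a / 2 / 2 ^ i ≤ a := fun a ha =>
      sum_le_hasSum I (fun _ _ => by positivity) (hasSum_geometric_two' a)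
    have sub : {x : ℝ | x ∈ Set.Icc (0 : ℝ) 1 ∧ t < ‖poly S (fun k => μ (idx k) k * c k) x‖} ⊆
        ⋃ i ∈ I, {x : ℝ | x ∈ Set.Icc (0 : ℝ) 1 ∧
          t / 2 / 2 ^ i < ‖poly S (fun k => μ i k * c k) x‖} := by
      intro x hx
      by_contra hne
      simp only [Set.mem_iUnion, Set.mem_ofPred_eq, not_exists, not_and, not_lt] at hne
      have := (norm_sum_le_of_le I fun i hi => hne i hi hx.1).trans (geo t ht.le)
      rw [← e] at this
      exact absurd hx.2 (not_lt.2 this)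
    set X := ∑ k ∈ S, ‖c k‖ ^ 2 with hX
    refine (measure_mono sub).trans ((measure_biUnion_finset_le _ _).trans ?_)
    refine (sum_le_sum fun i _ => h3 i S c _ (by positivity)).trans ?_
    rw [← ENNReal.ofReal_sum_of_nonneg (fun _ _ => by positivity)]
    apply ENNReal.ofReal_le_ofReal
    have e2 : ∀ i ∈ I, 1 / 32 ^ (i + 1) * X ^ 2 / (t / 2 / 2 ^ i) ^ 4 =
        X ^ 2 / t ^ 4 / 2 / 2 ^ i := by
      intro i _
      rw [show (32 : ℝ) = 2 ^ 5 by norm_num, ← pow_mul]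
      field_simp
      ring
    rw [sum_congr rfl e2]
    refine (geo _ (by positivity)).trans ?_
    rw [one_mul]
    refine div_le_div_of_nonneg_right ?_ (by positivity)
    have := sq_integral_le (h := fun x => ‖poly S c x‖ ^ 2) (by fun_prop)
    rw [parseval] at this
    simpa only [← pow_mul] using this
  · obtain ⟨i, hi⟩ := exists_nat_ge |C|
    obtain ⟨c, B, hB, b1, b2⟩ := h4 i
    refine ⟨T i, c, ?_⟩
    have e : ∀ x, poly (T i) (fun k => μ (idx k) k * c k) x =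
        poly (T i) (fun k => μ i k * c k) x :=
      fun x => sum_congr rfl fun k hk => by simp only [hidx k i hk]
    simp only [e]
    have h0 : 0 ≤ ∫ x in (0 : ℝ)..1, ‖poly (T i) c x‖ ^ 4 :=
      intervalIntegral.integral_nonneg zero_le_one fun _ _ => by positivity
    refine lt_of_lt_of_le ?_ b2
    calc _ ≤ i * ∫ x in (0 : ℝ)..1, ‖poly (T i) c x‖ ^ 4 :=
          mul_le_mul_of_nonneg_right ((le_abs_self C).trans hi) h0
      _ ≤ i * B := by gcongr
      _ < _ := by linarith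

end Pool.Agent.P.MP_f33f0c_an
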