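import Mathlib
import Pool.Agent.P.MP_f33f0c_an.AllP2

/-! Anti-concentration with the sharp rate, and the log-smoothness of the moments. -/

set_option autoImplicit false

namespace Pool.Agent.P.MP_f33f0c_an.Lor

open Real Finset Pool.Agent.P.MP_f33f0c_an.AllP

theorem fejer_nonneg (N : ℕ) (u : ℝ) :
    0 ≤ ∑ p ∈ range N ×ˢ range N, cos (((p.1 : ℝ) - p.2) * u) := by
  have : ∑ p ∈ range N ×ˢ range N, cos (((p.1 : ℝ) - p.2) * u) =
      (∑ j ∈ range N, cos (j * u)) ^ 2 + (∑ j ∈ range N, sin (j * u)) ^ 2 := by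
    rw [sq, sq, sum_mul_sum, sum_mul_sum, ← sum_add_distrib, sum_product]
    refine sum_congr rfl fun i _ => ?_
    rw [← sum_add_distrib]
    refine sum_congr rfl fun j _ => ?_
    rw [sub_mul, cos_sub]
  rw [this]
  positivity

theorem abs_tau {N : ℕ} {p : ℕ × ℕ} (hp : p ∈ range N ×ˢ range N) :
    |((p.1 : ℝ) - p.2) / (2 * N)| ≤ 1 / 2 := by
  obtain ⟨h1, h2⟩ := mem_product.1 hp
  have h0 : (0 : ℝ) < N := by exact_mod_cast (Nat.zero_le _).trans_lt (mem_range.1 h1)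
  have h3 : (p.1 : ℝ) ≤ N := by exact_mod_cast (mem_range.1 h1).le
  have h4 : (p.2 : ℝ) ≤ N := by exact_mod_cast (mem_range.1 h2).le
  have h5 : (0 : ℝ) ≤ p.1 := Nat.cast_nonneg _
  have h6 : (0 : ℝ) ≤ p.2 := Nat.cast_nonneg _
  rw [abs_div, abs_of_pos (by positivity : (0 : ℝ) < 2 * N), div_le_iff₀ (by positivity), abs_le]
  constructor <;> linarith

theorem fejer_ge (N : ℕ) {v : ℝ} (hv : |v| ≤ 1) :
    (N : ℝ) ^ 2 / 2 ≤ ∑ p ∈ range N ×ˢ range N, cos (((p.1 : ℝ) - p.2) / (2 * N) * v) := by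
  have : ∑ _p ∈ range N ×ˢ range N, (1 / 2 : ℝ) = (N : ℝ) ^ 2 / 2 := by
    simp only [sum_const, card_product, card_range, nsmul_eq_mul]
    push_cast
    ring
  rw [← this]
  refine sum_le_sum fun p hp => le_trans ?_ one_sub_sq_div_two_le_cos
  have h : |((p.1 : ℝ) - p.2) / (2 * N) * v| ≤ 1 / 2 * 1 := by
    rw [abs_mul]
    exact mul_le_mul (abs_tau hp) hv (abs_nonneg _) (by norm_num)
  nlinarith [sq_abs (((p.1 : ℝ) - p.2) / (2 * N) * v), abs_nonneg (((p.1 : ℝ) - p.2) / (2 * N) * v)]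

/-- the coefficient of the majorant -/
noncomputable def co (a τ : ℝ) : ℂ :=
  (1 - ((exp (-a) : ℝ) : ℂ) * Complex.exp (((-τ : ℝ) : ℂ) * Complex.I))⁻¹

theorem norm_ratio (a τ : ℝ) :
    ‖((exp (-a) : ℝ) : ℂ) * Complex.exp (((-τ : ℝ) : ℂ) * Complex.I)‖ = exp (-a) := by
  rw [norm_mul, Complex.norm_exp_ofReal_mul_I, Complex.norm_real, mul_one,
    Real.norm_of_nonneg (exp_pos _).le]

theorem norm_co {a : ℝ} (ha : 0 < a) (τ : ℝ) : ‖co a τ‖ ≤ (1 - exp (-a))⁻¹ := by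
  have h1 : exp (-a) < 1 := exp_lt_one_iff.2 (by linarith)
  rw [co, norm_inv]
  refine inv_anti₀ (by linarith) ?_
  have := norm_sub_norm_le (1 : ℂ) (((exp (-a) : ℝ) : ℂ) * Complex.exp (((-τ : ℝ) : ℂ) * Complex.I))
  rwa [norm_ratio, norm_one] at this

theorem hasSum_co {a : ℝ} (ha : 0 < a) (τ v : ℝ) :
    HasSum (fun k : ℕ => exp (-a) ^ k * cos (τ * (v - k)))
      (co a τ * Complex.exp (((τ * v : ℝ) : ℂ) * Complex.I)).re := by
  have h := (hasSum_geometric_of_norm_lt_one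
    (ξ := ((exp (-a) : ℝ) : ℂ) * Complex.exp (((-τ : ℝ) : ℂ) * Complex.I))
    (by rw [norm_ratio]; exact exp_lt_one_iff.2 (by linarith))).mul_right
    (Complex.exp (((τ * v : ℝ) : ℂ) * Complex.I))
  have h2 := Complex.reCLM.hasSum h
  simp only [Complex.reCLM_apply] at h2
  refine (congrArg (HasSum · _) (funext fun k => ?_)).mp h2
  rw [mul_pow, ← Complex.exp_nat_mul, mul_assoc, ← Complex.exp_add, ← Complex.ofReal_pow,
    Complex.re_ofReal_mul, ← Complex.exp_ofReal_mul_I_re]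
  congr 3
  push_cast
  ring

theorem majorant {N : ℕ} (hN : 0 < N) {a v : ℝ} (ha : 0 < a) :
    (if 0 ≤ v then exp (-(a * v)) else 0) ≤ ∑ p ∈ range N ×ˢ range N, 2 / (N : ℝ) ^ 2 *
      (co a (((p.1 : ℝ) - p.2) / (2 * N)) *
        Complex.exp ((((((p.1 : ℝ) - p.2) / (2 * N)) * v : ℝ) : ℂ) * Complex.I)).re := by
  have hN' : (0 : ℝ) < N := by exact_mod_cast hN
  have h := hasSum_sum (s := range N ×ˢ range N) fun p _ =>
    (hasSum_co ha (((p.1 : ℝ) - p.2) / (2 * N)) v).mul_left (2 / (N : ℝ) ^ 2)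
  have e : ∀ k : ℕ, ∑ p ∈ range N ×ˢ range N,
      2 / (N : ℝ) ^ 2 * (exp (-a) ^ k * cos (((p.1 : ℝ) - p.2) / (2 * N) * (v - k))) =
      2 / (N : ℝ) ^ 2 * exp (-a) ^ k *
        ∑ p ∈ range N ×ˢ range N, cos (((p.1 : ℝ) - p.2) / (2 * N) * (v - k)) := fun k => by
    rw [mul_sum]
    exact sum_congr rfl fun p _ => by ring
  simp only [e] at h
  have h0 : ∀ k : ℕ, 0 ≤ 2 / (N : ℝ) ^ 2 * exp (-a) ^ k *
      ∑ p ∈ range N ×ˢ range N, cos (((p.1 : ℝ) - p.2) / (2 * N) * (v - k)) := fun k => by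
    have := fejer_nonneg N ((v - k) / (2 * N))
    refine mul_nonneg (by positivity) (this.trans (le_of_eq (sum_congr rfl fun p _ => ?_)))
    congr 1
    ring
  split_ifs with hv
  · refine le_trans ?_ (le_hasSum h ⌊v⌋₊ fun k _ => h0 k)
    have h1 := Nat.floor_le hv
    have h2 := Nat.lt_floor_add_one v
    have h3 := fejer_ge N (v := v - ⌊v⌋₊) (by rw [abs_le]; constructor <;> linarith)
    calc exp (-(a * v)) ≤ exp (-a) ^ ⌊v⌋₊ := by
          rw [← exp_nat_mul, exp_le_exp]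
          nlinarith
      _ = 2 / (N : ℝ) ^ 2 * exp (-a) ^ ⌊v⌋₊ * ((N : ℝ) ^ 2 / 2) := by field_simp
      _ ≤ _ := by gcongr
  · exact h.nonneg h0

theorem row_sum {c : ℝ} (hc : 0 < c) : ∃ C : ℝ, 0 < C ∧ ∀ (N j : ℕ),
    ∑ l ∈ range N, 1 / (1 + c * ((j : ℝ) - l) ^ 2) ≤ C := by
  have hs : Summable fun d : ℤ => 1 / (1 + c * (d : ℝ) ^ 2) := by
    refine Summable.of_norm_bounded_eventually
      ((Real.summable_one_div_int_pow.2 one_lt_two).mul_left c⁻¹) ?_
    filter_upwards [(Set.finite_singleton (0 : ℤ)).compl_mem_cofinite] with d hd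
    have hd' : (d : ℝ) ≠ 0 := by exact_mod_cast hd
    rw [Real.norm_of_nonneg (by positivity), one_div, one_div, ← mul_inv]
    exact inv_anti₀ (by positivity) (by linarith)
  refine ⟨_, hs.tsum_pos (fun d => by positivity) 0 (by positivity), fun N j => ?_⟩
  have := hs.sum_le_tsum ((range N).image fun l : ℕ => (j : ℤ) - l) fun d _ => by positivity
  rw [sum_image fun a _ b _ h => by simpa using h] at this
  simpa using this

theorem pow_le_inv {x : ℝ} (h0 : 0 ≤ x) (h1 : x ≤ 1) (J : ℕ) : (1 - x) ^ J ≤ 1 / (1 + J * x) := by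
  rw [le_div_iff₀ (by positivity)]
  calc (1 - x) ^ J * (1 + J * x) ≤ (1 - x) ^ J * (1 + x) ^ J :=
        mul_le_mul_of_nonneg_left (one_add_mul_le_pow (by linarith) J) (pow_nonneg (by linarith) J)
    _ = (1 - x ^ 2) ^ J := by rw [← mul_pow]; congr 1; ring
    _ ≤ 1 := pow_le_one₀ (by nlinarith) (by nlinarith)

theorem anticonc {q₁ q₂ : ℝ} (h₁ : 1 < q₁) : ∃ C : ℝ, 0 < C ∧ ∀ (m L : ℕ) (q μ x : ℝ), 0 < m →
    0 < L → q₁ ≤ q → q ≤ q₂ → 0 < μ → 0 ≤ x → (V m)^[L ^ 2] (fun y => max (y - μ) 0) x ≤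
      x ^ q * μ ^ (1 - q) * (DD m ^ q) ^ L ^ 2 * mom m q ^ L ^ 2 * (C / L) := by
  set c : ℝ := (29 / 200) ^ q₂ / 400 with hc
  have hc0 : 0 < c := by positivity
  obtain ⟨C, hC0, hC⟩ := row_sum (c := c / 4) (by positivity)
  have ha : 0 < q₁ - 1 := by linarith
  have hE : 0 < (1 - exp (-(q₁ - 1)))⁻¹ := inv_pos.2 (sub_pos.2 (exp_lt_one_iff.2 (by linarith)))
  set E := (1 - exp (-(q₁ - 1)))⁻¹ with hEd
  refine ⟨2 * E * C, by positivity, fun m L q μ x hm hL hq1 hq2 hμ hx => ?_⟩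
  have hL' : (0 : ℝ) < L := by exact_mod_cast hL
  have hD := one_le_DD hm
  have hM1 := one_le_mom hm (by linarith : 1 ≤ q)
  have hM2 := mom_le hm (by linarith : 0 ≤ q)
  have h := iter_le_q hm (by linarith : 0 < q) (range L ×ˢ range L)
    (fun p => ((p.1 : ℝ) - p.2) / (2 * L)) (L ^ 2) (fun y => max (y - μ) 0)
    (fun p => ((2 / (L : ℝ) ^ 2 * μ ^ (1 - q) : ℝ) : ℂ) *
      (co (q₁ - 1) (((p.1 : ℝ) - p.2) / (2 * L)) *
      Complex.exp (((-(((p.1 : ℝ) - p.2) / (2 * L) * log μ) : ℝ) : ℂ) * Complex.I))) ?_ x hx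
  · refine h.trans ((Complex.re_le_norm _).trans ?_)
    refine (norm_sum_le_of_le _ (n := fun p => x ^ q * μ ^ (1 - q) * (DD m ^ q) ^ L ^ 2 *
      mom m q ^ L ^ 2 * (2 / (L : ℝ) ^ 2 * E * (1 / (1 + c / 4 * ((p.1 : ℝ) - p.2) ^ 2))))
      ?_).trans ?_
    · intro p hp
      have hτ := abs_tau hp
      have hφ := norm_phiq_le hm (by linarith : 0 ≤ q) hτ
      set τ := ((p.1 : ℝ) - p.2) / (2 * L) with hτd
      have c1 : c ≤ (29 / 200) ^ q / 400 := by
        rw [hc]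
        gcongr ?_ / _
        exact rpow_le_rpow_of_exponent_ge (by norm_num) (by norm_num) hq2
      have c2 : (29 / 200 : ℝ) ^ q ≤ 1 := rpow_le_one (by norm_num) (by norm_num) (by linarith)
      have c3 : τ ^ 2 ≤ 1 := by nlinarith [sq_abs τ, abs_nonneg τ]
      have c4 : mom m q * (c * τ ^ 2) ≤ (29 / 100) ^ q * τ ^ 2 / 400 := by
        calc _ ≤ 2 ^ q * ((29 / 200) ^ q / 400 * τ ^ 2) := by gcongr
          _ = (2 ^ q * (29 / 200) ^ q) * τ ^ 2 / 400 := by ring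
          _ = _ := by rw [← mul_rpow (by norm_num) (by norm_num)]; norm_num
      have c5 : ‖phiq m q τ‖ ^ L ^ 2 ≤
          mom m q ^ L ^ 2 * (1 / (1 + c / 4 * ((p.1 : ℝ) - p.2) ^ 2)) := by
        have := pow_le_inv (x := c * τ ^ 2) (by positivity) (by nlinarith) (L ^ 2)
        have e : ((L ^ 2 : ℕ) : ℝ) * (c * τ ^ 2) = c / 4 * ((p.1 : ℝ) - p.2) ^ 2 := by
          rw [hτd]
          push_cast
          field_simp
          ring
        rw [e] at this
        refine le_trans ?_ (mul_le_mul_of_nonneg_left this (by positivity))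
        rw [← mul_pow]
        exact pow_le_pow_left₀ (norm_nonneg _) (by linarith) _
      have c6 := norm_co ha τ
      rw [norm_mul, norm_mul, norm_mul, norm_mul, norm_pow, norm_mul, norm_chiq _ _ hx,
        norm_chiq _ _ (by linarith), Complex.norm_exp_ofReal_mul_I, Complex.norm_real, mul_pow,
        Real.norm_of_nonneg (by positivity)]
      calc _ = x ^ q * μ ^ (1 - q) * (DD m ^ q) ^ L ^ 2 * (2 / (L : ℝ) ^ 2) *
            (‖co (q₁ - 1) τ‖ * ‖phiq m q τ‖ ^ L ^ 2) := by ring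
        _ ≤ x ^ q * μ ^ (1 - q) * (DD m ^ q) ^ L ^ 2 * (2 / (L : ℝ) ^ 2) *
            (E * (mom m q ^ L ^ 2 * (1 / (1 + c / 4 * ((p.1 : ℝ) - p.2) ^ 2)))) := by gcongr
        _ = _ := by ring
    · rw [← mul_sum, ← mul_sum, sum_product]
      gcongr
      calc _ ≤ 2 / (L : ℝ) ^ 2 * E * ∑ _j ∈ range L, C := by
            gcongr with j _
            exact hC L j
        _ = _ := by
            rw [sum_const, card_range, nsmul_eq_mul]
            field_simp
  · intro y hy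
    have hmaj := majorant hL (v := log y - log μ) ha
    have e : (∑ p ∈ range L ×ˢ range L, ((2 / (L : ℝ) ^ 2 * μ ^ (1 - q) : ℝ) : ℂ) *
        (co (q₁ - 1) (((p.1 : ℝ) - p.2) / (2 * L)) *
        Complex.exp (((-(((p.1 : ℝ) - p.2) / (2 * L) * log μ) : ℝ) : ℂ) * Complex.I)) *
        chiq q (((p.1 : ℝ) - p.2) / (2 * L)) y).re = y ^ q * μ ^ (1 - q) *
        ∑ p ∈ range L ×ˢ range L, 2 / (L : ℝ) ^ 2 * (co (q₁ - 1) (((p.1 : ℝ) - p.2) / (2 * L)) *
        Complex.exp ((((((p.1 : ℝ) - p.2) / (2 * L)) * (log y - log μ) : ℝ) : ℂ) *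
          Complex.I)).re := by
      rw [Complex.re_sum, mul_sum]
      refine sum_congr rfl fun p _ => ?_
      generalize ((p.1 : ℝ) - p.2) / (2 * L) = τ
      rw [← mul_assoc (y ^ q * _), ← Complex.re_ofReal_mul, chiq,
        show ((τ * (log y - log μ) : ℝ) : ℂ) * Complex.I =
          ((-(τ * log μ) : ℝ) : ℂ) * Complex.I + ((τ * log y : ℝ) : ℂ) * Complex.I by
            push_cast; ring, Complex.exp_add]
      congr 1
      push_cast
      ring
    rw [e]
    refine le_trans ?_ (mul_le_mul_of_nonneg_left hmaj (by positivity))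
    rcases le_or_gt y μ with hyμ | hyμ
    · rw [max_eq_right (by linarith)]
      split_ifs <;> positivity
    · have hy0 : 0 < y := by linarith
      have hv : 0 ≤ log y - log μ := sub_nonneg.2 (log_le_log hμ hyμ.le)
      rw [if_pos hv, max_eq_left (by linarith)]
      calc y - μ ≤ y := by linarith
        _ = y ^ q * μ ^ (1 - q) * exp (-((q - 1) * (log y - log μ))) := by
            rw [rpow_def_of_pos hy0, rpow_def_of_pos hμ, ← exp_add, ← exp_add]
            conv_lhs => rw [← exp_log hy0]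
            congr 1
            ring
        _ ≤ _ := by gcongr

theorem sinh_scale {ε w : ℝ} (h0 : 0 ≤ ε) (h1 : ε ≤ 1) : sinh (ε * w) ^ 2 ≤ ε ^ 2 * sinh w ^ 2 := by
  have key : ∀ w : ℝ, 0 ≤ w → sinh (ε * w) ≤ ε * sinh w := fun w hw => by
    have hd : ∀ z, HasDerivAt (fun z => ε * sinh z - sinh (ε * z))
        (ε * cosh z - cosh (ε * z) * ε) z := fun z => by
      have h := ((hasDerivAt_id' z).const_mul ε).sinh
      rw [mul_one] at h
      exact ((hasDerivAt_sinh z).const_mul ε).sub h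
    have := monotone_of_deriv_nonneg (fun z => (hd z).differentiableAt) (fun z => by
      rw [(hd z).deriv]
      have : cosh (ε * z) ≤ cosh z := cosh_le_cosh.2 (by
        rw [abs_mul, abs_of_nonneg h0]
        exact mul_le_of_le_one_left (abs_nonneg _) h1)
      nlinarith) hw
    simpa using this
  rw [← mul_pow, ← sq_abs, ← sq_abs (ε * sinh w), abs_sinh, abs_mul, abs_mul, abs_of_nonneg h0,
    abs_sinh]
  exact pow_le_pow_left₀ (sinh_nonneg_iff.2 (by positivity)) (key _ (abs_nonneg _)) 2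

theorem pair_le {q ε a b : ℝ} (h0 : 0 ≤ ε) (h1 : ε ≤ 1) (hq : 1 ≤ q) (hq' : ε < q) (ha : 0 ≤ a)
    (ha' : a ≤ 2) (hb : 0 ≤ b) (hb' : b ≤ 2) :
    a ^ (q + ε) * b ^ (q - ε) + b ^ (q + ε) * a ^ (q - ε) ≤
      2 * (a ^ q * b ^ q) + 2 * ε ^ 2 * 4 ^ q := by
  rcases ha.eq_or_lt with rfl | ha
  · rw [zero_rpow (by linarith), zero_rpow (by linarith), zero_rpow (by linarith)]
    simp only [zero_mul, mul_zero, zero_add]
    positivity
  rcases hb.eq_or_lt with rfl | hb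
  · rw [zero_rpow (by linarith), zero_rpow (by linarith), zero_rpow (by linarith)]
    simp only [zero_mul, mul_zero, zero_add]
    positivity
  have e : ∀ δ : ℝ, a ^ (q + δ) * b ^ (q - δ) + b ^ (q + δ) * a ^ (q - δ) =
      2 * (a ^ q * b ^ q) + 4 * (a ^ q * b ^ q) * sinh (δ * ((log a - log b) / 2)) ^ 2 := by
    intro δ
    have : 2 + 4 * sinh (δ * ((log a - log b) / 2)) ^ 2 =
        exp (δ * (log a - log b)) + exp (-(δ * (log a - log b))) := by
      have h := cosh_two_mul (δ * ((log a - log b) / 2))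
      rw [cosh_sq', show 2 * (δ * ((log a - log b) / 2)) = δ * (log a - log b) by ring,
        cosh_eq] at h
      linarith
    calc _ = a ^ q * b ^ q * (exp (δ * (log a - log b)) + exp (-(δ * (log a - log b)))) := by
          simp only [rpow_def_of_pos ha, rpow_def_of_pos hb, mul_add, ← exp_add]
          congr 2 <;> ring
      _ = _ := by rw [← this]; ring
  have h2 := e 1
  rw [one_mul] at h2
  have h3 : ∀ u v : ℝ, 0 ≤ u → u ≤ 2 → 0 ≤ v → v ≤ 2 → u ^ (q + 1) * v ^ (q - 1) ≤ 4 ^ q := by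
    intro u v hu hu' hv hv'
    calc _ ≤ (2 : ℝ) ^ (q + 1) * 2 ^ (q - 1) := by
          gcongr
      _ = _ := by
          rw [← rpow_add two_pos, show (4 : ℝ) = 2 ^ (2 : ℝ) by norm_num, ← rpow_mul zero_le_two]
          congr 1
          ring
  have h4 := h3 a b ha.le ha' hb.le hb'
  have h5 := h3 b a hb.le hb' ha.le ha'
  have h6 := sinh_scale (w := (log a - log b) / 2) h0 h1
  have h7 : 0 < a ^ q * b ^ q := by positivity
  rw [e]
  nlinarith [mul_le_mul_of_nonneg_left h6 h7.le, sq_nonneg ε,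
    mul_le_mul_of_nonneg_left (show 4 * (a ^ q * b ^ q) * sinh ((log a - log b) / 2) ^ 2 ≤
      2 * 4 ^ q by linarith) (sq_nonneg ε)]

theorem mom_pair {m : ℕ} (hm : 0 < m) {q ε : ℝ} (h0 : 0 ≤ ε) (h1 : ε ≤ 1) (hq : 1 ≤ q)
    (hq' : ε < q) : mom m (q + ε) * mom m (q - ε) ≤ mom m q ^ 2 * (1 + ε ^ 2 * 4 ^ q) := by
  have hm' : (0 : ℝ) < m := by exact_mod_cast hm
  have hx : ∀ s, xi m s ≤ 2 := fun s => by
    unfold xi
    linarith [cos_le_one (s * al m)]
  have h := sum_le_sum fun s (_ : s ∈ range (4 * m)) => sum_le_sum fun t (_ : t ∈ range (4 * m)) =>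
    pair_le h0 h1 hq hq' (xi_nonneg m s) (hx s) (xi_nonneg m t) (hx t)
  simp only [sum_add_distrib, ← mul_sum, ← sum_mul, sum_const, card_range, nsmul_eq_mul] at h
  have hM := one_le_mom hm hq
  have h2 : mom m (q + ε) * mom m (q - ε) ≤ mom m q ^ 2 + ε ^ 2 * 4 ^ q := by
    unfold mom
    push_cast at h
    generalize ∑ s ∈ range (4 * m), xi m s ^ (q + ε) = A at *
    generalize ∑ s ∈ range (4 * m), xi m s ^ (q - ε) = B at *
    generalize ∑ s ∈ range (4 * m), xi m s ^ q = Z at *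
    generalize (4 : ℝ) ^ q = W at *
    field_simp
    nlinarith
  have h3 : 0 ≤ ε ^ 2 * 4 ^ q := by positivity
  nlinarith [mul_le_mul_of_nonneg_left (one_le_pow₀ hM (n := 2)) h3]

end Pool.Agent.P.MP_f33f0c_an.Lor
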