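import Mathlib

/-! Lorentz functionals of a distribution function under a two-sided envelope. -/

set_option autoImplicit false

namespace Pool.Agent.P.MP_f33f0c_an.Lor

open Real MeasureTheory Set

/-- the envelope -/
noncomputable def env (η b t : ℝ) : ℝ := min ((t / b) ^ η) ((t / b) ^ (-η))

theorem env_pos (η : ℝ) {b t : ℝ} (hb : 0 < b) (ht : 0 < t) : 0 < env η b t :=
  lt_min (by positivity) (by positivity)

theorem env_le_one (η : ℝ) {b t : ℝ} (hb : 0 < b) (ht : 0 < t) : env η b t ≤ 1 := by
  have h : 0 < (t / b) ^ η := by positivity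
  rw [env, rpow_neg (by positivity), min_le_iff]
  exact (le_total _ 1).imp id inv_le_one_of_one_le₀

theorem env_pow (η : ℝ) {b t a : ℝ} (hb : 0 < b) (ht : 0 < t) (ha : 0 ≤ a) :
    env η b t ^ a = env (η * a) b t := by
  have h : 0 ≤ t / b := by positivity
  rw [env, env, ← neg_mul, rpow_mul h, rpow_mul h]
  rcases le_total ((t / b) ^ η) ((t / b) ^ (-η)) with k | k
  · rw [min_eq_left k, min_eq_left (rpow_le_rpow (by positivity) k ha)]
  · rw [min_eq_right k, min_eq_right (rpow_le_rpow (by positivity) k ha)]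

@[fun_prop] theorem measurable_env (η b : ℝ) : Measurable (env η b) := by
  unfold env
  fun_prop

theorem env_int {η b : ℝ} (hη : 0 < η) (hb : 0 < b) :
    ∫⁻ t in Ioi (0 : ℝ), ENNReal.ofReal (t⁻¹ * env η b t) ≤ ENNReal.ofReal (2 / η) := by
  have h1 : ∫⁻ t in Ioc (0 : ℝ) b, ENNReal.ofReal (t⁻¹ * env η b t) ≤ ENNReal.ofReal (1 / η) := by
    have i1 : IntegrableOn (fun t : ℝ => b ^ (-η) * t ^ (η - 1)) (Ioc 0 b) :=
      ((intervalIntegral.intervalIntegrable_rpow' (by linarith)).const_mul _).1
    calc _ ≤ ∫⁻ t in Ioc (0 : ℝ) b, ENNReal.ofReal (b ^ (-η) * t ^ (η - 1)) := by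
          refine setLIntegral_mono' measurableSet_Ioc fun t ht => ENNReal.ofReal_le_ofReal ?_
          refine (mul_le_mul_of_nonneg_left (min_le_left _ _) (inv_nonneg.2 ht.1.le)).trans
            (le_of_eq ?_)
          rw [div_rpow ht.1.le hb.le, rpow_sub_one ht.1.ne', rpow_neg hb.le]
          ring
      _ = _ := by
          rw [← ofReal_integral_eq_lintegral_ofReal i1 ((ae_restrict_iff' measurableSet_Ioc).2
            (Filter.Eventually.of_forall fun t ht => by have := ht.1; positivity)),
            ← intervalIntegral.integral_of_le hb.le, intervalIntegral.integral_const_mul,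
            integral_rpow (Or.inl (by linarith)), sub_add_cancel, zero_rpow hη.ne', rpow_neg hb.le]
          have : 0 < b ^ η := by positivity
          congr 1
          field_simp
          ring
  have h2 : ∫⁻ t in Ioi b, ENNReal.ofReal (t⁻¹ * env η b t) ≤ ENNReal.ofReal (1 / η) := by
    have i1 : IntegrableOn (fun t : ℝ => b ^ η * t ^ (-η - 1)) (Ioi b) :=
      (integrableOn_Ioi_rpow_of_lt (by linarith) hb).const_mul _
    calc _ ≤ ∫⁻ t in Ioi b, ENNReal.ofReal (b ^ η * t ^ (-η - 1)) := by
          refine setLIntegral_mono' measurableSet_Ioi fun t ht => ENNReal.ofReal_le_ofReal ?_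
          have ht0 : 0 < t := hb.trans ht
          refine (mul_le_mul_of_nonneg_left (min_le_right _ _) (inv_nonneg.2 ht0.le)).trans
            (le_of_eq ?_)
          rw [div_rpow ht0.le hb.le, rpow_sub_one ht0.ne', rpow_neg hb.le]
          field_simp
      _ = _ := by
          rw [← ofReal_integral_eq_lintegral_ofReal i1 ((ae_restrict_iff' measurableSet_Ioi).2
            (Filter.Eventually.of_forall fun t ht => by have := hb.trans ht; positivity)),
            integral_const_mul, integral_Ioi_rpow_of_lt (by linarith) hb, sub_add_cancel,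
            rpow_neg hb.le]
          have : 0 < b ^ η := by positivity
          congr 1
          field_simp
  rw [← Ioc_union_Ioi_eq_Ioi hb.le]
  refine (lintegral_union_le _ _ _).trans ((add_le_add h1 h2).trans (le_of_eq ?_))
  rw [← ENNReal.ofReal_add (by positivity) (by positivity)]
  congr 1
  ring

theorem sum_rpow_le (I : Finset ℕ) {Φ : ℕ → ℝ} (h0 : ∀ i, 0 ≤ Φ i) {a : ℝ} (ha : 0 < a) :
    (∑ i ∈ I, Φ i) ^ a ≤ ∑ i ∈ I, (2 * 2 ^ i * Φ i) ^ a := by
  have hp : ∀ i, 0 ≤ 2 * 2 ^ i * Φ i := fun i => by have := h0 i; positivity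
  rcases I.eq_empty_or_nonempty with rfl | hI
  · simp [zero_rpow ha.ne']
  obtain ⟨j, hj, hm⟩ := I.exists_max_image (fun i => 2 * 2 ^ i * Φ i) hI
  refine le_trans (rpow_le_rpow (Finset.sum_nonneg fun i _ => h0 i) ?_ ha.le)
    (Finset.single_le_sum (f := fun i => (2 * 2 ^ i * Φ i) ^ a)
      (fun i _ => rpow_nonneg (hp i) a) hj)
  refine le_trans (Finset.sum_le_sum fun i hi => ?_) (sum_le_hasSum I
    (fun i _ => by have := hp j; positivity) (hasSum_geometric_two' (2 * 2 ^ j * Φ j)))
  rw [le_div_iff₀ (by positivity), le_div_iff₀ (by positivity)]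
  linarith [hm i hi]

theorem lor_upper (I : Finset ℕ) {p r : ℝ} (hp : 0 < p) (hr : 0 < r) {H η b : ℕ → ℝ}
    (hH : ∀ i, 0 ≤ H i) (hη : ∀ i, 0 < η i) (hb : ∀ i, 0 < b i) {d : ℝ → ENNReal}
    (hd : ∀ t, 0 < t → d t ≤ ENNReal.ofReal (∑ i ∈ I, H i * (t ^ (-p) * env (η i) (b i) t))) :
    ∫⁻ t in Ioi (0 : ℝ), ENNReal.ofReal (t ^ (r - 1)) * d t ^ (r / p) ≤
      ENNReal.ofReal (∑ i ∈ I, (2 * 2 ^ i * H i) ^ (r / p) * (2 / (η i * (r / p)))) := by
  have ha : 0 < r / p := by positivity
  have hp2 : ∀ i, 0 ≤ (2 * 2 ^ i * H i) ^ (r / p) := fun i => by have := hH i; positivity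
  calc _ ≤ ∫⁻ t in Ioi (0 : ℝ), ∑ i ∈ I, ENNReal.ofReal ((2 * 2 ^ i * H i) ^ (r / p)) *
        ENNReal.ofReal (t⁻¹ * env (η i * (r / p)) (b i) t) := by
        refine setLIntegral_mono' measurableSet_Ioi fun t ht => ?_
        have ht : 0 < t := ht
        have h0 : ∀ i, 0 ≤ H i * (t ^ (-p) * env (η i) (b i) t) := fun i => by
          have := hH i
          have := env_pos (η i) (hb i) ht
          positivity
        refine (mul_le_mul_right (ENNReal.rpow_le_rpow (hd t ht) ha.le) _).trans ?_
        rw [ENNReal.ofReal_rpow_of_nonneg (Finset.sum_nonneg fun i _ => h0 i) ha.le,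
          ← ENNReal.ofReal_mul (by positivity)]
        simp only [← ENNReal.ofReal_mul (hp2 _)]
        rw [← ENNReal.ofReal_sum_of_nonneg fun i _ => by
          have := hp2 i
          have := env_pos (η i * (r / p)) (hb i) ht
          positivity]
        refine ENNReal.ofReal_le_ofReal ((mul_le_mul_of_nonneg_left (sum_rpow_le I h0 ha)
          (by positivity)).trans (le_of_eq ?_))
        rw [Finset.mul_sum]
        refine Finset.sum_congr rfl fun i _ => ?_
        have := hH i
        have := env_pos (η i) (hb i) ht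
        rw [← mul_assoc (2 * 2 ^ i), mul_rpow (by positivity) (by positivity),
          mul_rpow (by positivity) (by positivity) (x := t ^ (-p)), env_pow _ (hb i) ht ha.le,
          ← rpow_mul ht.le, show -p * (r / p) = -r by field_simp, rpow_sub_one ht.ne',
          rpow_neg ht.le]
        have : 0 < t ^ r := by positivity
        field_simp
    _ ≤ _ := by
        rw [lintegral_finsetSum _ fun i _ => by fun_prop, ENNReal.ofReal_sum_of_nonneg fun i _ => by
          have := hp2 i
          have := hη i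
          positivity]
        refine Finset.sum_le_sum fun i _ => ?_
        rw [lintegral_const_mul' _ _ ENNReal.ofReal_ne_top, ENNReal.ofReal_mul (hp2 i)]
        exact mul_le_mul_right (env_int (mul_pos (hη i) ha) (hb i)) _

theorem lor_lower {p s H η b l M : ℝ} (hp : 0 < p) (hs : 0 < s) (hH : 0 < H) (hη : 0 < η)
    (hb : 0 < b) (hl : 0 < l) (hM : 8 * p * H * l ≤ η * M) {g : ℝ → ℝ} (hg : Continuous g)
    (hg0 : ∀ x, 0 ≤ g x) (hI : M ≤ ∫ x in (0 : ℝ)..1, g x ^ p)
    (hd : ∀ t, 0 < t → volume {x : ℝ | x ∈ Icc (0 : ℝ) 1 ∧ t < g x} ≤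
      ENNReal.ofReal (H * (t ^ (-p) * env η b t))) :
    ENNReal.ofReal (M / (2 * p * H) * (H * l ^ 2) ^ (s / p)) ≤ ∫⁻ t in Ioi (0 : ℝ),
      ENNReal.ofReal (t ^ (s - 1)) * volume {x : ℝ | x ∈ Icc (0 : ℝ) 1 ∧ t < g x} ^ (s / p) := by
  have ha : 0 < s / p := by positivity
  have hM0 : 0 < M := (mul_pos_iff_of_pos_left hη).1
    ((by positivity : 0 < 8 * p * H * l).trans_le hM)
  set Λ := ∫⁻ t in Ioi (0 : ℝ),
    ENNReal.ofReal (t ^ (s - 1)) * volume {x : ℝ | x ∈ Icc (0 : ℝ) 1 ∧ t < g x} ^ (s / p)
  set κ := H / (H * l ^ 2) ^ (s / p) with hκ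
  have hκ0 : 0 < κ := by positivity
  have h1 := lintegral_rpow_eq_lintegral_meas_lt_mul (volume.restrict (Icc (0 : ℝ) 1))
    (Filter.Eventually.of_forall hg0) hg.measurable.aemeasurable hp
  have hc : Continuous fun x => g x ^ p := hg.rpow_const fun _ => Or.inr hp.le
  rw [← ofReal_integral_eq_lintegral_ofReal hc.integrableOn_Icc
    (Filter.Eventually.of_forall fun x => rpow_nonneg (hg0 x) p), integral_Icc_eq_integral_Ioc,
    ← intervalIntegral.integral_of_le zero_le_one] at h1
  have h2 : ∫⁻ t in Ioi (0 : ℝ), volume.restrict (Icc (0 : ℝ) 1) {a | t < g a} *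
      ENNReal.ofReal (t ^ (p - 1)) ≤ ENNReal.ofReal (M / (2 * p)) + ENNReal.ofReal κ * Λ := by
    calc _ ≤ ∫⁻ t in Ioi (0 : ℝ), (ENNReal.ofReal (H * l) *
          ENNReal.ofReal (t⁻¹ * env (η * (1 / 2)) b t) + ENNReal.ofReal κ *
          (ENNReal.ofReal (t ^ (s - 1)) *
            volume {x : ℝ | x ∈ Icc (0 : ℝ) 1 ∧ t < g x} ^ (s / p))) := by
          refine setLIntegral_mono' measurableSet_Ioi fun t ht => ?_
          have ht : 0 < t := ht
          rw [Measure.restrict_apply (isOpen_lt continuous_const hg).measurableSet, inter_comm]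
          have h3 := hd t ht
          change volume {x : ℝ | x ∈ Icc (0 : ℝ) 1 ∧ t < g x} * _ ≤ _
          generalize volume {x : ℝ | x ∈ Icc (0 : ℝ) 1 ∧ t < g x} = w at *
          lift w to NNReal using ne_top_of_le_ne_top ENNReal.ofReal_ne_top h3
          have e1 := env_pos η hb ht
          have e2 := env_le_one η hb ht
          have e3 := env_pos (η * (1 / 2)) hb ht
          have e4 : env (η * (1 / 2)) b t ^ 2 = env η b t := by
            rw [← rpow_two, env_pow _ hb ht zero_le_two]
            congr 1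
            ring
          have hw : (0 : ℝ) ≤ w := w.2
          rw [← ENNReal.ofReal_coe_nnreal] at h3 ⊢
          rw [ENNReal.ofReal_le_ofReal_iff (by positivity)] at h3
          rw [ENNReal.ofReal_rpow_of_nonneg hw ha.le, ← ENNReal.ofReal_mul hw,
            ← ENNReal.ofReal_mul (by positivity), ← ENNReal.ofReal_mul (by positivity),
            ← ENNReal.ofReal_mul (by positivity),
            ← ENNReal.ofReal_add (by positivity) (by positivity)]
          refine ENNReal.ofReal_le_ofReal ?_
          have tp : 0 < t ^ p := by positivity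
          obtain ⟨z, hz⟩ : ∃ z : ℝ, z = w * t ^ p / H := ⟨_, rfl⟩
          have z0 : 0 ≤ z := by rw [hz]; positivity
          have z1 : z ≤ env η b t := by
            rw [rpow_neg ht.le] at h3
            rw [hz, div_le_iff₀ hH, ← le_div_iff₀ tp]
            refine h3.trans (le_of_eq ?_)
            field_simp
          have z2 : z ≤ l * env (η * (1 / 2)) b t + (z / l ^ 2) ^ (s / p) := by
            rcases le_total z (l ^ 2) with k | k
            · refine le_add_of_le_of_nonneg ?_ (by positivity)
              refine (pow_le_pow_iff_left₀ z0 (by positivity) two_ne_zero).1 ?_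
              rw [mul_pow, e4, sq]
              exact mul_le_mul k z1 z0 (by positivity)
            · refine le_add_of_nonneg_of_le (by positivity) ((z1.trans e2).trans ?_)
              exact one_le_rpow ((one_le_div (by positivity)).2 k) ha.le
          have z3 : (z / l ^ 2) ^ (s / p) = (w : ℝ) ^ (s / p) * t ^ s / (H * l ^ 2) ^ (s / p) := by
            rw [hz, div_div, div_rpow (by positivity) (by positivity), mul_rpow hw tp.le,
              ← rpow_mul ht.le, mul_div_cancel₀ _ hp.ne']
          rw [rpow_sub_one ht.ne', rpow_sub_one ht.ne']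
          calc (w : ℝ) * (t ^ p / t) = H / t * z := by rw [hz]; field_simp
            _ ≤ H / t * (l * env (η * (1 / 2)) b t + (z / l ^ 2) ^ (s / p)) := by gcongr
            _ = _ := by rw [z3, hκ]; ring
      _ ≤ _ := by
          rw [lintegral_add_left (by fun_prop), lintegral_const_mul' _ _ ENNReal.ofReal_ne_top,
            lintegral_const_mul' _ _ ENNReal.ofReal_ne_top]
          refine add_le_add_left ((mul_le_mul_right (env_int (by positivity) hb) _).trans ?_) _
          rw [← ENNReal.ofReal_mul (by positivity)]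
          refine ENNReal.ofReal_le_ofReal ?_
          rw [← mul_div_assoc, div_le_div_iff₀ (by positivity) (by positivity)]
          linarith
  clear_value Λ
  rcases eq_or_ne Λ ⊤ with h | h
  · rw [h]
    exact le_top
  lift Λ to NNReal using h
  have h3 := ((ENNReal.ofReal_le_ofReal hI).trans h1.le).trans (mul_le_mul_right h2 _)
  have hw : (0 : ℝ) ≤ Λ := Λ.2
  rw [← ENNReal.ofReal_coe_nnreal] at h3 ⊢
  rw [← ENNReal.ofReal_mul hκ0.le, ← ENNReal.ofReal_add (by positivity) (by positivity),
    ← ENNReal.ofReal_mul hp.le, ENNReal.ofReal_le_ofReal_iff (by positivity)] at h3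
  refine ENNReal.ofReal_le_ofReal ?_
  have h4 : M / (2 * p) ≤ κ * Λ := by
    have : p * (M / (2 * p)) = M / 2 := by field_simp
    rw [div_le_iff₀ (by positivity)]
    nlinarith
  have h5 : 0 < (H * l ^ 2) ^ (s / p) := by positivity
  calc _ = κ⁻¹ * (M / (2 * p)) := by rw [hκ]; field_simp
    _ ≤ κ⁻¹ * (κ * Λ) := by gcongr
    _ = _ := by field_simp

end Pool.Agent.P.MP_f33f0c_an.Lor
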