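import Mathlib
import Pool.Agent.P.MP_f33f0c_an.LorA
import Pool.Agent.P.MP_f33f0c_an.LorB

/-! Blocks with a two-sided envelope, and their gluing. -/

set_option autoImplicit false

namespace Pool.Agent.P.MP_f33f0c_an.Lor

open Real Finset MeasureTheory Pool.Agent.P.MP_f33f0c_an.AllP

theorem cube_tail {q₁ q₂ : ℝ} (h₁ : 1 < q₁) : ∃ C : ℝ, 0 < C ∧ ∀ (m L : ℕ) (q : ℝ), 0 < m → 0 < L →
    q₁ ≤ q → q ≤ q₂ → (DD m ^ q₂) ^ L ^ 2 ≤ 2 → ∀ n : ℤ, n ≠ 0 → ∀ (a : ℤ → ℂ) (N t : ℝ), 0 < N →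
    0 < t → ∑ k ∈ cube (4 * m) (L ^ 2) n, ‖a k‖ ^ 2 ≤ N ^ 2 →
    volume {x : ℝ | x ∈ Set.Icc (0 : ℝ) 1 ∧ t < ‖poly (cube (4 * m) (L ^ 2) n) a x‖} ≤
      ENNReal.ofReal (C / L * (mom m q ^ L ^ 2 * (t / (√2 * N)) ^ (-(2 * q)))) := by
  obtain ⟨C, hC, H⟩ := anticonc (q₂ := q₂) h₁
  refine ⟨2 * C, by positivity, fun m L q hm hL hq1 hq2 hD n hn a N t hN ht ha => ?_⟩
  have hf1 : ConvexOn ℝ Set.univ (fun y : ℝ => max (y - t ^ 2 / 2) 0) :=
    ((convexOn_id convex_univ).sub (concaveOn_const _ convex_univ)).sup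
      (convexOn_const 0 convex_univ)
  have hf2 : Monotone (fun y : ℝ => max (y - t ^ 2 / 2) 0) := fun y z h => by
    dsimp only
    gcongr
  have d := dominate hm (L ^ 2) Unit (fun _ => a) n _ hn hf1 hf2 (by fun_prop)
  simp only [univ_unique, sum_singleton] at d
  have b := H m L q (t ^ 2 / 2) (∑ k ∈ cube (4 * m) (L ^ 2) n, ‖a k‖ ^ 2) hm hL hq1 hq2
    (by positivity) (by positivity)
  refine (markov (h := fun x => max (‖poly (cube (4 * m) (L ^ 2) n) a x‖ ^ 2 - t ^ 2 / 2) 0)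
    (by fun_prop) (fun x => le_max_right _ _) (ε := t ^ 2 / 2) (by positivity) _ ?_).trans
    (ENNReal.ofReal_le_ofReal ?_)
  · intro x hx
    refine le_max_of_le_left ?_
    nlinarith
  · rw [div_le_iff₀ (by positivity)]
    refine (d.trans b).trans ?_
    have hD1 := one_le_DD hm
    have hM := one_le_mom hm (by linarith : 1 ≤ q)
    have hD2 : (DD m ^ q) ^ L ^ 2 ≤ 2 := le_trans (by gcongr) hD
    have e : (t / (√2 * N)) ^ (-(2 * q)) = (N ^ 2) ^ q * (t ^ 2 / 2) ^ (-q) := by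
      rw [← mul_neg, ← sq_rpow (by positivity), div_pow, mul_pow, sq_sqrt zero_le_two,
        ← div_div, div_rpow (by positivity) (by positivity), rpow_neg (sq_nonneg N)]
      field_simp
    have hq0 : 0 ≤ q := by linarith
    calc _ ≤ (N ^ 2) ^ q * (t ^ 2 / 2) ^ (1 - q) * 2 * mom m q ^ L ^ 2 * (C / L) := by gcongr
      _ = _ := by
          rw [e, sub_eq_add_neg, rpow_add (by positivity), rpow_one]
          ring

theorem cube_env {q : ℝ} (hq : 1 < q) : ∃ C e : ℝ, 0 < C ∧ 0 < e ∧ ∀ L : ℕ, 0 < L →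
    ∃ (m : ℕ) (A B : ℝ), 0 < m ∧ 0 < A ∧ 0 < B ∧ ∀ n : ℤ, n ≠ 0 →
    (∀ (a : ℤ → ℂ) (N t : ℝ), 0 < N → 0 < t → ∑ k ∈ cube (4 * m) (L ^ 2) n, ‖a k‖ ^ 2 ≤ N ^ 2 →
      volume {x : ℝ | x ∈ Set.Icc (0 : ℝ) 1 ∧ t < ‖poly (cube (4 * m) (L ^ 2) n) a x‖} ≤
        ENNReal.ofReal (C * A / L * N ^ (2 * q) * (t ^ (-(2 * q)) * env (e / L) (B * N) t))) ∧
    A / 2 * (2 ^ q) ^ L ^ 2 ≤
      ∫ x in (0 : ℝ)..1, (‖poly (cube (4 * m) (L ^ 2) n) (fun _ => 1) x‖ ^ 2) ^ q := by
  obtain ⟨C, hC, H⟩ := cube_tail (q₁ := (q + 1) / 2) (q₂ := q + 1) (by linarith)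
  set e := min 1 ((q - 1) / 2) with he
  have e0 : 0 < e := lt_min one_pos (by linarith)
  have e1 : e ≤ 1 := min_le_left _ _
  have e2 : e ≤ (q - 1) / 2 := min_le_right _ _
  refine ⟨C * exp (4 ^ q) * √2 ^ (2 * q), 2 * e, by positivity, by positivity, fun L hL => ?_⟩
  have hL' : (1 : ℝ) ≤ L := by exact_mod_cast hL
  obtain ⟨δ, hδ, hsh⟩ := shift_lower (η := 1 / (2 * ((L ^ 2 : ℕ) + 1))) hq.le (by positivity)
  obtain ⟨m, hm, hal, hD⟩ := exists_m_q (L ^ 2) (q + 1) hδ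
  set ε := e / L with hε
  have ε0 : 0 < ε := by positivity
  have ε1 : ε ≤ e := div_le_self e0.le hL'
  have hM := one_le_mom hm hq.le
  have hMp := one_le_mom hm (by linarith : 1 ≤ q + ε)
  have hMm := one_le_mom hm (by linarith : 1 ≤ q - ε)
  have hpair : mom m (q + ε) ^ L ^ 2 * mom m (q - ε) ^ L ^ 2 ≤
      (mom m q ^ L ^ 2) ^ 2 * exp (4 ^ q) := by
    rw [← mul_pow]
    refine (pow_le_pow_left₀ (by positivity)
      (mom_pair hm ε0.le (by linarith) hq.le (by linarith)) _).trans ?_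
    rw [mul_pow, ← pow_mul, ← pow_mul, mul_comm 2]
    gcongr
    calc (1 + ε ^ 2 * 4 ^ q) ^ L ^ 2 ≤ exp (ε ^ 2 * 4 ^ q) ^ L ^ 2 := by
          gcongr
          linarith [add_one_le_exp (ε ^ 2 * 4 ^ q)]
      _ = exp (e ^ 2 * 4 ^ q) := by
          rw [← exp_nat_mul, hε]
          congr 1
          push_cast
          field_simp
      _ ≤ _ := exp_le_exp.2 (mul_le_of_le_one_left (by positivity) (pow_le_one₀ e0.le e1))
  set A := mom m q ^ L ^ 2 with hA
  set Ap := mom m (q + ε) ^ L ^ 2 with hAp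
  set Am := mom m (q - ε) ^ L ^ 2 with hAm
  have A0 : 0 < A := by positivity
  have Ap0 : 0 < Ap := by positivity
  have Am0 : 0 < Am := by positivity
  set β := (Ap / A) ^ (2 * ε)⁻¹ with hβ
  have β0 : 0 < β := by positivity
  have hβ2 : β ^ (2 * ε) = Ap / A := rpow_inv_rpow (by positivity) (by positivity)
  refine ⟨m, A, √2 * β, hm, A0, by positivity, fun n hn => ⟨fun a N t hN ht ha => ?_, ?_⟩⟩
  · have b1 := H m L (q + ε) hm hL (by linarith) (by linarith) hD n hn a N t hN ht ha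
    have b2 := H m L (q - ε) hm hL (by linarith) (by linarith) hD n hn a N t hN ht ha
    rw [← hAp] at b1
    rw [← hAm] at b2
    have hW : 1 ≤ exp (4 ^ q) := one_le_exp (by positivity)
    set W := exp (4 ^ q)
    set u := t / (√2 * N) with hu
    have u0 : 0 < u := by positivity
    have f1 : t / (√2 * β * N) = u / β := by rw [hu]; field_simp
    have f2 : √2 ^ (2 * q) * N ^ (2 * q) * t ^ (-(2 * q)) = u ^ (-(2 * q)) := by
      rw [hu, div_rpow ht.le (by positivity), rpow_neg (by positivity : 0 ≤ √2 * N),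
        mul_rpow (by positivity) hN.le]
      field_simp
    have f3 : 2 * e / L = 2 * ε := by rw [hε]; ring
    have f4 : 0 < u ^ (-(2 * q)) := by positivity
    have f5 : 0 < u ^ (2 * ε) := by positivity
    have f6 : ∀ z : ℝ, C * W * √2 ^ (2 * q) * A / L * N ^ (2 * q) * (t ^ (-(2 * q)) * z) =
        C / L * (W * A * u ^ (-(2 * q)) * z) := fun z => by rw [← f2]; ring
    rw [f6, env, f1, f3]
    rcases min_cases ((u / β) ^ (2 * ε)) ((u / β) ^ (-(2 * ε))) with h | h <;> rw [h.1]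
    · refine b2.trans (ENNReal.ofReal_le_ofReal (mul_le_mul_of_nonneg_left ?_ (by positivity)))
      rw [show -(2 * (q - ε)) = -(2 * q) + 2 * ε by ring, rpow_add u0, div_rpow u0.le β0.le, hβ2]
      calc _ = Ap * Am * (u ^ (-(2 * q)) * u ^ (2 * ε) / Ap) := by field_simp
        _ ≤ A ^ 2 * W * (u ^ (-(2 * q)) * u ^ (2 * ε) / Ap) := by gcongr
        _ = _ := by field_simp
    · refine b1.trans (ENNReal.ofReal_le_ofReal (mul_le_mul_of_nonneg_left ?_ (by positivity)))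
      rw [show -(2 * (q + ε)) = -(2 * q) + -(2 * ε) by ring, rpow_add u0,
        rpow_neg (by positivity : 0 ≤ u / β), div_rpow u0.le β0.le, hβ2, rpow_neg u0.le (2 * ε)]
      calc _ = 1 * (Ap * (u ^ (-(2 * q)) * (u ^ (2 * ε))⁻¹)) := by ring
        _ ≤ W * (Ap * (u ^ (-(2 * q)) * (u ^ (2 * ε))⁻¹)) := by gcongr
        _ = _ := by field_simp
  · generalize L ^ 2 = J at *
    have hη : (0 : ℝ) ≤ 1 - 1 / (2 * (J + 1)) := by
      rw [sub_nonneg, div_le_one (by positivity)]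
      linarith [Nat.cast_nonneg (α := ℝ) J]
    have h1 := strong_lower_q hm (by linarith : 0 < q) (by positivity) (hsh m hm hal) J n hn
    have h2 : (1 / 2 : ℝ) ≤ (1 - 1 / (2 * (J + 1))) ^ J := by
      have := one_add_mul_le_pow (a := -(1 / (2 * ((J : ℝ) + 1)))) (by linarith) J
      rw [← sub_eq_add_neg] at this
      refine le_trans ?_ this
      have h3 : (J : ℝ) * (1 / (2 * (J + 1))) ≤ 1 / 2 := by
        rw [mul_one_div, div_le_div_iff₀ (by positivity) (by norm_num)]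
        linarith
      linarith
    refine le_trans ?_ h1
    rw [mul_pow, mul_pow, hA]
    calc _ = (2 ^ q) ^ J * (1 / 2 * mom m q ^ J) := by ring
      _ ≤ _ := by gcongr

theorem block {p s : ℝ} (hp : 2 < p) (hs : 0 < s) : ∃ c e : ℝ, 0 < c ∧ 0 < e ∧
    ∀ (L : ℕ) (h : ℝ) (n o : ℤ), 0 < L → 0 < h → n ≠ 0 →
    ∃ (T : Finset ℤ) (μ : ℤ → ℂ) (b : ℝ), 0 < b ∧ (∀ k ∈ T, n ∣ k - o) ∧ (∀ k, k ∉ T → μ k = 0) ∧
    (∀ (S : Finset ℤ) (a : ℤ → ℂ) (N t : ℝ), 0 < N → 0 < t → ∑ k ∈ S, ‖a k‖ ^ 2 ≤ N ^ 2 →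
      volume {x : ℝ | x ∈ Set.Icc (0 : ℝ) 1 ∧ t < ‖poly S (fun k => μ k * a k) x‖} ≤
        ENNReal.ofReal (h * N ^ p * (t ^ (-p) * env (e / L) (b * N) t))) ∧
    ∃ a : ℤ → ℂ, (∀ x, ‖poly T a x‖ ≤ 1) ∧ ENNReal.ofReal (c * (L * h ^ (s / p))) ≤
      ∫⁻ t in Set.Ioi (0 : ℝ), ENNReal.ofReal (t ^ (s - 1)) * volume
        {x : ℝ | x ∈ Set.Icc (0 : ℝ) 1 ∧ t < ‖poly T (fun k => μ k * a k) x‖} ^ (s / p) := by
  obtain ⟨q, rfl⟩ : ∃ q, p = 2 * q := ⟨p / 2, by ring⟩
  have hq : 1 < q := by linarith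
  have hq0 : 0 < q := by linarith
  obtain ⟨C, e, hC, he, H⟩ := cube_env hq
  set l := e / (16 * (2 * q) * 2 ^ q * C) with hl
  have l0 : 0 < l := by positivity
  refine ⟨(l ^ 2) ^ (s / (2 * q)) / (4 * (2 * q) * 2 ^ q * C), e, by positivity, he,
    fun L h n o hL hh hn => ?_⟩
  have hL' : (0 : ℝ) < L := by exact_mod_cast hL
  obtain ⟨m, A, B, hm, hA, hB, H⟩ := H L hL
  obtain ⟨H1, H2⟩ := H n hn
  generalize L ^ 2 = J at H1 H2
  obtain ⟨σ, τ, hσ, -, hRS⟩ := rudin_shapiro (M := 4 * m) (by omega) J n hn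
  set Q := cube (4 * m) J n with hQ
  set κ : ℝ := (h * L / (C * A)) ^ (2 * q)⁻¹ with hκ
  have hκ0 : 0 < κ := by positivity
  have hκq : κ ^ (2 * q) = h * L / (C * A) := rpow_inv_rpow (by positivity) (by positivity)
  set ν : ℝ := (√(2 * 2 ^ J))⁻¹ with hν
  have hν0 : 0 ≤ ν := by positivity
  have hν2 : ν ^ 2 = (2 * 2 ^ J)⁻¹ := by rw [hν, inv_pow, sq_sqrt (by positivity)]
  have hσn : ∀ k, ‖σ k‖ = 1 := fun k => by rcases hσ k with h | h <;> simp [h]
  have hσ2 : ∀ k, σ k * σ k = 1 := fun k => by rcases hσ k with h | h <;> simp [h]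
  set T := Q.image (· + o) with hT
  have up : ∀ (S : Finset ℤ) (c : ℤ → ℂ) (N t : ℝ), 0 < N → 0 < t → ∑ k ∈ S, ‖c k‖ ^ 2 ≤ N ^ 2 →
      volume {x : ℝ | x ∈ Set.Icc (0 : ℝ) 1 ∧
        t < ‖poly S (fun k => (if k ∈ T then κ * σ (k - o) else 0) * c k) x‖} ≤
        ENNReal.ofReal (h * N ^ (2 * q) * (t ^ (-(2 * q)) * env (e / L) (B * κ * N) t)) := by
    intro S c N t hN ht hc
    set b : ℤ → ℂ := fun k => if k ∈ S then κ * σ (k - o) * c k else 0 with hb
    have e1 : ∀ x, poly S (fun k => (if k ∈ T then κ * σ (k - o) else 0) * c k) x =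
        poly T b x := by
      intro x
      simp only [poly, hb, ite_mul, zero_mul, sum_ite_mem, inter_comm]
    have e2 : ∑ k ∈ Q, ‖b (k + o)‖ ^ 2 ≤ κ ^ 2 * ∑ k ∈ S, ‖c k‖ ^ 2 := by
      rw [← sum_image (g := (· + o)) (f := fun k => ‖b k‖ ^ 2)
        (fun a _ b _ h => add_right_cancel h), ← hT, mul_sum]
      calc ∑ k ∈ T, ‖b k‖ ^ 2 = ∑ k ∈ T, if k ∈ S then κ ^ 2 * ‖c k‖ ^ 2 else 0 := by
            refine sum_congr rfl fun k _ => ?_
            simp only [hb]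
            split_ifs
            · rw [norm_mul, norm_mul, hσn, Complex.norm_real, Real.norm_of_nonneg hκ0.le]
              ring
            · simp
        _ ≤ _ := by
            rw [sum_ite_mem]
            exact sum_le_sum_of_subset_of_nonneg inter_subset_right fun _ _ _ => by positivity
    have := H1 (fun k => b (k + o)) (κ * N) t (by positivity) ht
      (e2.trans (by rw [mul_pow]; gcongr))
    simp only [e1]
    simp only [hT, poly_image]
    refine this.trans (le_of_eq ?_)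
    rw [mul_rpow hκ0.le hN.le, hκq, ← mul_assoc B]
    congr 2
    field_simp
  have sup : ∀ x, ‖poly T (fun k => ν * σ (k - o)) x‖ ≤ 1 := by
    intro x
    have e : poly T (fun k => ν * σ (k - o)) x = ν * poly T (fun k => σ (k - o)) x := by
      simp only [poly, mul_sum, mul_assoc]
    rw [e, norm_mul, hT, poly_image, Complex.norm_real, Real.norm_of_nonneg hν0]
    simp only [add_sub_cancel_right]
    have h1 : ‖poly Q σ x‖ ^ 2 ≤ 2 * 2 ^ J := by
      linarith [hRS x, sq_nonneg ‖poly Q τ x‖]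
    refine (pow_le_one_iff_of_nonneg (by positivity) two_ne_zero).1 ?_
    rw [mul_pow, hν2, ← div_eq_inv_mul, div_le_one (by positivity)]
    exact h1
  refine ⟨T, fun k => if k ∈ T then κ * σ (k - o) else 0, B * κ, by positivity, ?_,
    fun k hk => if_neg hk, up, fun k => ν * σ (k - o), sup, ?_⟩
  · intro k hk
    obtain ⟨l, hl, rfl⟩ := mem_image.1 hk
    rw [add_sub_cancel_right]
    exact dvd_of_mem_cube hl
  have mass : ∑ k ∈ T, ‖(ν : ℂ) * σ (k - o)‖ ^ 2 ≤ 1 ^ 2 := by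
    rw [← parseval]
    simpa using intervalIntegral.integral_mono_on (μ := volume) zero_le_one
      (Continuous.intervalIntegrable (u := fun x => ‖poly T (fun k => ν * σ (k - o)) x‖ ^ 2)
        (by fun_prop) _ _)
      (Continuous.intervalIntegrable (continuous_const (y := (1 : ℝ))) _ _)
      fun x _ => pow_le_one₀ (norm_nonneg _) (sup x)
  refine le_trans (le_of_eq ?_) (lor_lower (H := h) (η := e / L) (b := B * κ * 1) (l := l)
    (M := h * L / (2 * 2 ^ q * C)) (by positivity) hs hh (by positivity) (by positivity) l0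
    (le_of_eq (by rw [hl]; field_simp; ring)) (by fun_prop) (fun x => norm_nonneg _) ?_ fun t ht => ?_)
  · rw [mul_rpow hh.le (by positivity)]
    congr 1
    field_simp
    ring
  · have : ∀ x, ‖poly T (fun k => (if k ∈ T then κ * σ (k - o) else 0) * (ν * σ (k - o))) x‖
        ^ (2 * q) = κ ^ (2 * q) * (ν ^ 2) ^ q * (‖poly Q (fun _ => 1) x‖ ^ 2) ^ q := by
      intro x
      have e : poly T (fun k => (if k ∈ T then κ * σ (k - o) else 0) * (ν * σ (k - o))) x =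
          κ * ν * poly T (fun _ => 1) x := by
        rw [poly, poly, mul_sum]
        refine sum_congr rfl fun k hk => ?_
        rw [if_pos hk]
        linear_combination (κ * ν * ee k x) * hσ2 (k - o)
      rw [e, norm_mul, norm_mul, hT, poly_image, Complex.norm_real,
        Complex.norm_real, Real.norm_of_nonneg hκ0.le, Real.norm_of_nonneg hν0,
        mul_rpow (by positivity) (by positivity), mul_rpow (by positivity) (by positivity),
        sq_rpow hν0, sq_rpow (norm_nonneg _)]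
    simp only [this]
    rw [intervalIntegral.integral_const_mul]
    have e4 : (ν ^ 2) ^ q = (2 ^ q * (2 ^ q) ^ J)⁻¹ := by
      rw [hν2, inv_rpow (by positivity), mul_rpow (by norm_num) (by positivity),
        ← rpow_pow_comm (by norm_num)]
    refine le_trans (le_of_eq ?_) (mul_le_mul_of_nonneg_left H2 (by positivity))
    rw [hκq, e4]
    field_simp
  · simpa only [one_rpow, mul_one] using up T _ 1 t one_pos ht mass

theorem summ (α β : ℝ) {γ : ℝ} (hγ : 0 < γ) :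
    Summable fun i : ℕ => (2 : ℝ) ^ (α + β * i - γ * i ^ 2) := by
  refine Summable.of_norm_bounded_eventually_nat (summable_geometric_two.mul_left (2 ^ α)) ?_
  filter_upwards [Filter.eventually_ge_atTop ⌈(β + 1) / γ⌉₊] with i hi
  have h1 : β + 1 ≤ i * γ := (div_le_iff₀ hγ).1 (Nat.ceil_le.1 hi)
  have h2 : (0 : ℝ) ≤ i := Nat.cast_nonneg i
  rw [Real.norm_of_nonneg (by positivity), one_div, inv_pow, ← rpow_natCast 2 i,
    ← rpow_neg zero_le_two, ← rpow_add two_pos]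
  exact rpow_le_rpow_of_exponent_le one_le_two (by nlinarith)

theorem glue {p s : ℝ} (hp : 2 < p) (hs : 0 < s) : ∃ (m : ℤ → ℂ) (e : ℝ) (b : ℕ → ℝ), 0 < e ∧
    (∀ i, 0 < b i) ∧
    (∀ (S : Finset ℤ) (a : ℤ → ℂ) (N : ℝ), 0 < N → ∑ k ∈ S, ‖a k‖ ^ 2 ≤ N ^ 2 →
      ∃ I : Finset ℕ, ∀ t, 0 < t →
      volume {x : ℝ | x ∈ Set.Icc (0 : ℝ) 1 ∧ t < ‖poly S (fun k => m k * a k) x‖} ≤
        ENNReal.ofReal (∑ i ∈ I, 2 ^ (p + (p / s + p) * i - p / s * i ^ 2) * N ^ p *
          (t ^ (-p) * env (e / 2 ^ ((i : ℝ) ^ 2)) (b i * N) t))) ∧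
    ∀ C : ℝ, ∃ (S : Finset ℤ) (a : ℤ → ℂ), (∀ x, ‖poly S a x‖ ≤ 1) ∧ ENNReal.ofReal C <
      ∫⁻ t in Set.Ioi (0 : ℝ), ENNReal.ofReal (t ^ (s - 1)) * volume
        {x : ℝ | x ∈ Set.Icc (0 : ℝ) 1 ∧ t < ‖poly S (fun k => m k * a k) x‖} ^ (s / p) := by
  obtain ⟨c, e, hc, he, H⟩ := block hp hs
  have hp0 : 0 < p := by linarith
  have hb := fun i : ℕ => H (2 ^ i ^ 2) (2 ^ (p / s * i - p / s * i ^ 2)) (2 ^ (i + 1)) (2 ^ i)
    (by positivity) (by positivity) (by positivity)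
  choose T μ b h0 h1 h2 h3 h4 using hb
  have hL : ∀ i : ℕ, ((2 ^ i ^ 2 : ℕ) : ℝ) = 2 ^ ((i : ℝ) ^ 2) := fun i => by
    rw [← Nat.cast_pow, rpow_natCast]
    push_cast
    rfl
  have lt : ∀ i j k, i < j → k ∈ T i → k ∉ T j := by
    intro i j k hij hi hj
    have a1 : (2 : ℤ) ^ (i + 1) ∣ k - 2 ^ j := (pow_dvd_pow 2 (by omega)).trans (h1 j k hj)
    have a2 : (2 : ℤ) ^ (i + 1) ∣ 2 ^ j := pow_dvd_pow 2 hij
    have a3 : (2 : ℤ) ^ (i + 1) ∣ 2 ^ i := by
      have := dvd_sub (dvd_add a1 a2) (h1 i k hi)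
      rwa [show k - 2 ^ j + 2 ^ j - (k - 2 ^ i) = (2 : ℤ) ^ i by ring] at this
    have := Int.le_of_dvd (by positivity) a3
    have h : (0 : ℤ) < 2 ^ i := by positivity
    rw [pow_succ] at this
    linarith
  have uniq : ∀ i j k, k ∈ T i → k ∈ T j → i = j := by
    intro i j k hi hj
    rcases lt_trichotomy i j with h | h | h
    · exact absurd hj (lt i j k h hi)
    · exact h
    · exact absurd hi (lt j i k h hj)
  obtain ⟨idx, hidx⟩ : ∃ idx : ℤ → ℕ, ∀ k i, k ∈ T i → idx k = i := by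
    classical
    refine ⟨fun k => if h : ∃ i, k ∈ T i then h.choose else 0, fun k i hk => ?_⟩
    have h : ∃ i, k ∈ T i := ⟨i, hk⟩
    simp only [dif_pos h]
    exact uniq _ _ k h.choose_spec hk
  refine ⟨fun k => μ (idx k) k, e, fun i => 2 * 2 ^ i * b i, he,
    fun i => by have := h0 i; positivity, fun S a N hN ha => ⟨S.image idx, fun t ht => ?_⟩,
    fun C => ?_⟩
  · set I := S.image idx with hI
    have e1 : ∀ x, poly S (fun k => μ (idx k) k * a k) x =
        ∑ i ∈ I, poly S (fun k => μ i k * a k) x := by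
      intro x
      simp only [poly]
      rw [sum_comm]
      refine sum_congr rfl fun k hk => ?_
      rw [sum_eq_single (idx k)]
      · intro i _ hi
        rw [h2 i k (fun h => hi (hidx k i h).symm), zero_mul, zero_mul]
      · intro h
        exact absurd (mem_image_of_mem idx hk) h
    have sub : {x : ℝ | x ∈ Set.Icc (0 : ℝ) 1 ∧ t < ‖poly S (fun k => μ (idx k) k * a k) x‖} ⊆
        ⋃ i ∈ I, {x : ℝ | x ∈ Set.Icc (0 : ℝ) 1 ∧
          t / 2 / 2 ^ i < ‖poly S (fun k => μ i k * a k) x‖} := by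
      intro x hx
      by_contra hne
      simp only [Set.mem_iUnion, Set.mem_ofPred_eq, not_exists, not_and, not_lt] at hne
      have := (norm_sum_le_of_le I fun i hi => hne i hi hx.1).trans
        (sum_le_hasSum I (fun _ _ => by positivity) (hasSum_geometric_two' t))
      rw [← e1] at this
      exact absurd hx.2 (not_lt.2 this)
    refine (measure_mono sub).trans ((measure_biUnion_finset_le _ _).trans ?_)
    refine (sum_le_sum fun i _ => h3 i S a N _ hN (by positivity) ha).trans (le_of_eq ?_)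
    rw [← ENNReal.ofReal_sum_of_nonneg fun i _ => by
      have := env_pos (e / (2 ^ i ^ 2 : ℕ)) (mul_pos (h0 i) hN) (by positivity : 0 < t / 2 / 2 ^ i)
      positivity]
    refine congrArg _ (sum_congr rfl fun i _ => ?_)
    have f1 : t / 2 / 2 ^ i / (b i * N) = t / (2 * 2 ^ i * b i * N) := by
      have := h0 i
      field_simp
    have f2 : (t / 2 / 2 ^ i) ^ (-p) = t ^ (-p) * 2 ^ (p + p * i) := by
      rw [div_div, div_rpow ht.le (by positivity), ← pow_succ', ← rpow_natCast,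
        ← rpow_mul zero_le_two, div_eq_mul_inv, ← rpow_neg zero_le_two]
      congr 2
      push_cast
      ring
    rw [env, env, f1, f2, hL, show p + (p / s + p) * i - p / s * i ^ 2 =
      (p / s * i - p / s * i ^ 2) + (p + p * i) by ring, rpow_add two_pos _ (p + p * i)]
    generalize (2 : ℝ) ^ (p + p * i) = w
    ring
  · obtain ⟨i, hi⟩ := pow_unbounded_of_one_lt (|C| / c) (one_lt_two (α := ℝ))
    obtain ⟨a, b1, b2⟩ := h4 i
    refine ⟨T i, a, b1, ?_⟩
    have e1 : ∀ x, poly (T i) (fun k => μ (idx k) k * a k) x =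
        poly (T i) (fun k => μ i k * a k) x :=
      fun x => sum_congr rfl fun k hk => by simp only [hidx k i hk]
    simp only [e1]
    refine lt_of_lt_of_le ((ENNReal.ofReal_lt_ofReal_iff (by positivity)).2 ?_) b2
    rw [hL, ← rpow_mul zero_le_two, ← rpow_add two_pos,
      show (i : ℝ) ^ 2 + (p / s * i - p / s * i ^ 2) * (s / p) = i by field_simp; ring,
      rpow_natCast]
    rw [div_lt_iff₀' hc] at hi
    exact (le_abs_self C).trans_lt hi

end Pool.Agent.P.MP_f33f0c_an.Lor
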