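import Mathlib
import Pool.Agent.P.MP_f33f0c_an.LorC

/-! The multiplier before normalisation, scaling, and comparison with the Lebesgue norm. -/

set_option autoImplicit false

namespace Pool.Agent.P.MP_f33f0c_an.Lor

open MeasureTheory Pool.Agent.P.MP_f33f0c_an.AllP

theorem pre {p s : ℝ} (hp : 2 < p) (hs : 0 < s) : ∃ m : ℤ → ℂ,
    (∀ r : ℝ, s < r → ∃ C : ℝ, ∀ (S : Finset ℤ) (c : ℤ → ℂ),
      ∫⁻ t in Set.Ioi (0 : ℝ), ENNReal.ofReal (t ^ (r - 1)) * volume {x : ℝ | x ∈ Set.Icc (0 : ℝ) 1 ∧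
          t < ‖poly S (fun k => m k * c k) x‖} ^ (r / p) ≤
        ENNReal.ofReal (C * (∫ x in (0 : ℝ)..1, ‖poly S c x‖ ^ 2) ^ (r / 2))) ∧
    (∃ C : ℝ, 0 ≤ C ∧ ∀ (S : Finset ℤ) (c : ℤ → ℂ) (t : ℝ), 0 < t →
      volume {x : ℝ | x ∈ Set.Icc (0 : ℝ) 1 ∧ t < ‖poly S (fun k => m k * c k) x‖} ≤
        ENNReal.ofReal (C * (∫ x in (0 : ℝ)..1, ‖poly S c x‖ ^ 2) ^ (p / 2) / t ^ p)) ∧
    ∀ C : ℝ, ∃ (S : Finset ℤ) (c : ℤ → ℂ), (∀ x : ℝ, ‖poly S c x‖ ≤ 1) ∧ ENNReal.ofReal C <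
      ∫⁻ t in Set.Ioi (0 : ℝ), ENNReal.ofReal (t ^ (s - 1)) * volume {x : ℝ | x ∈ Set.Icc (0 : ℝ) 1 ∧
        t < ‖poly S (fun k => m k * c k) x‖} ^ (s / p) := by
  obtain ⟨m, e, b, he, hb, h1, h2⟩ := glue hp hs
  have hp0 : 0 < p := by linarith
  have key : ∀ (S : Finset ℤ) (c : ℤ → ℂ), (∀ t, 0 < t → {x : ℝ | x ∈ Set.Icc (0 : ℝ) 1 ∧
      t < ‖poly S (fun k => m k * c k) x‖} = ∅) ∨
      ∃ N : ℝ, 0 < N ∧ ∑ k ∈ S, ‖c k‖ ^ 2 = N ^ 2 := fun S c => by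
    have h0 : 0 ≤ ∑ k ∈ S, ‖c k‖ ^ 2 := by positivity
    rcases h0.eq_or_lt with h | h
    · refine Or.inl fun t ht => Set.eq_empty_of_forall_notMem fun x hx => ?_
      have : poly S (fun k => m k * c k) x = 0 := Finset.sum_eq_zero fun k hk => by
        have := (Finset.sum_eq_zero_iff_of_nonneg fun _ _ => by positivity).1 h.symm k hk
        simp [norm_eq_zero.1 (pow_eq_zero_iff two_ne_zero |>.1 this)]
      exact absurd hx.2 (by rw [this, norm_zero]; exact ht.le.not_gt)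
    · exact Or.inr ⟨√_, Real.sqrt_pos.2 h, (Real.sq_sqrt h0).symm⟩
  have sq : ∀ N r : ℝ, 0 < N → (N ^ 2) ^ (r / 2) = N ^ r := fun N r hN => by
    rw [sq_rpow hN.le]
    congr 1
    ring
  have weak : ∃ C : ℝ, 0 ≤ C ∧ ∀ (S : Finset ℤ) (c : ℤ → ℂ) (t : ℝ), 0 < t →
      volume {x : ℝ | x ∈ Set.Icc (0 : ℝ) 1 ∧ t < ‖poly S (fun k => m k * c k) x‖} ≤
        ENNReal.ofReal (C * (∫ x in (0 : ℝ)..1, ‖poly S c x‖ ^ 2) ^ (p / 2) / t ^ p) := by
    have hS := summ p (p / s + p) (γ := p / s) (by positivity)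
    refine ⟨∑' i : ℕ, (2 : ℝ) ^ (p + (p / s + p) * i - p / s * i ^ 2),
      tsum_nonneg fun i => by positivity, fun S c t ht => ?_⟩
    rcases key S c with h | ⟨N, hN, h⟩
    · rw [h t ht]
      simp
    obtain ⟨I, hI⟩ := h1 S c N hN h.le
    refine (hI t ht).trans (ENNReal.ofReal_le_ofReal ?_)
    rw [parseval, h, sq N p hN]
    calc _ ≤ ∑ i ∈ I, (2 : ℝ) ^ (p + (p / s + p) * i - p / s * i ^ 2) * N ^ p * (t ^ (-p) * 1) := by
          gcongr with i _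
          exact env_le_one _ (mul_pos (hb i) hN) ht
      _ = (∑ i ∈ I, (2 : ℝ) ^ (p + (p / s + p) * i - p / s * i ^ 2)) * N ^ p / t ^ p := by
          rw [← Finset.sum_mul, ← Finset.sum_mul, mul_one, Real.rpow_neg ht.le,
            div_eq_mul_inv _ (t ^ p)]
      _ ≤ _ := by
          gcongr
          exact hS.sum_le_tsum I fun i _ => by positivity
  obtain ⟨C, hC, weak⟩ := weak
  refine ⟨m, fun r hr => ?_, ⟨C, hC, weak⟩, h2⟩
  · have hr0 : 0 < r := hs.trans hr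
    have hS := (summ ((p + 1) * (r / p)) ((p / s + p + 1) * (r / p)) (γ := r / s - 1)
      (sub_pos.2 ((one_lt_div hs).2 hr))).mul_left (2 / (e * (r / p)))
    refine ⟨∑' i : ℕ, 2 / (e * (r / p)) * (2 : ℝ) ^ ((p + 1) * (r / p) +
      (p / s + p + 1) * (r / p) * i - (r / s - 1) * i ^ 2), fun S c => ?_⟩
    rcases key S c with h | ⟨N, hN, h⟩
    · rw [setLIntegral_congr_fun measurableSet_Ioi (g := fun _ => 0) fun t ht => by
        simp only [h t ht, measure_empty, ENNReal.zero_rpow_of_pos (div_pos hr0 hp0), mul_zero]]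
      simp
    obtain ⟨I, hI⟩ := h1 S c N hN h.le
    refine (lor_upper I hp0 hr0 (fun i => by positivity) (fun i => by positivity)
      (fun i => mul_pos (hb i) hN) hI).trans (ENNReal.ofReal_le_ofReal ?_)
    rw [parseval, h, sq N r hN]
    refine le_trans (le_of_eq ?_) (mul_le_mul_of_nonneg_right
      (hS.sum_le_tsum I fun i _ => by positivity) (by positivity))
    rw [Finset.sum_mul]
    refine Finset.sum_congr rfl fun i _ => ?_
    rw [← mul_assoc, Real.mul_rpow (by positivity) (by positivity), ← Real.rpow_mul hN.le,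
      mul_div_cancel₀ _ hp0.ne', ← pow_succ', ← Real.rpow_natCast 2 (i + 1),
      ← Real.rpow_add two_pos, ← Real.rpow_mul zero_le_two,
      show (p + 1) * (r / p) + (p / s + p + 1) * (r / p) * i - (r / s - 1) * i ^ 2 =
        (((i + 1 : ℕ) : ℝ) + (p + (p / s + p) * i - p / s * i ^ 2)) * (r / p) + i ^ 2 by
          push_cast; field_simp; ring, Real.rpow_add two_pos _ ((i : ℝ) ^ 2)]
    have : (0 : ℝ) < 2 ^ ((i : ℝ) ^ 2) := by positivity
    generalize (2 : ℝ) ^ ((i : ℝ) ^ 2) = w at *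
    field_simp

theorem lor_scale (g : ℝ → ℝ) (s a : ℝ) {l : ℝ} (hl : 0 < l) :
    ∫⁻ t in Set.Ioi (0 : ℝ), ENNReal.ofReal (t ^ (s - 1)) *
        volume {x : ℝ | x ∈ Set.Icc (0 : ℝ) 1 ∧ t < l * g x} ^ a =
      ENNReal.ofReal (l ^ s) * ∫⁻ t in Set.Ioi (0 : ℝ), ENNReal.ofReal (t ^ (s - 1)) *
        volume {x : ℝ | x ∈ Set.Icc (0 : ℝ) 1 ∧ t < g x} ^ a := by
  have h := lintegral_image_eq_lintegral_abs_deriv_mul (s := Set.Ioi (0 : ℝ)) (f := fun t => l * t)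
    (f' := fun _ => l) measurableSet_Ioi
    (fun x _ => by simpa using ((hasDerivAt_id x).const_mul l).hasDerivWithinAt)
    (fun x _ y _ h => mul_left_cancel₀ hl.ne' h)
    (fun t => ENNReal.ofReal (t ^ (s - 1)) *
      volume {x : ℝ | x ∈ Set.Icc (0 : ℝ) 1 ∧ t < l * g x} ^ a)
  rw [Set.image_const_mul_Ioi_zero hl] at h
  rw [h, ← lintegral_const_mul' _ _ ENNReal.ofReal_ne_top]
  refine setLIntegral_congr_fun measurableSet_Ioi fun t ht => ?_
  have ht : 0 < t := ht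
  simp only [mul_lt_mul_iff_right₀ hl]
  rw [← mul_assoc, ← mul_assoc, ← ENNReal.ofReal_mul (abs_nonneg _),
    ← ENNReal.ofReal_mul (by positivity), abs_of_pos hl, Real.mul_rpow hl.le ht.le,
    Real.rpow_sub_one hl.ne']
  congr 2
  field_simp

theorem lor_le_Lp {p s : ℝ} (hp : 0 < p) (hs : p ≤ s) {g : ℝ → ℝ} (hg : Continuous g)
    (hg0 : ∀ x, 0 ≤ g x) (hd : ∀ t, 0 < t → volume {x : ℝ | x ∈ Set.Icc (0 : ℝ) 1 ∧ t < g x} ≤
      ENNReal.ofReal (1 / t ^ p)) :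
    ENNReal.ofReal p * ∫⁻ t in Set.Ioi (0 : ℝ), ENNReal.ofReal (t ^ (s - 1)) *
      volume {x : ℝ | x ∈ Set.Icc (0 : ℝ) 1 ∧ t < g x} ^ (s / p) ≤
      ENNReal.ofReal (∫ x in (0 : ℝ)..1, g x ^ p) := by
  have h1 := lintegral_rpow_eq_lintegral_meas_lt_mul (volume.restrict (Set.Icc (0 : ℝ) 1))
    (Filter.Eventually.of_forall hg0) hg.measurable.aemeasurable hp
  have hc : Continuous fun x => g x ^ p := hg.rpow_const fun _ => Or.inr hp.le
  rw [← ofReal_integral_eq_lintegral_ofReal hc.integrableOn_Icc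
    (Filter.Eventually.of_forall fun x => Real.rpow_nonneg (hg0 x) p),
    integral_Icc_eq_integral_Ioc, ← intervalIntegral.integral_of_le zero_le_one] at h1
  rw [h1]
  refine mul_le_mul_right (setLIntegral_mono' measurableSet_Ioi fun t ht => ?_) _
  have ht : 0 < t := ht
  rw [Measure.restrict_apply (isOpen_lt continuous_const hg).measurableSet, Set.inter_comm]
  have h3 := hd t ht
  change _ ≤ volume {x : ℝ | x ∈ Set.Icc (0 : ℝ) 1 ∧ t < g x} * _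
  generalize volume {x : ℝ | x ∈ Set.Icc (0 : ℝ) 1 ∧ t < g x} = w at *
  lift w to NNReal using ne_top_of_le_ne_top ENNReal.ofReal_ne_top h3
  have hw : (0 : ℝ) ≤ w := w.2
  have tp : 0 < t ^ p := by positivity
  rw [← ENNReal.ofReal_coe_nnreal] at h3 ⊢
  rw [ENNReal.ofReal_le_ofReal_iff (by positivity), le_div_iff₀ tp] at h3
  rw [ENNReal.ofReal_rpow_of_nonneg hw (div_nonneg (hp.le.trans hs) hp.le),
    ← ENNReal.ofReal_mul hw, ← ENNReal.ofReal_mul (by positivity)]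
  refine ENNReal.ofReal_le_ofReal ?_
  have h4 : (w * t ^ p) ^ (s / p) ≤ w * t ^ p :=
    Real.rpow_le_self_of_le_one (by positivity) h3 ((one_le_div hp).2 hs)
  rw [Real.mul_rpow hw tp.le, ← Real.rpow_mul ht.le, mul_div_cancel₀ _ hp.ne'] at h4
  rw [Real.rpow_sub_one ht.ne', Real.rpow_sub_one ht.ne']
  calc _ = (w ^ (s / p) * t ^ s) / t := by ring
    _ ≤ (w * t ^ p) / t := by gcongr
    _ = _ := by ring

end Pool.Agent.P.MP_f33f0c_an.Lor
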