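import Mathlib
import Pool.Agent.P.MP_f33f0c_an.LorD

set_option autoImplicit false

namespace Pool.Agent.P.MP_f33f0c_an.UnclaimedLorentzScale

open MeasureTheory Pool.Agent.P.MP_f33f0c_an.AllP Pool.Agent.P.MP_f33f0c_an.Lor

/-- For all `p > 2` and `s > 0` there is a bounded multiplier on the circle that maps `L^2` to
weak `L^p`, hence is of weak type `(p,p)`, maps `L^2` to the Lorentz space `L^{p,r}` for every
`r > s`, and is unbounded from the sup norm to `L^{p,s}`. When `s ≥ p` it is unbounded from the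
sup norm to `L^p` and is not of strong type `(p,p)`. -/
theorem result (p s : ℝ) (hp : 2 < p) (hs : 0 < s) : ∃ m : ℤ → ℂ, (∀ n, ‖m n‖ ≤ 1) ∧
    (∀ (S : Finset ℤ) (c : ℤ → ℂ) (t : ℝ), 0 < t →
      volume {x : ℝ | x ∈ Set.Icc (0 : ℝ) 1 ∧
          t < ‖∑ n ∈ S, m n * c n * Complex.exp (2 * Real.pi * Complex.I * n * x)‖} ≤
        ENNReal.ofReal ((∫ x in (0 : ℝ)..1,
          ‖∑ n ∈ S, c n * Complex.exp (2 * Real.pi * Complex.I * n * x)‖ ^ 2) ^ (p / 2) / t ^ p)) ∧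
    (∀ (S : Finset ℤ) (c : ℤ → ℂ) (t : ℝ), 0 < t →
      volume {x : ℝ | x ∈ Set.Icc (0 : ℝ) 1 ∧
          t < ‖∑ n ∈ S, m n * c n * Complex.exp (2 * Real.pi * Complex.I * n * x)‖} ≤
        ENNReal.ofReal ((∫ x in (0 : ℝ)..1,
          ‖∑ n ∈ S, c n * Complex.exp (2 * Real.pi * Complex.I * n * x)‖ ^ p) / t ^ p)) ∧
    (∀ r : ℝ, s < r → ∃ C : ℝ, ∀ (S : Finset ℤ) (c : ℤ → ℂ),
      ∫⁻ t in Set.Ioi (0 : ℝ), ENNReal.ofReal (t ^ (r - 1)) * volume {x : ℝ | x ∈ Set.Icc (0 : ℝ) 1 ∧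
          t < ‖∑ n ∈ S, m n * c n * Complex.exp (2 * Real.pi * Complex.I * n * x)‖} ^ (r / p) ≤
        ENNReal.ofReal (C * (∫ x in (0 : ℝ)..1,
          ‖∑ n ∈ S, c n * Complex.exp (2 * Real.pi * Complex.I * n * x)‖ ^ 2) ^ (r / 2))) ∧
    (∀ C : ℝ, ∃ (S : Finset ℤ) (c : ℤ → ℂ),
      (∀ x : ℝ, ‖∑ n ∈ S, c n * Complex.exp (2 * Real.pi * Complex.I * n * x)‖ ≤ 1) ∧
      ENNReal.ofReal C <
        ∫⁻ t in Set.Ioi (0 : ℝ), ENNReal.ofReal (t ^ (s - 1)) * volume {x : ℝ | x ∈ Set.Icc (0 : ℝ) 1 ∧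
          t < ‖∑ n ∈ S, m n * c n * Complex.exp (2 * Real.pi * Complex.I * n * x)‖} ^ (s / p)) ∧
    (p ≤ s → (∀ C : ℝ, ∃ (S : Finset ℤ) (c : ℤ → ℂ),
      (∀ x : ℝ, ‖∑ n ∈ S, c n * Complex.exp (2 * Real.pi * Complex.I * n * x)‖ ≤ 1) ∧
      C < ∫ x in (0 : ℝ)..1,
        ‖∑ n ∈ S, m n * c n * Complex.exp (2 * Real.pi * Complex.I * n * x)‖ ^ p) ∧
    ¬ ∃ C : ℝ, ∀ (S : Finset ℤ) (c : ℤ → ℂ),
      (∫ x in (0 : ℝ)..1,
        ‖∑ n ∈ S, m n * c n * Complex.exp (2 * Real.pi * Complex.I * n * x)‖ ^ p) ≤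
      C * ∫ x in (0 : ℝ)..1,
        ‖∑ n ∈ S, c n * Complex.exp (2 * Real.pi * Complex.I * n * x)‖ ^ p) := by
  obtain ⟨μ, h1, ⟨K, hK, h2⟩, h3⟩ := pre hp hs
  have hp0 : 0 < p := by linarith
  obtain ⟨l, hl, hlK⟩ : ∃ l : ℝ, 0 < l ∧ K * l ^ p ≤ 1 := by
    refine ⟨(K + 1)⁻¹ ^ p⁻¹, by positivity, ?_⟩
    rw [Real.rpow_inv_rpow (by positivity) hp0.ne', ← div_eq_mul_inv, div_le_one (by positivity)]
    linarith
  have sc : ∀ (S : Finset ℤ) (c : ℤ → ℂ) (x : ℝ),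
      ‖poly S (fun k => l * μ k * c k) x‖ = l * ‖poly S (fun k => μ k * c k) x‖ := fun S c x => by
    have : poly S (fun k => l * μ k * c k) x = l * poly S (fun k => μ k * c k) x := by
      simp only [poly, Finset.mul_sum, mul_assoc]
    rw [this, norm_mul, Complex.norm_real, Real.norm_of_nonneg hl.le]
  have nn : ∀ (S : Finset ℤ) (c : ℤ → ℂ), 0 ≤ ∫ x in (0 : ℝ)..1, ‖poly S c x‖ ^ 2 := fun S c =>
    intervalIntegral.integral_nonneg zero_le_one fun x _ => by positivity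
  have a1 : ∀ (S : Finset ℤ) (c : ℤ → ℂ) (t : ℝ), 0 < t →
      volume {x : ℝ | x ∈ Set.Icc (0 : ℝ) 1 ∧ t < ‖poly S (fun k => l * μ k * c k) x‖} ≤
        ENNReal.ofReal ((∫ x in (0 : ℝ)..1, ‖poly S c x‖ ^ 2) ^ (p / 2) / t ^ p) := by
    intro S c t ht
    simp only [sc, ← div_lt_iff₀' hl]
    refine (h2 S c _ (div_pos ht hl)).trans (ENNReal.ofReal_le_ofReal ?_)
    have := Real.rpow_nonneg (nn S c) (p / 2)
    rw [Real.div_rpow ht.le hl.le]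
    calc _ = K * l ^ p * ((∫ x in (0 : ℝ)..1, ‖poly S c x‖ ^ 2) ^ (p / 2) / t ^ p) := by
          field_simp
      _ ≤ _ := mul_le_of_le_one_left (by positivity) hlK
  have e : ∀ a : ℝ, 0 ≤ a → (a ^ 2) ^ (p / 2) = a ^ p := fun a ha => by
    rw [sq_rpow ha]
    congr 1
    ring
  have a2 : ∀ (S : Finset ℤ) (c : ℤ → ℂ) (t : ℝ), 0 < t →
      volume {x : ℝ | x ∈ Set.Icc (0 : ℝ) 1 ∧ t < ‖poly S (fun k => l * μ k * c k) x‖} ≤
        ENNReal.ofReal ((∫ x in (0 : ℝ)..1, ‖poly S c x‖ ^ p) / t ^ p) := by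
    intro S c t ht
    refine (a1 S c t ht).trans (ENNReal.ofReal_le_ofReal ?_)
    refine div_le_div_of_nonneg_right ?_ (by positivity)
    have := rpow_integral_le (h := fun x => ‖poly S c x‖ ^ 2)
      (by fun_prop) (fun x => by positivity) (q := p / 2) (by linarith)
    simpa only [e _ (norm_nonneg _)] using this
  have a3 : ∀ C : ℝ, ∃ (S : Finset ℤ) (c : ℤ → ℂ), (∀ x : ℝ, ‖poly S c x‖ ≤ 1) ∧
      ENNReal.ofReal C < ∫⁻ t in Set.Ioi (0 : ℝ), ENNReal.ofReal (t ^ (s - 1)) *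
        volume {x : ℝ | x ∈ Set.Icc (0 : ℝ) 1 ∧
          t < ‖poly S (fun k => l * μ k * c k) x‖} ^ (s / p) := by
    intro C
    obtain ⟨S, c, b1, b2⟩ := h3 (C / l ^ s)
    refine ⟨S, c, b1, ?_⟩
    have hls : 0 < l ^ s := by positivity
    simp only [sc]
    rw [lor_scale _ _ _ hl, show C = l ^ s * (C / l ^ s) by field_simp,
      ENNReal.ofReal_mul hls.le]
    exact ENNReal.mul_lt_mul_right (ENNReal.ofReal_pos.2 hls).ne' ENNReal.ofReal_ne_top b2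
  have le1 : ∀ (S : Finset ℤ) (c : ℤ → ℂ), (∀ x : ℝ, ‖poly S c x‖ ≤ 1) →
      (∫ x in (0 : ℝ)..1, ‖poly S c x‖ ^ p) ≤ 1 := fun S c b1 => by
    simpa using intervalIntegral.integral_mono_on (μ := volume) zero_le_one
      (Continuous.intervalIntegrable (cont_rpow
        (h := fun x => ‖poly S c x‖) (by fun_prop) hp0.le) _ _)
      (Continuous.intervalIntegrable (continuous_const (y := (1 : ℝ))) _ _)
      fun x _ => Real.rpow_le_one (norm_nonneg _) (b1 x) hp0.le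
  have a4 : p ≤ s → ∀ C : ℝ, ∃ (S : Finset ℤ) (c : ℤ → ℂ), (∀ x, ‖poly S c x‖ ≤ 1) ∧
      C < ∫ x in (0 : ℝ)..1, ‖poly S (fun k => l * μ k * c k) x‖ ^ p := by
    intro hps C
    obtain ⟨S, c, b1, b2⟩ := a3 |C|
    refine ⟨S, c, b1, (le_abs_self C).trans_lt ?_⟩
    have h4 := lor_le_Lp hp0 hps (g := fun x => ‖poly S (fun k => l * μ k * c k) x‖) (by fun_prop)
      (fun x => norm_nonneg _) fun t ht => (a2 S c t ht).trans (ENNReal.ofReal_le_ofReal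
        (div_le_div_of_nonneg_right (le1 S c b1) (by positivity)))
    refine (ENNReal.ofReal_lt_ofReal_iff_of_nonneg (abs_nonneg C)).1 (b2.trans_le ?_)
    exact (le_mul_of_one_le_left' (ENNReal.one_le_ofReal.2 (by linarith))).trans h4
  refine ⟨fun k => l * μ k, fun n => ?_, a1, a2, fun r hr => ?_, a3, fun hps => ⟨a4 hps, ?_⟩⟩
  · by_contra hn
    obtain ⟨t, t1, t2⟩ := exists_between (not_le.1 hn)
    have h3 := a1 {n} (fun _ => 1) t (by linarith)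
    simp only [poly, Finset.sum_singleton, mul_one, one_mul, norm_mul (_ * _),
      norm_ee, t2, and_true, Set.ofPred_mem_eq, Real.volume_Icc, one_pow,
      intervalIntegral.integral_const, sub_zero, smul_eq_mul, Real.one_rpow] at h3
    have h4 : 1 < t ^ p := Real.one_lt_rpow t1 hp0
    rw [ENNReal.ofReal_le_ofReal_iff (by positivity), le_div_iff₀ (by linarith)] at h3
    linarith
  · obtain ⟨C, hC⟩ := h1 r hr
    refine ⟨l ^ r * C, fun S c => ?_⟩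
    change ∫⁻ t in Set.Ioi (0 : ℝ), _ * volume {x : ℝ | x ∈ Set.Icc (0 : ℝ) 1 ∧
      t < ‖poly S (fun k => l * μ k * c k) x‖} ^ (r / p) ≤
      ENNReal.ofReal (_ * (∫ x in (0 : ℝ)..1, ‖poly S c x‖ ^ 2) ^ (r / 2))
    simp only [sc]
    rw [lor_scale _ _ _ hl, mul_assoc, ENNReal.ofReal_mul (by positivity)]
    exact mul_le_mul_right (hC S c) _
  · rintro ⟨C, hC⟩
    obtain ⟨S, c, b1, b2⟩ := a4 hps |C|
    have h3 : (∫ x in (0 : ℝ)..1, ‖poly S (fun k => l * μ k * c k) x‖ ^ p) ≤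
        C * ∫ x in (0 : ℝ)..1, ‖poly S c x‖ ^ p := hC S c
    have h4 : 0 ≤ ∫ x in (0 : ℝ)..1, ‖poly S c x‖ ^ p :=
      intervalIntegral.integral_nonneg zero_le_one fun x _ => by positivity
    nlinarith [le_abs_self C, abs_nonneg C, mul_le_mul_of_nonneg_right (le_abs_self C) h4,
      mul_le_mul_of_nonneg_left (le1 S c b1) (abs_nonneg C)]

/-- The case `s = p`: weak type without strong type, for every `p > 2`. -/
theorem allExponents (p : ℝ) (hp : 2 < p) : ∃ m : ℤ → ℂ, (∀ n, ‖m n‖ ≤ 1) ∧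
    (∀ (S : Finset ℤ) (c : ℤ → ℂ) (t : ℝ), 0 < t →
      volume {x : ℝ | x ∈ Set.Icc (0 : ℝ) 1 ∧
          t < ‖∑ n ∈ S, m n * c n * Complex.exp (2 * Real.pi * Complex.I * n * x)‖} ≤
        ENNReal.ofReal ((∫ x in (0 : ℝ)..1,
          ‖∑ n ∈ S, c n * Complex.exp (2 * Real.pi * Complex.I * n * x)‖ ^ 2) ^ (p / 2) / t ^ p)) ∧
    (∀ (S : Finset ℤ) (c : ℤ → ℂ) (t : ℝ), 0 < t →
      volume {x : ℝ | x ∈ Set.Icc (0 : ℝ) 1 ∧
          t < ‖∑ n ∈ S, m n * c n * Complex.exp (2 * Real.pi * Complex.I * n * x)‖} ≤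
        ENNReal.ofReal ((∫ x in (0 : ℝ)..1,
          ‖∑ n ∈ S, c n * Complex.exp (2 * Real.pi * Complex.I * n * x)‖ ^ p) / t ^ p)) ∧
    (∀ C : ℝ, ∃ (S : Finset ℤ) (c : ℤ → ℂ),
      (∀ x : ℝ, ‖∑ n ∈ S, c n * Complex.exp (2 * Real.pi * Complex.I * n * x)‖ ≤ 1) ∧
      C < ∫ x in (0 : ℝ)..1,
        ‖∑ n ∈ S, m n * c n * Complex.exp (2 * Real.pi * Complex.I * n * x)‖ ^ p) ∧
    ¬ ∃ C : ℝ, ∀ (S : Finset ℤ) (c : ℤ → ℂ),
      (∫ x in (0 : ℝ)..1,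
        ‖∑ n ∈ S, m n * c n * Complex.exp (2 * Real.pi * Complex.I * n * x)‖ ^ p) ≤
      C * ∫ x in (0 : ℝ)..1,
        ‖∑ n ∈ S, c n * Complex.exp (2 * Real.pi * Complex.I * n * x)‖ ^ p := by
  obtain ⟨m, h0, h1, h2, -, -, h3⟩ := result p p hp (by linarith)
  exact ⟨m, h0, h1, h2, h3 le_rfl⟩

end Pool.Agent.P.MP_f33f0c_an.UnclaimedLorentzScale
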